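import Pool.Agent.Run7.h933.CAN.Eqv
set_option autoImplicit false

/-! Applications: permutations in characteristic 0, finite fields. -/

open scoped Classical Pointwise
open Finset Filter

namespace Run7.h933.CAN

theorem permutations0 {F : Type*} [Field F] [CharZero F] {n : ℕ} (A : Finset (Fin n → F))
    (hA : A.Nonempty) (K : ℝ)
    (hK : Fintype.card (Equiv.Perm (Fin n)) < 2 * (univ.filter fun σ : Equiv.Perm (Fin n) =>
      ((A + A.image (fun x i => x (σ i))).card : ℝ) ≤ K * A.card).card) :
    (∃ T : Finset (Fin n → F), (T.card : ℝ) ≤ 3 * K ^ 1334 ∧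
      ∀ a ∈ A, ∃ t ∈ T, ∀ i j, a i - t i = a j - t j) ∨ Real.exp n ≤ 9 * K ^ 1334 := by
  let _ : DistribMulAction (Equiv.Perm (Fin n)) (Fin n → F) := permAct F n
  have hsm : ∀ (σ : Equiv.Perm (Fin n)) (x : Fin n → F), σ • x = fun i => x (σ⁻¹ i) :=
    fun σ x => rfl
  have : SMulCommClass (Equiv.Perm (Fin n)) F (Fin n → F) := ⟨fun σ c x => rfl⟩
  have hK' : Fintype.card (Equiv.Perm (Fin n)) < 2 * (univ.filter fun σ : Equiv.Perm (Fin n) =>
      ((A + A.image (σ • ·)).card : ℝ) ≤ K * A.card).card := by
    refine lt_of_lt_of_le hK (Nat.mul_le_mul_left _ ?_)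
    apply Finset.card_le_card_of_injOn (fun σ => σ⁻¹)
    · intro σ hσ
      have h1 := (Finset.mem_filter.1 hσ).2
      simp only [Finset.coe_filter, Finset.mem_univ, true_and, Set.mem_ofPred_eq]
      simp only [hsm, inv_inv]
      exact h1
    · intro σ _ τ _ h
      exact inv_injective h
  obtain ⟨U, hU, hinv, T, hT, hcov⟩ := equivariant0 (F := F) (Φ := Equiv.Perm (Fin n)) A hA K
    (halfC_of hK')
  have hTpos : (1 : ℝ) ≤ T.card := by
    obtain ⟨a, ha⟩ := hA
    obtain ⟨t, ht, -⟩ := hcov a ha
    exact_mod_cast Finset.card_pos.2 ⟨t, ht⟩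
  rcases perm_invariant' U.toAddSubgroup (fun c y hy => U.smul_mem c hy) (fun σ x hx => by
      have := hinv σ⁻¹ x hx
      simp only [hsm, inv_inv] at this
      exact this) with h | h
  · left
    refine ⟨T, ?_, ?_⟩
    · have h1 : 1 ≤ Real.exp (Module.finrank F U) := Real.one_le_exp (Nat.cast_nonneg _)
      nlinarith
    · intro a ha
      obtain ⟨t, ht, hat⟩ := hcov a ha
      exact ⟨t, ht, fun i j => h _ hat i j⟩
  · right
    have hdim : n ≤ Module.finrank F U + 1 := by
      rcases n with _ | n
      · exact Nat.zero_le _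
      · have h1 : U ⊔ Submodule.span F {(Pi.single 0 1 : Fin (n+1) → F)} = ⊤ := by
          rw [eq_top_iff]
          intro x _
          have h2 := h x 0
          have h3 : x = (x - Pi.single 0 (∑ j, x j)) +
              (∑ j, x j) • (Pi.single 0 1 : Fin (n+1) → F) := by
            rw [← Pi.single_smul]
            simp
          rw [h3]
          exact Submodule.add_mem_sup h2 (Submodule.smul_mem _ _
            (Submodule.mem_span_singleton_self _))
        have h4 := Submodule.finrank_add_le_finrank_add_finrank U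
          (Submodule.span F {(Pi.single 0 1 : Fin (n+1) → F)})
        rw [h1, finrank_top, Module.finrank_fin_fun] at h4
        have h5 := finrank_span_singleton (K := F) (v := (Pi.single 0 1 : Fin (n+1) → F))
          (by
            intro h6
            have h7 := congrFun h6 0
            rw [Pi.single_eq_same] at h7
            exact one_ne_zero h7)
        omega
    have h1 : Real.exp n ≤ Real.exp (Module.finrank F U) * Real.exp 1 := by
      rw [← Real.exp_add]
      apply Real.exp_le_exp.2
      exact_mod_cast hdim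
    have h2 : Real.exp (Module.finrank F U) ≤ 3 * K ^ 1334 := by
      have h3 := Real.exp_pos (Module.finrank F U)
      nlinarith
    have h3 := Real.exp_one_lt_d9
    have h4 := Real.exp_pos (Module.finrank F U)
    nlinarith

/-- **Theorem J.** Finite fields. -/
theorem fields {F : Type*} [Field F] [Finite F] (p : ℕ) (hp : p.Prime) [CharP F p]
    (G : Subgroup Fˣ) [Fintype G]
    (hG : Subring.closure ((fun u : Fˣ => (u : F)) '' (G : Set Fˣ)) = ⊤)
    (A : Finset F) (hA : A.Nonempty) (K : ℝ)
    (hK : Fintype.card G < 2 * (univ.filter fun g : G =>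
      ((A + A.image (((g : Fˣ) : F) * ·)).card : ℝ) ≤ K * A.card).card) :
    ((A.card : ℝ) ≤ K ^ (2 * E p) ∨ (Nat.card F : ℝ) ≤ K ^ (2 * E p) * A.card) ∧
    ((A.card : ℝ) ≤ Q (K ^ 2) ∨ (Nat.card F : ℝ) ≤ Q (K ^ 2) * A.card ∨
      (Nat.card F : ℝ) ≤ (p : ℝ) ^ (30000 * Real.log (2 * K ^ 2))) := by
  have hsm : ∀ (g : G) (x : F), g • x = ((g : Fˣ) : F) * x := fun g x => rfl
  have htor : ∀ x : F, p • x = 0 := fun x => by
    rw [nsmul_eq_mul, CharP.cast_eq_zero, zero_mul]
  have hirr : ∀ N : AddSubgroup F, (∀ (g : G), ∀ x ∈ N, g • x ∈ N) → N = ⊥ ∨ N = ⊤ := by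
    intro N hinv
    let B : Subring F :=
      { carrier := {r : F | ∀ x ∈ N, r * x ∈ N}
        mul_mem' := by
          intro a b ha hb x hx
          rw [mul_assoc]
          exact ha _ (hb _ hx)
        one_mem' := by
          intro x hx
          rwa [one_mul]
        add_mem' := by
          intro a b ha hb x hx
          rw [add_mul]
          exact N.add_mem (ha _ hx) (hb _ hx)
        zero_mem' := by
          intro x _
          rw [zero_mul]
          exact N.zero_mem
        neg_mem' := by
          intro a ha x hx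
          rw [neg_mul]
          exact N.neg_mem (ha _ hx) }
    have hB : B = ⊤ := by
      rw [eq_top_iff, ← hG, Subring.closure_le]
      rintro _ ⟨u, hu, rfl⟩ x hx
      exact hinv ⟨u, hu⟩ x hx
    by_cases h : ∀ x ∈ N, x = 0
    · left
      rw [eq_bot_iff]
      intro x hx
      exact h x hx
    · right
      push Not at h
      obtain ⟨x, hx, hx0⟩ := h
      rw [eq_top_iff]
      intro y _
      have h1 : y * x⁻¹ ∈ B := by rw [hB]; trivial
      have h2 := h1 x hx
      rwa [mul_assoc, inv_mul_cancel₀ hx0, mul_one] at h2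
  have hK' : Fintype.card G < 2 * (univ.filter fun g : G =>
      ((A + A.image (g • ·)).card : ℝ) ≤ K * A.card).card := by
    exact hK
  exact ⟨irreducible p hp.pos htor hirr A hA K hK',
    irreducible_uniform p hp.two_le htor hirr A hA K hK'⟩

end Run7.h933.CAN
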