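import Pool.Agent.Run7.h933.CAN.Win
import Pool.Agent.Run7.h933.CAN.App
set_option autoImplicit false

/-! Applications of canonical pairs. -/

open scoped Classical Pointwise
open Finset Filter

namespace Run7.h933.CAN

theorem canonical_near {Γ : Type*} [AddCommGroup Γ] (m : ℕ) (hm : 2 ≤ m)
    (htor : ∀ x : Γ, m • x = 0)
    {ι : Type*} [Fintype ι] [Nonempty ι] (A : ι → Finset Γ) (hA : ∀ i, (A i).Nonempty) (K : ℝ)
    (hK : ∀ i j, ((A i + A j).card : ℝ) ≤ K * (A i).card) :
    Canonical A (Q K) (Q K) ((m : ℝ) ^ (30000 * Real.log (2 * K))) :=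
  canonical_uniform m hm htor A hA K hK

theorem canonical_torsion {Γ : Type*} [AddCommGroup Γ] (m : ℕ) (hm : 0 < m)
    (htor : ∀ x : Γ, m • x = 0)
    {ι : Type*} [Fintype ι] [Nonempty ι] (A : ι → Finset Γ) (hA : ∀ i, (A i).Nonempty) (K : ℝ)
    (hK : ∀ i j, ((A i + A j).card : ℝ) ≤ K * (A i).card) :
    Canonical A (K ^ (2 * E m)) (K ^ E m) 1 := by
  have hK1 : 1 ≤ K := by
    obtain ⟨i₀⟩ := (inferInstance : Nonempty ι)
    have h0 : (0 : ℝ) < (A i₀).card := by exact_mod_cast (hA i₀).card_pos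
    have h1 : ((A i₀).card : ℝ) ≤ (A i₀ + A i₀).card := by
      exact_mod_cast Finset.card_le_card_add_right (hA i₀)
    have h2 := hK i₀ i₀
    nlinarith
  obtain ⟨N, hN, hinv, hW, hrest⟩ := canonical m hm htor A hA K hK
  refine ⟨N, N, hN, le_rfl, fun φ hφ => ⟨hinv φ hφ, hinv φ hφ⟩, hW, by rw [one_mul], fun i => ?_⟩
  obtain ⟨hNc, T, hT, hcov⟩ := hrest i
  refine ⟨?_, T, hT, hcov⟩
  have hNpos : (0 : ℝ) < Nat.card N := by exact_mod_cast Nat.card_pos
  have hfin : (N : Set Γ).Finite := Set.toFinite _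
  have h1 : ((A i : Set Γ) + (N : Set Γ)) ⊆ (T : Set Γ) + (N : Set Γ) := by
    rintro _ ⟨a, ha, x, hx, rfl⟩
    obtain ⟨t, ht, hat⟩ := hcov a ha
    exact ⟨t, ht, (a - t) + x, N.add_mem hat hx, by simp only; abel⟩
  have h2 : ((A i : Set Γ) + (N : Set Γ)).ncard ≤ T.card * Nat.card N := by
    refine (Set.ncard_le_ncard h1 (Set.Finite.add (Finset.finite_toSet _) hfin)).trans ?_
    have h3 : ((T : Set Γ) + (N : Set Γ)) = ((T + hfin.toFinset : Finset Γ) : Set Γ) := by
      rw [Finset.coe_add, Set.Finite.coe_toFinset]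
    rw [h3, Set.ncard_coe_finset]
    have h4 := Finset.card_add_le (s := T) (t := hfin.toFinset)
    rwa [← Set.ncard_eq_toFinset_card _ hfin] at h4
  calc (((A i : Set Γ) + (N : Set Γ)).ncard : ℝ) ≤ T.card * Nat.card N := by exact_mod_cast h2
    _ ≤ K ^ E m * (K ^ E m * (A i).card) :=
        mul_le_mul hT hNc hNpos.le (by positivity)
    _ = K ^ (2 * E m) * (A i).card := by rw [two_mul, pow_add]; ring

section action

variable {Γ Φ : Type*} [AddCommGroup Γ] [Group Φ] [Fintype Φ] [DistribMulAction Φ Γ]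

theorem fam_doubling (A : Finset Γ) (hA : A.Nonempty) (K : ℝ)
    (hK : Fintype.card Φ <
      2 * (univ.filter fun φ : Φ => ((A + A.image (φ • ·)).card : ℝ) ≤ K * A.card).card)
    (φ ψ : Φ) : ((A.image (φ • ·) + A.image (ψ • ·)).card : ℝ) ≤
      K ^ 2 * (A.image (φ • ·)).card := by
  have hgen := generic A hA K hK
  have himg : ∀ (φ : Φ) (X Y : Finset Γ), (X + Y).image (φ • ·) =
      X.image (φ • ·) + Y.image (φ • ·) := by
    intro φ X Y
    exact Finset.image_add (DistribSMul.toAddMonoidHom Γ φ)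
  have hinj : ∀ φ : Φ, Function.Injective (fun x : Γ => φ • x) := fun φ =>
    MulAction.injective φ
  have e : A.image (ψ • ·) = (A.image ((φ⁻¹ * ψ) • ·)).image (φ • ·) := by
    rw [Finset.image_image]
    congr 1
    ext x
    simp [mul_smul]
  rw [e, ← himg, Finset.card_image_of_injective _ (hinj φ),
    Finset.card_image_of_injective _ (hinj φ)]
  exact hgen _

theorem fam_permutes (A : Finset Γ) (φ : Φ) : Permutes (fun φ : Φ => A.image (φ • ·))
    (DistribMulAction.toAddEquiv Γ φ) := by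
  have hinj : ∀ φ : Φ, Function.Injective (fun x : Γ => φ • x) := fun φ =>
    MulAction.injective φ
  refine ⟨Equiv.mulLeft φ, fun ψ => ⟨0, fun x => ?_⟩⟩
  simp only [add_zero, DistribMulAction.toAddEquiv_apply, Equiv.coe_mulLeft, Finset.mem_image]
  constructor
  · rintro ⟨a, ha, rfl⟩
    exact ⟨a, ha, by rw [mul_smul]⟩
  · rintro ⟨a, ha, hax⟩
    refine ⟨a, ha, ?_⟩
    rw [mul_smul] at hax
    exact hinj φ hax

theorem Canonical.equivariant {A : Finset Γ} {a b δ : ℝ}
    (h : Canonical (fun φ : Φ => A.image (φ • ·)) a b δ) :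
    ∃ H U : AddSubgroup Γ, Finite U ∧ H ≤ U ∧ (∀ (φ : Φ), ∀ x ∈ H, φ • x ∈ H) ∧
      (∀ (φ : Φ), ∀ x ∈ U, φ • x ∈ U) ∧ (Nat.card U : ℝ) ≤ δ * Nat.card H ∧
      (((A : Set Γ) + (H : Set Γ)).ncard : ℝ) ≤ a * A.card ∧
      ∃ T : Finset Γ, (T.card : ℝ) ≤ b ∧ ∀ x ∈ A, ∃ t ∈ T, x - t ∈ U := by
  obtain ⟨H, U, hU, hHU, hinv, -, hcard, hN'⟩ := h
  refine ⟨H, U, hU, hHU, ?_, ?_, hcard, ?_⟩
  · intro φ x hx
    rw [← (hinv _ (fam_permutes A φ)).1]
    exact ⟨x, hx, rfl⟩
  · intro φ x hx
    rw [← (hinv _ (fam_permutes A φ)).2]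
    exact ⟨x, hx, rfl⟩
  · have h2 := hN' 1
    simp only [one_smul, Finset.image_id'] at h2
    exact h2

theorem Canonical.irreducible [Finite Γ]
    (hirr : ∀ N : AddSubgroup Γ, (∀ (φ : Φ), ∀ x ∈ N, φ • x ∈ N) → N = ⊥ ∨ N = ⊤)
    {A : Finset Γ} (hA : A.Nonempty) {a b δ : ℝ}
    (h : Canonical (fun φ : Φ => A.image (φ • ·)) a b δ) :
    (A.card : ℝ) ≤ b ∨ (Nat.card Γ : ℝ) ≤ a * A.card ∨ (Nat.card Γ : ℝ) ≤ δ := by
  obtain ⟨H, U, hU, hHU, hinvH, hinvU, hcard, hper, T, hT, hcov⟩ := h.equivariant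
  rcases hirr U hinvU with h | h
  · left
    have h1 : A ⊆ T := by
      intro a ha
      obtain ⟨t, ht, hat⟩ := hcov a ha
      rw [h, AddSubgroup.mem_bot, sub_eq_zero] at hat
      rwa [hat]
    exact le_trans (by exact_mod_cast Finset.card_le_card h1) hT
  · right
    rcases hirr H hinvH with h' | h'
    · right
      rw [h, h', AddSubgroup.card_top] at hcard
      simpa using hcard
    · left
      have h2 : ((A : Set Γ) + (H : Set Γ)) = Set.univ := by
        obtain ⟨a, ha⟩ := hA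
        rw [h', AddSubgroup.coe_top]
        rw [Set.eq_univ_iff_forall]
        intro x
        exact Set.mem_add.2 ⟨a, ha, x - a, Set.mem_univ _, by abel⟩
      rw [h2, Set.ncard_univ] at hper
      exact hper

/-- the window theorem for the family of the images -/
theorem window_sq (η : ℝ) (hη0 : 0 < η) (hη1 : η ≤ 1) (p₀ m : ℕ) (hp₀ : 2 ≤ p₀)
    (hm : 0 < m) (hpm : ∀ p : ℕ, p.Prime → p ∣ m → p₀ ≤ p) (htor : ∀ x : Γ, m • x = 0)
    (A : Finset Γ) (hA : A.Nonempty) (K : ℝ)
    (hK : Fintype.card Φ <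
      2 * (univ.filter fun φ : Φ => ((A + A.image (φ • ·)).card : ℝ) ≤ K * A.card).card) :
    Canonical (fun φ : Φ => A.image (φ • ·)) ((2 * K) ^ (10 ^ 13 / η)) ((2 * K) ^ (10 ^ 13 / η))
      (Real.exp (10 ^ 13 / η * (Real.log (2 * K) + Real.log (2 * K) ^ (1 + η) / Real.log p₀) *
        Real.log m)) := by
  have hfam := fam_doubling A hA K hK
  have hK1 : 1 ≤ K := by
    have h0 : (univ.filter fun φ : Φ => ((A + A.image (φ • ·)).card : ℝ) ≤ K * A.card).Nonempty := by
      rw [← Finset.card_pos]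
      omega
    obtain ⟨φ, hφ⟩ := h0
    have h1 := (Finset.mem_filter.1 hφ).2
    have h2 : (0 : ℝ) < A.card := by exact_mod_cast hA.card_pos
    have h3 : (A.card : ℝ) ≤ (A + A.image (φ • ·)).card := by
      exact_mod_cast Finset.card_le_card_add_right (hA.image _)
    nlinarith
  have hK0 : 0 < K := by linarith
  have h2K : 1 ≤ 2 * K := by linarith
  have h := canonical_window η hη0 hη1 p₀ m hp₀ hm hpm htor (fun φ : Φ => A.image (φ • ·))
    (fun φ => hA.image _) (K ^ 2) hfam
  have hlm : 0 ≤ Real.log m := Real.log_nonneg (by exact_mod_cast hm)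
  have hLg : 0 ≤ Real.log (2 * K) := Real.log_nonneg h2K
  have hlp : 0 < Real.log p₀ := Real.log_pos (by exact_mod_cast (by omega : 1 < p₀))
  have hLg2 : Real.log (2 * K ^ 2) ≤ 2 * Real.log (2 * K) := by
    have e : 2 * Real.log (2 * K) = Real.log ((2 * K) ^ 2) := by
      rw [Real.log_pow]; push_cast; ring
    rw [e]
    apply Real.log_le_log (by positivity)
    nlinarith
  have hLg2' : 0 ≤ Real.log (2 * K ^ 2) := Real.log_nonneg (by nlinarith)
  have hη' : 0 < 1 / η := by positivity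
  have hpow : (2 * K ^ 2) ^ (2 * (10 : ℝ) ^ 12 / η) ≤ (2 * K) ^ ((10 : ℝ) ^ 13 / η) := by
    rw [Real.rpow_def_of_pos (by positivity), Real.rpow_def_of_pos (by positivity)]
    apply Real.exp_le_exp.2
    have e1 : (2 : ℝ) * 10 ^ 12 / η = 2 * 10 ^ 12 * (1 / η) := by ring
    have e2 : (10 : ℝ) ^ 13 / η = 10 ^ 13 * (1 / η) := by ring
    rw [e1, e2]
    have h5 : Real.log (2 * K ^ 2) * (2 * 10 ^ 12 * (1 / η)) ≤
        (2 * Real.log (2 * K)) * (2 * 10 ^ 12 * (1 / η)) :=
      mul_le_mul_of_nonneg_right hLg2 (by positivity)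
    have h6 : 0 ≤ Real.log (2 * K) * (1 / η) := by positivity
    nlinarith
  refine h.mono hpow hpow ?_
  apply Real.exp_le_exp.2
  apply mul_le_mul_of_nonneg_right _ hlm
  have h7 : Real.log (2 * K ^ 2) ^ (1 + η) ≤ 4 * Real.log (2 * K) ^ (1 + η) := by
    calc Real.log (2 * K ^ 2) ^ (1 + η) ≤ (2 * Real.log (2 * K)) ^ (1 + η) :=
          Real.rpow_le_rpow hLg2' hLg2 (by linarith)
      _ = 2 ^ (1 + η) * Real.log (2 * K) ^ (1 + η) := Real.mul_rpow (by norm_num) hLg
      _ ≤ 4 * Real.log (2 * K) ^ (1 + η) := by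
          apply mul_le_mul_of_nonneg_right _ (by positivity)
          calc (2 : ℝ) ^ (1 + η) ≤ 2 ^ (2 : ℝ) :=
                Real.rpow_le_rpow_of_exponent_le (by norm_num) (by linarith)
            _ = 4 := by norm_num
  have h8 : Real.log (2 * K ^ 2) + Real.log (2 * K ^ 2) ^ (1 + η) / Real.log p₀ ≤
      4 * (Real.log (2 * K) + Real.log (2 * K) ^ (1 + η) / Real.log p₀) := by
    have h9 := div_le_div_of_nonneg_right h7 hlp.le
    have h10 : 4 * Real.log (2 * K) ^ (1 + η) / Real.log p₀ =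
        4 * (Real.log (2 * K) ^ (1 + η) / Real.log p₀) := by ring
    rw [h10] at h9
    linarith
  have h11 : 0 ≤ Real.log (2 * K) + Real.log (2 * K) ^ (1 + η) / Real.log p₀ := by positivity
  calc 4 * 10 ^ 11 / η * (Real.log (2 * K ^ 2) + Real.log (2 * K ^ 2) ^ (1 + η) / Real.log p₀) ≤
      4 * 10 ^ 11 / η * (4 * (Real.log (2 * K) + Real.log (2 * K) ^ (1 + η) / Real.log p₀)) :=
        mul_le_mul_of_nonneg_left h8 (by positivity)
    _ = (16 * 10 ^ 11 / η) * (Real.log (2 * K) + Real.log (2 * K) ^ (1 + η) / Real.log p₀) := by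
        ring
    _ ≤ 10 ^ 13 / η * (Real.log (2 * K) + Real.log (2 * K) ^ (1 + η) / Real.log p₀) := by
        apply mul_le_mul_of_nonneg_right _ h11
        apply div_le_div_of_nonneg_right _ hη0.le
        norm_num

end action

/-- permutations of the coordinates, uniformly in `p` -/
theorem permutations_window {p : ℕ} (hp : p.Prime) {n : ℕ} (A : Finset (Fin n → ZMod p))
    (hA : A.Nonempty) (K η : ℝ) (hη0 : 0 < η) (hη1 : η ≤ 1)
    (hK : Fintype.card (Equiv.Perm (Fin n)) < 2 * (univ.filter fun σ : Equiv.Perm (Fin n) =>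
      ((A + A.image (fun x i => x (σ i))).card : ℝ) ≤ K * A.card).card) :
    (A.card : ℝ) ≤ p * (2 * K) ^ (10 ^ 13 / η) ∨
      (p : ℝ) ^ n ≤ p * ((2 * K) ^ (10 ^ 13 / η) * A.card) ∨
      (n : ℝ) ≤ 10 ^ 13 / η * (Real.log (2 * K) + Real.log (2 * K) ^ (1 + η) / Real.log p) + 2 := by
  have : Fact p.Prime := ⟨hp⟩
  let _ : DistribMulAction (Equiv.Perm (Fin n)) (Fin n → ZMod p) := permAct (ZMod p) n
  have hsm : ∀ (σ : Equiv.Perm (Fin n)) (x : Fin n → ZMod p), σ • x = fun i => x (σ⁻¹ i) :=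
    fun σ x => rfl
  have htor : ∀ x : Fin n → ZMod p, p • x = 0 := by
    intro x
    ext i
    simp
  have hK' : Fintype.card (Equiv.Perm (Fin n)) < 2 * (univ.filter fun σ : Equiv.Perm (Fin n) =>
      ((A + A.image (σ • ·)).card : ℝ) ≤ K * A.card).card := by
    refine lt_of_lt_of_le hK (Nat.mul_le_mul_left _ ?_)
    apply Finset.card_le_card_of_injOn (fun σ => σ⁻¹)
    · intro σ hσ
      have h1 := (Finset.mem_filter.1 hσ).2
      simp only [Finset.coe_filter, Finset.mem_univ, true_and, Set.mem_ofPred_eq]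
      simp only [hsm, inv_inv]
      exact h1
    · intro σ _ τ _ h
      exact inv_injective h
  have hconv : ∀ N : AddSubgroup (Fin n → ZMod p),
      (∀ (σ : Equiv.Perm (Fin n)), ∀ x ∈ N, σ • x ∈ N) →
      ∀ σ : Equiv.Perm (Fin n), ∀ x ∈ N, (fun i => x (σ i)) ∈ N := by
    intro N hN σ x hx
    have := hN σ⁻¹ x hx
    simpa only [hsm, inv_inv] using this
  have hcovle : ∀ (N : AddSubgroup (Fin n → ZMod p)) (T : Finset (Fin n → ZMod p)),
      (∀ a ∈ A, ∃ t ∈ T, a - t ∈ N) → A.card ≤ T.card * Nat.card N := by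
    intro N T hcov
    choose! t ht hta using hcov
    let j : A → T × N := fun a => (⟨t a, ht a a.2⟩, ⟨a - t a, hta a a.2⟩)
    have hj : Function.Injective j := by
      intro a b hab
      have h1 : t a = t b := congrArg (fun q => ((Prod.fst q : T) : Fin n → ZMod p)) hab
      have h2 : (a : Fin n → ZMod p) - t a = b - t b :=
        congrArg (fun q => ((Prod.snd q : N) : Fin n → ZMod p)) hab
      rw [h1] at h2
      exact Subtype.ext (sub_left_injective h2)
    have h1 := Nat.card_le_card_of_injective j hj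
    rwa [Nat.card_prod, Nat.card_eq_fintype_card (α := A), Fintype.card_coe,
      Nat.card_eq_fintype_card (α := T), Fintype.card_coe] at h1
  have hppos : (0 : ℝ) < p := by exact_mod_cast hp.pos
  have hlp : 0 < Real.log p := Real.log_pos (by exact_mod_cast hp.one_lt)
  have hcan := window_sq (Φ := Equiv.Perm (Fin n)) η hη0 hη1 p p hp.two_le hp.pos
    (fun q hq hqp => ((Nat.prime_dvd_prime_iff_eq hq hp).1 hqp).symm.le) htor A hA K
    (halfC_of hK')
  obtain ⟨H, U, hU, hHU, hinvH, hinvU, hcard, hper, T, hT, hcov⟩ := hcan.equivariant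
  rcases perm_invariant U (hconv U hinvU) with h | h
  · left
    have h1 := card_const U h
    have h2 := hcovle U T hcov
    calc (A.card : ℝ) ≤ T.card * Nat.card U := by exact_mod_cast h2
      _ ≤ (2 * K) ^ ((10 : ℝ) ^ 13 / η) * p := by
          apply mul_le_mul hT (by exact_mod_cast h1) (Nat.cast_nonneg _)
          exact le_trans (Nat.cast_nonneg _) hT
      _ = _ := by ring
  · right
    rcases perm_invariant H (hconv H hinvH) with h' | h'
    · right
      have h1 := card_const H h'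
      have h2 := card_sum_zero U h
      set X : ℝ := 10 ^ 13 / η * (Real.log (2 * K) + Real.log (2 * K) ^ (1 + η) / Real.log p)
        with hX
      have h3 : (p : ℝ) ^ n ≤ p * (Real.exp (X * Real.log p) * p) := by
        calc (p : ℝ) ^ n ≤ p * Nat.card U := by exact_mod_cast h2
          _ ≤ p * (Real.exp (X * Real.log p) * Nat.card H) :=
              mul_le_mul_of_nonneg_left hcard hppos.le
          _ ≤ p * (Real.exp (X * Real.log p) * p) := by
              apply mul_le_mul_of_nonneg_left _ hppos.le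
              apply mul_le_mul_of_nonneg_left _ (Real.exp_pos _).le
              exact_mod_cast h1
      have h4 := Real.log_le_log (by positivity) h3
      rw [Real.log_pow, Real.log_mul hppos.ne' (by positivity), Real.log_mul (by positivity)
        hppos.ne', Real.log_exp] at h4
      have h5 : (n : ℝ) * Real.log p ≤ (X + 2) * Real.log p := by linarith
      exact le_of_mul_le_mul_right h5 hlp
    · left
      have h1 := card_sum_zero H h'
      have h2 : (Nat.card H : ℝ) ≤ (2 * K) ^ ((10 : ℝ) ^ 13 / η) * A.card := by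
        refine le_trans ?_ hper
        obtain ⟨a, ha⟩ := hA
        have h3 : ((H : Set (Fin n → ZMod p)).image (fun x => a + x)).ncard = Nat.card H := by
          rw [Set.ncard_image_of_injective _ (add_right_injective a)]
          rfl
        rw [← h3]
        have h4 : ((H : Set (Fin n → ZMod p)).image (fun x => a + x)) ⊆
            (A : Set (Fin n → ZMod p)) + (H : Set (Fin n → ZMod p)) := by
          rintro _ ⟨x, hx, rfl⟩
          exact Set.add_mem_add ha hx
        exact_mod_cast Set.ncard_le_ncard h4 (Set.toFinite _)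
      calc (p : ℝ) ^ n ≤ p * Nat.card H := by exact_mod_cast h1
        _ ≤ p * ((2 * K) ^ ((10 : ℝ) ^ 13 / η) * A.card) := mul_le_mul_of_nonneg_left h2 hppos.le

/-- Finite fields, uniformly in the characteristic. -/
theorem fields_window {F : Type*} [Field F] [Finite F] (p : ℕ) (hp : p.Prime) [CharP F p]
    (G : Subgroup Fˣ) [Fintype G]
    (hG : Subring.closure ((fun u : Fˣ => (u : F)) '' (G : Set Fˣ)) = ⊤)
    (A : Finset F) (hA : A.Nonempty) (K η : ℝ) (hη0 : 0 < η) (hη1 : η ≤ 1)
    (hK : Fintype.card G < 2 * (univ.filter fun g : G =>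
      ((A + A.image (((g : Fˣ) : F) * ·)).card : ℝ) ≤ K * A.card).card) :
    (A.card : ℝ) ≤ (2 * K) ^ (10 ^ 13 / η) ∨ (Nat.card F : ℝ) ≤ (2 * K) ^ (10 ^ 13 / η) * A.card ∨
      Real.log (Nat.card F) ≤ 10 ^ 13 / η *
        (Real.log (2 * K) + Real.log (2 * K) ^ (1 + η) / Real.log p) * Real.log p := by
  have hsm : ∀ (g : G) (x : F), g • x = ((g : Fˣ) : F) * x := fun g x => rfl
  have htor : ∀ x : F, p • x = 0 := fun x => by
    rw [nsmul_eq_mul, CharP.cast_eq_zero, zero_mul]
  have hirr : ∀ N : AddSubgroup F, (∀ (g : G), ∀ x ∈ N, g • x ∈ N) → N = ⊥ ∨ N = ⊤ := by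
    intro N hinv
    let B : Subring F :=
      { carrier := {r : F | ∀ x ∈ N, r * x ∈ N}
        mul_mem' := by
          intro a b ha hb x hx
          rw [mul_assoc]
          exact ha _ (hb _ hx)
        one_mem' := by
          intro x hx
          rwa [one_mul]
        add_mem' := by
          intro a b ha hb x hx
          rw [add_mul]
          exact N.add_mem (ha _ hx) (hb _ hx)
        zero_mem' := by
          intro x _
          rw [zero_mul]
          exact N.zero_mem
        neg_mem' := by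
          intro a ha x hx
          rw [neg_mul]
          exact N.neg_mem (ha _ hx) }
    have hB : B = ⊤ := by
      rw [eq_top_iff, ← hG, Subring.closure_le]
      rintro _ ⟨u, hu, rfl⟩ x hx
      exact hinv ⟨u, hu⟩ x hx
    by_cases h : ∀ x ∈ N, x = 0
    · left
      rw [eq_bot_iff]
      intro x hx
      exact h x hx
    · right
      push Not at h
      obtain ⟨x, hx, hx0⟩ := h
      rw [eq_top_iff]
      intro y _
      have h1 : y * x⁻¹ ∈ B := by rw [hB]; trivial
      have h2 := h1 x hx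
      rwa [mul_assoc, inv_mul_cancel₀ hx0, mul_one] at h2
  have hK' : Fintype.card G < 2 * (univ.filter fun g : G =>
      ((A + A.image (g • ·)).card : ℝ) ≤ K * A.card).card := by
    exact hK
  have hcan := window_sq (Φ := G) η hη0 hη1 p p hp.two_le hp.pos
    (fun q hq hqp => ((Nat.prime_dvd_prime_iff_eq hq hp).1 hqp).symm.le) htor A hA K hK'
  rcases hcan.irreducible hirr hA with h | h | h
  · exact Or.inl h
  · exact Or.inr (Or.inl h)
  · right; right
    have h1 : (0 : ℝ) < Nat.card F := by exact_mod_cast Nat.card_pos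
    have h2 := Real.log_le_log h1 h
    rwa [Real.log_exp] at h2

end Run7.h933.CAN
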