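import Pool.Agent.Run7.h933.CAN.Tor
import Pool.Agent.H137R2.Weak.Final
set_option autoImplicit false

/-! Characteristic 0: the canonical subspace. -/

open scoped Classical Pointwise
open Finset Filter

namespace Run7.h933.CAN

variable {F V : Type*} [Field F] [AddCommGroup V] [Module F V]

/-- the image of a subspace under a semilinear automorphism -/
def smap (σ : F ≃+* F) (φ : V ≃+ V) (h : ∀ (c : F) (v : V), φ (c • v) = σ c • φ v)
    (U : Submodule F V) : Submodule F V where
  carrier := φ '' U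
  add_mem' := by
    rintro _ _ ⟨x, hx, rfl⟩ ⟨y, hy, rfl⟩
    exact ⟨x + y, U.add_mem hx hy, map_add _ _ _⟩
  zero_mem' := ⟨0, U.zero_mem, map_zero _⟩
  smul_mem' := by
    rintro c _ ⟨x, hx, rfl⟩
    exact ⟨σ.symm c • x, U.smul_mem _ hx, by rw [h, σ.apply_symm_apply]⟩

theorem mem_smap (σ : F ≃+* F) (φ : V ≃+ V) (h : ∀ (c : F) (v : V), φ (c • v) = σ c • φ v)
    (U : Submodule F V) (x : V) : x ∈ smap σ φ h U ↔ ∃ y ∈ U, φ y = x := Iff.rfl

theorem smap_rank (σ : F ≃+* F) (φ : V ≃+ V) (h : ∀ (c : F) (v : V), φ (c • v) = σ c • φ v)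
    (U : Submodule F V) : Module.rank F (smap σ φ h U) = Module.rank F U := by
  symm
  let j : U ≃+ smap σ φ h U :=
    { toFun := fun x => ⟨φ x, x, x.2, rfl⟩
      invFun := fun y => ⟨φ.symm y, by
        obtain ⟨x, hx, hxy⟩ := y.2
        rw [← hxy, φ.symm_apply_apply]
        exact hx⟩
      left_inv := fun x => Subtype.ext (φ.symm_apply_apply _)
      right_inv := fun y => Subtype.ext (φ.apply_symm_apply _)
      map_add' := fun x y => Subtype.ext (map_add φ _ _) }
  exact rank_eq_of_equiv_equiv σ j σ.bijective (fun c x => Subtype.ext (h c x))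

theorem smap_finrank (σ : F ≃+* F) (φ : V ≃+ V) (h : ∀ (c : F) (v : V), φ (c • v) = σ c • φ v)
    (U : Submodule F V) : Module.finrank F (smap σ φ h U) = Module.finrank F U := by
  unfold Module.finrank
  rw [smap_rank]

theorem smap_finite (σ : F ≃+* F) (φ : V ≃+ V) (h : ∀ (c : F) (v : V), φ (c • v) = σ c • φ v)
    (U : Submodule F V) (hU : FiniteDimensional F U) : FiniteDimensional F (smap σ φ h U) := by
  have h1 : Module.rank F (smap σ φ h U) < Cardinal.aleph0 := by
    rw [smap_rank]
    exact Module.rank_lt_aleph0_iff.2 hU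
  exact Module.rank_lt_aleph0_iff.1 h1

/-- the least minimizer among the finite dimensional subspaces -/
theorem exists_can0 {ι : Type*} [Fintype ι] [Nonempty ι] (A : ι → Finset V) :
    ∃ U : Submodule F V, FiniteDimensional F U ∧
      (∀ W : Submodule F V, FiniteDimensional F W →
        ∑ i, ent (A i) U.toAddSubgroup + (Fintype.card ι : ℝ) * Module.finrank F U ≤
        ∑ i, ent (A i) W.toAddSubgroup + (Fintype.card ι : ℝ) * Module.finrank F W) ∧
      (∀ (σ : F ≃+* F) (φ : V ≃+ V), (∀ (c : F) (v : V), φ (c • v) = σ c • φ v) → Permutes A φ →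
        ∀ x ∈ U, φ x ∈ U) ∧
      ∀ W : Submodule F V, (∀ i, ∀ a ∈ A i, ∀ b ∈ A i, a - b ∈ W) → U ≤ W := by
  have hn : (0 : ℝ) < (Fintype.card ι : ℝ) := by
    have : 0 < Fintype.card ι := Fintype.card_pos
    exact_mod_cast this
  have hfinf : ∀ x y : Submodule F V, FiniteDimensional F x → FiniteDimensional F (x ⊓ y : Submodule F V) := by
    intro x y hx
    exact Submodule.finiteDimensional_inf_left x y
  obtain ⟨U, hU, h1, h2⟩ := exists_canonical A (fun W : Submodule F V => W.toAddSubgroup)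
    (fun _ _ => rfl) (fun x y => Submodule.sup_toAddSubgroup x y)
    {W : Submodule F V | FiniteDimensional F W} ⟨⊥, by
      show FiniteDimensional F (⊥ : Submodule F V); infer_instance⟩
    (fun x hx y _ => hfinf x y hx)
    (fun x hx y hy => by
      have hx' : FiniteDimensional F x := hx
      have hy' : FiniteDimensional F y := hy
      show FiniteDimensional F (x ⊔ y : Submodule F V)
      infer_instance) (fun W => Module.finrank F W)
    (fun n => (Fintype.card ι : ℝ) * n)
    (tendsto_natCast_atTop_atTop.const_mul_atTop hn)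
    (fun x hx y hy => by
      have hx' : FiniteDimensional F x := hx
      have hy' : FiniteDimensional F y := hy
      have h5 : (Module.finrank F (x ⊔ y : Submodule F V) : ℝ) + Module.finrank F (x ⊓ y : Submodule F V) =
          Module.finrank F x + Module.finrank F y := by
        exact_mod_cast Submodule.finrank_sup_add_finrank_inf_eq x y
      nlinarith)
    (fun x hx y hy hxy hc => by
      have hx' : FiniteDimensional F x := hx
      have hy' : FiniteDimensional F y := hy
      exact Submodule.eq_of_le_of_finrank_le hxy hc)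
  refine ⟨U, hU, fun W hW => h1 W hW, fun σ φ hσ hφ => ?_, fun W hW => ?_⟩
  swap
  · have hU' : FiniteDimensional F U := hU
    have h3 : U ≤ U ⊓ W := by
      apply h2 _ (hfinf U W hU)
      have h4 : ∑ i, ent (A i) (U ⊓ W).toAddSubgroup = ∑ i, ent (A i) U.toAddSubgroup :=
        Finset.sum_congr rfl fun i _ => ent_inf (A i) U.toAddSubgroup W.toAddSubgroup (hW i)
      have h5 : (Module.finrank F (U ⊓ W : Submodule F V) : ℝ) ≤ Module.finrank F U := by
        exact_mod_cast Submodule.finrank_mono (inf_le_left : U ⊓ W ≤ U)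
      have h6 := mul_le_mul_of_nonneg_left h5 hn.le
      linarith
    exact h3.trans inf_le_right
  have hσ' : ∀ (c : F) (v : V), φ.symm (c • v) = σ.symm c • φ.symm v := by
    intro c v
    apply φ.injective
    rw [hσ, φ.apply_symm_apply, φ.apply_symm_apply, σ.apply_symm_apply]
  have hadd : ∀ W : Submodule F V, (smap σ φ hσ W).toAddSubgroup =
      W.toAddSubgroup.map φ.toAddMonoidHom := by
    intro W
    ext x
    rfl
  have h3 := least_invariant (S := {W : Submodule F V | FiniteDimensional F W})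
    (g := fun W => ∑ i, ent (A i) W.toAddSubgroup + (Fintype.card ι : ℝ) * Module.finrank F W)
    (x := U) hU h2 (smap σ φ hσ) (smap σ.symm φ.symm hσ')
    (fun M M' h => by
      rintro _ ⟨x, hx, rfl⟩
      exact ⟨x, h hx, rfl⟩) (fun M hM => smap_finite _ _ _ M hM)
    (fun M hM => smap_finite _ _ _ M hM) (fun M => by
      ext x
      constructor
      · rintro ⟨_, ⟨y, hy, rfl⟩, rfl⟩
        simpa using hy
      · intro hx
        exact ⟨φ.symm x, ⟨x, hx, rfl⟩, by simp⟩)
    (fun W _ => by
      rw [hadd, sum_ent_map A φ hφ, smap_finrank])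
  intro x hx
  rw [← h3]
  exact ⟨x, hx, rfl⟩

/-- **Theorem D.** Characteristic 0: the canonical subspace of a family. -/
theorem canonical0 [CharZero F] {ι : Type*} [Fintype ι] [Nonempty ι] (A : ι → Finset V)
    (hA : ∀ i, (A i).Nonempty) (K : ℝ)
    (hK : ∀ i j, ((A i + A j).card : ℝ) ≤ K * (A i).card) :
    ∃ U : Submodule F V, FiniteDimensional F U ∧
      (∀ (σ : F ≃+* F) (φ : V ≃+ V), (∀ (c : F) (v : V), φ (c • v) = σ c • φ v) → Permutes A φ →
        ∀ x ∈ U, φ x ∈ U) ∧
      (∀ W : Submodule F V, (∀ i, ∀ a ∈ A i, ∀ b ∈ A i, a - b ∈ W) → U ≤ W) ∧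
      ∀ i, ∃ T : Finset V, Real.exp (Module.finrank F U) * T.card ≤ 3 * K ^ 667 ∧
        ∀ a ∈ A i, ∃ t ∈ T, a - t ∈ U := by
  obtain ⟨i₀⟩ := (inferInstance : Nonempty ι)
  have : Nonempty ι := ⟨i₀⟩
  have hApos : ∀ i, (0 : ℝ) < (A i).card := fun i => by exact_mod_cast (hA i).card_pos
  have hK1 : 1 ≤ K := by
    have h1 : ((A i₀).card : ℝ) ≤ (A i₀ + A i₀).card := by
      exact_mod_cast Finset.card_le_card_add_right (hA i₀)
    have h2 := hK i₀ i₀
    have h3 := hApos i₀
    nlinarith
  have hK0 : 0 < K := by linarith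
  have hlK : 0 ≤ Real.log K := Real.log_nonneg hK1
  -- the torsion
  have htor : ∀ (m : ℕ) (o : V), m ≠ 0 → m • o = 0 → o = 0 := by
    intro m o hm hmo
    have h1 : (m : F) • o = 0 := by rw [Nat.cast_smul_eq_nsmul]; exact hmo
    rcases smul_eq_zero.1 h1 with h2 | h2
    · exact absurd h2 (by exact_mod_cast hm)
    · exact h2
  obtain ⟨P, S, T₀, hP, hPc, -, hS, hT₀A, hT₀, hcov⟩ :=
    H137.Weak.weak_marton (hA i₀) (hK i₀ i₀)
  have hPbot : ∀ x ∈ P, x = 0 := by
    intro x hx
    have h1 : Nat.card P • (⟨x, hx⟩ : P) = 0 := card_nsmul_eq_zero'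
    have h2 := congrArg Subtype.val h1
    rw [AddSubgroup.coe_nsmul, AddSubgroup.coe_zero] at h2
    exact htor _ x Nat.card_pos.ne' h2
  set U₀ : Submodule F V := Submodule.span F (S : Set V) with hU₀
  have hU₀fin : FiniteDimensional F U₀ := FiniteDimensional.span_finset F S
  have hU₀dim : (Module.finrank F U₀ : ℝ) ≤ 480 * Real.log K + 1 := by
    have h1 : Module.finrank F U₀ ≤ S.card := finrank_span_finset_le_card S
    exact le_trans (by exact_mod_cast h1) hS
  have hcov' : ∀ a ∈ A i₀, ∃ t ∈ T₀, a - t ∈ U₀.toAddSubgroup := by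
    intro a ha
    obtain ⟨t, ht, o, ⟨m, hm, hmo⟩, hmem⟩ := hcov a ha
    refine ⟨t, ht, ?_⟩
    have ho : o = 0 := htor m o (by rintro rfl; simp at hm) hmo
    rw [ho, sub_zero] at hmem
    have hle : P ⊔ AddSubgroup.closure (S : Set V) ≤ U₀.toAddSubgroup := by
      apply sup_le
      · intro x hx
        rw [hPbot x hx]
        exact AddSubgroup.zero_mem _
      · rw [AddSubgroup.closure_le]
        intro x hx
        exact Submodule.subset_span hx
    exact hle hmem
  have hent0 : ∀ i, ent (A i) U₀.toAddSubgroup ≤ 186 * Real.log K := by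
    intro i
    have hT₀pos : (0 : ℝ) < T₀.card := by
      obtain ⟨x, hx⟩ := hA i₀
      obtain ⟨t, ht, -⟩ := hcov' x hx
      exact_mod_cast Finset.card_pos.2 ⟨t, ht⟩
    have h1 := ent_le_log (hA i₀) U₀.toAddSubgroup T₀ hcov'
    have h1' : ent (A i₀) U₀.toAddSubgroup ≤ Real.log (K ^ 185) :=
      h1.trans (Real.log_le_log hT₀pos hT₀)
    obtain ⟨a, ha, hpop⟩ := exists_popular (hA i₀) U₀.toAddSubgroup
    set A' := (A i₀).filter (fun b => b - a ∈ U₀.toAddSubgroup) with hA'
    have hA'c : cnt (A i₀) U₀.toAddSubgroup a = A'.card := rfl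
    have hA'ne : A'.Nonempty := ⟨a, by simp [hA', ha]⟩
    have hexp : Real.exp (ent (A i₀) U₀.toAddSubgroup) ≤ K ^ 185 := by
      calc Real.exp (ent (A i₀) U₀.toAddSubgroup) ≤ Real.exp (Real.log (K ^ 185)) :=
            Real.exp_le_exp.2 h1'
        _ = K ^ 185 := Real.exp_log (by positivity)
    have hA'1 : ((A i₀).card : ℝ) ≤ K ^ 185 * A'.card := by
      rw [hA'c] at hpop
      exact hpop.trans (mul_le_mul_of_nonneg_right hexp (Nat.cast_nonneg _))
    have hsum : ((A i + A').card : ℝ) ≤ (K ^ 186) * A'.card := by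
      have h2 : ((A i + A').card : ℝ) ≤ (A i₀ + A i).card := by
        rw [add_comm (A i₀) (A i)]
        exact_mod_cast Finset.card_le_card (Finset.add_subset_add_left (Finset.filter_subset _ _))
      calc ((A i + A').card : ℝ) ≤ K * (A i₀).card := h2.trans (hK i₀ i)
        _ ≤ K * (K ^ 185 * A'.card) := mul_le_mul_of_nonneg_left hA'1 hK0.le
        _ = _ := by ring
    obtain ⟨F', -, hF, hAF⟩ := Finset.ruzsa_covering_add hA'ne hsum
    have hcovF : ∀ x ∈ A i, ∃ t ∈ F', x - t ∈ U₀.toAddSubgroup := by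
      intro x hx
      obtain ⟨f, hf, d, hd, hfd⟩ := Finset.mem_add.1 (hAF hx)
      obtain ⟨y, hy, z, hz, hyz⟩ := Finset.mem_sub.1 hd
      refine ⟨f, hf, ?_⟩
      have e : x - f = (y - a) - (z - a) := by rw [← hfd, ← hyz]; abel
      rw [e]
      exact U₀.toAddSubgroup.sub_mem (Finset.mem_filter.1 hy).2 (Finset.mem_filter.1 hz).2
    have h3 := ent_le_log (hA i) U₀.toAddSubgroup F' hcovF
    have hFpos : (0 : ℝ) < F'.card := by
      obtain ⟨x, hx⟩ := hA i
      obtain ⟨t, ht, -⟩ := hcovF x hx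
      exact_mod_cast Finset.card_pos.2 ⟨t, ht⟩
    refine h3.trans ((Real.log_le_log hFpos hF).trans ?_)
    rw [Real.log_pow]
    push_cast
    exact le_rfl
  obtain ⟨U, hU, hmin, hinv, hW⟩ := exists_can0 (F := F) A
  set n : ℝ := (Fintype.card ι : ℝ) with hn
  have hnpos : 0 < n := by
    have : 0 < Fintype.card ι := Fintype.card_pos
    rw [hn]
    exact_mod_cast this
  have hconst : ∀ c : ℝ, ∑ _i : ι, c = n * c := by
    intro c
    rw [Finset.sum_const, Finset.card_univ, nsmul_eq_mul]
  have hS0 : ∑ i, ent (A i) U₀.toAddSubgroup ≤ n * (186 * Real.log K) := by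
    rw [← hconst]
    exact Finset.sum_le_sum fun i _ => hent0 i
  have hmin0 := hmin U₀ hU₀fin
  have hU₀dim' := mul_le_mul_of_nonneg_left hU₀dim hnpos.le
  obtain ⟨i₁, -, hi₁⟩ : ∃ i ∈ (Finset.univ : Finset ι), ent (A i) U.toAddSubgroup ≤
      666 * Real.log K + 1 - Module.finrank F U := by
    apply Finset.exists_le_of_sum_le Finset.univ_nonempty
    rw [hconst]
    nlinarith
  refine ⟨U, hU, hinv, hW, fun i => ?_⟩
  obtain ⟨a, ha, hpop⟩ := exists_popular (hA i₁) U.toAddSubgroup
  set A' := (A i₁).filter (fun b => b - a ∈ U.toAddSubgroup) with hA'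
  have hA'c : cnt (A i₁) U.toAddSubgroup a = A'.card := rfl
  have hA'ne : A'.Nonempty := ⟨a, by simp [hA', ha]⟩
  set R : ℝ := Real.exp (1 - Module.finrank F U) * K ^ 666 with hR
  have hexp : Real.exp (ent (A i₁) U.toAddSubgroup) ≤ R := by
    have e : R = Real.exp (666 * Real.log K + 1 - Module.finrank F U) := by
      rw [hR]
      have h1 : (666 : ℝ) * Real.log K + 1 - Module.finrank F U =
        (1 - Module.finrank F U) + Real.log (K ^ 666) := by
        rw [Real.log_pow]; push_cast; ring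
      rw [h1, Real.exp_add, Real.exp_log (by positivity)]
    rw [e]
    exact Real.exp_le_exp.2 hi₁
  have hA'1 : ((A i₁).card : ℝ) ≤ R * A'.card := by
    rw [hA'c] at hpop
    exact hpop.trans (mul_le_mul_of_nonneg_right hexp (Nat.cast_nonneg _))
  have hsum : ((A i + A').card : ℝ) ≤ (K * R) * A'.card := by
    have h2 : ((A i + A').card : ℝ) ≤ (A i₁ + A i).card := by
      rw [add_comm (A i₁) (A i)]
      exact_mod_cast Finset.card_le_card (Finset.add_subset_add_left (Finset.filter_subset _ _))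
    calc ((A i + A').card : ℝ) ≤ K * (A i₁).card := h2.trans (hK i₁ i)
      _ ≤ K * (R * A'.card) := mul_le_mul_of_nonneg_left hA'1 hK0.le
      _ = _ := by ring
  obtain ⟨F', -, hF, hAF⟩ := Finset.ruzsa_covering_add hA'ne hsum
  refine ⟨F', ?_, ?_⟩
  · have h3 : Real.exp (Module.finrank F U) * (K * R) = Real.exp 1 * K ^ 667 := by
      rw [hR, Real.exp_sub]
      field_simp
    calc Real.exp (Module.finrank F U) * F'.card ≤ Real.exp (Module.finrank F U) * (K * R) :=
          mul_le_mul_of_nonneg_left hF (Real.exp_pos _).le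
      _ = Real.exp 1 * K ^ 667 := h3
      _ ≤ 3 * K ^ 667 := by
          apply mul_le_mul_of_nonneg_right _ (by positivity)
          have := Real.exp_one_lt_d9
          linarith
  · intro x hx
    obtain ⟨f, hf, d, hd, hfd⟩ := Finset.mem_add.1 (hAF hx)
    obtain ⟨y, hy, z, hz, hyz⟩ := Finset.mem_sub.1 hd
    refine ⟨f, hf, ?_⟩
    have e : x - f = (y - a) - (z - a) := by rw [← hfd, ← hyz]; abel
    rw [e]
    exact U.sub_mem (Finset.mem_filter.1 hy).2 (Finset.mem_filter.1 hz).2

end Run7.h933.CAN
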