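import Pool.Agent.Run7.h933.CAN.Char0
set_option autoImplicit false

/-! Consequences: modules, linear actions in characteristic 0, approximately equivariant maps. -/

open scoped Classical Pointwise
open Finset Filter

namespace Run7.h933.CAN

/-- **Theorem E.** Modules over a ring generated by a finite group of units. -/
theorem modules {R M : Type*} [Ring R] [AddCommGroup M] [Module R M]
    (m : ℕ) (hm : 0 < m) (htor : ∀ x : M, m • x = 0) (G : Subgroup Rˣ) [Fintype G]
    (hG : Subring.closure ((fun u : Rˣ => (u : R)) '' (G : Set Rˣ)) = ⊤)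
    (A : Finset M) (hA : A.Nonempty) (K : ℝ)
    (hK : Fintype.card G < 2 * (univ.filter fun g : G =>
      ((A + A.image (((g : Rˣ) : R) • ·)).card : ℝ) ≤ K * A.card).card) :
    ∃ N : Submodule R M, Finite N ∧ (Nat.card N : ℝ) ≤ K ^ (2 * E m) * A.card ∧
      ∃ T : Finset M, (T.card : ℝ) ≤ K ^ (2 * E m) ∧ ∀ a ∈ A, ∃ t ∈ T, a - t ∈ N := by
  have hsm : ∀ (g : G) (x : M), g • x = ((g : Rˣ) : R) • x := fun g x => rfl
  obtain ⟨N, hN, hinv, hNc, T, hT, hcov⟩ := equivariant (Φ := G) m hm htor A hA K (by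
    exact hK)
  let B : Subring R :=
    { carrier := {r : R | ∀ x ∈ N, r • x ∈ N}
      mul_mem' := by
        intro a b ha hb x hx
        rw [mul_smul]
        exact ha _ (hb _ hx)
      one_mem' := by
        intro x hx
        rwa [one_smul]
      add_mem' := by
        intro a b ha hb x hx
        rw [add_smul]
        exact N.add_mem (ha _ hx) (hb _ hx)
      zero_mem' := by
        intro x _
        rw [zero_smul]
        exact N.zero_mem
      neg_mem' := by
        intro a ha x hx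
        rw [neg_smul]
        exact N.neg_mem (ha _ hx) }
  have hB : B = ⊤ := by
    rw [eq_top_iff, ← hG, Subring.closure_le]
    rintro _ ⟨u, hu, rfl⟩ x hx
    exact hinv ⟨u, hu⟩ x hx
  have hall : ∀ (r : R), ∀ x ∈ N, r • x ∈ N := by
    intro r
    have : r ∈ B := by rw [hB]; trivial
    exact this
  exact ⟨{ N with smul_mem' := fun r x hx => hall r x hx }, hN, hNc, T, hT, hcov⟩

/-- **Theorem F.** Linear actions of finite groups in characteristic 0. -/
theorem equivariant0 {F V Φ : Type*} [Field F] [CharZero F] [AddCommGroup V] [Module F V]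
    [Group Φ] [Fintype Φ] [DistribMulAction Φ V] [SMulCommClass Φ F V]
    (A : Finset V) (hA : A.Nonempty) (K : ℝ)
    (hK : Fintype.card Φ <
      2 * (univ.filter fun φ : Φ => ((A + A.image (φ • ·)).card : ℝ) ≤ K * A.card).card) :
    ∃ U : Submodule F V, FiniteDimensional F U ∧ (∀ (φ : Φ), ∀ x ∈ U, φ • x ∈ U) ∧
        ∃ T : Finset V, Real.exp (Module.finrank F U) * T.card ≤ 3 * K ^ 1334 ∧
          ∀ a ∈ A, ∃ t ∈ T, a - t ∈ U := by
  have hgen := generic A hA K hK
  have himg : ∀ (φ : Φ) (X Y : Finset V), (X + Y).image (φ • ·) =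
      X.image (φ • ·) + Y.image (φ • ·) := by
    intro φ X Y
    exact Finset.image_add (DistribSMul.toAddMonoidHom V φ)
  have hinj : ∀ φ : Φ, Function.Injective (fun x : V => φ • x) := fun φ =>
    MulAction.injective φ
  obtain ⟨N, hN, hinv, -, hN'⟩ := canonical0 (F := F) (fun φ : Φ => A.image (φ • ·))
    (fun φ => hA.image _) (K ^ 2) (fun φ ψ => by
      have e : A.image (ψ • ·) = (A.image ((φ⁻¹ * ψ) • ·)).image (φ • ·) := by
        rw [Finset.image_image]
        congr 1
        ext x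
        simp [mul_smul]
      rw [e, ← himg, Finset.card_image_of_injective _ (hinj φ),
        Finset.card_image_of_injective _ (hinj φ)]
      exact hgen _)
  refine ⟨N, hN, ?_, ?_⟩
  · intro φ
    exact hinv (RingEquiv.refl F) (DistribMulAction.toAddEquiv V φ)
      (fun c v => by
        simp only [DistribMulAction.toAddEquiv_apply, RingEquiv.refl_apply]
        exact smul_comm φ c v) ⟨Equiv.mulLeft φ, fun ψ => ⟨0, fun x => by
      simp only [add_zero, DistribMulAction.toAddEquiv_apply, Equiv.coe_mulLeft, Finset.mem_image]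
      constructor
      · rintro ⟨a, ha, rfl⟩
        exact ⟨a, ha, by rw [mul_smul]⟩
      · rintro ⟨a, ha, hax⟩
        refine ⟨a, ha, ?_⟩
        rw [mul_smul] at hax
        exact hinj φ hax⟩⟩
  · obtain ⟨T, hT, hcov⟩ := hN' 1
    refine ⟨T, ?_, ?_⟩
    · rw [← pow_mul] at hT
      exact hT
    · intro a ha
      exact hcov a (by simpa using ha)

/-- irreducible linear actions in characteristic 0 -/
theorem irreducible0 {F V Φ : Type*} [Field F] [CharZero F] [AddCommGroup V] [Module F V]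
    [Group Φ] [Fintype Φ] [DistribMulAction Φ V] [SMulCommClass Φ F V]
    (hirr : ∀ U : Submodule F V, (∀ (φ : Φ), ∀ x ∈ U, φ • x ∈ U) → U = ⊥ ∨ U = ⊤)
    (A : Finset V) (hA : A.Nonempty) (K : ℝ)
    (hK : Fintype.card Φ <
      2 * (univ.filter fun φ : Φ => ((A + A.image (φ • ·)).card : ℝ) ≤ K * A.card).card) :
    (A.card : ℝ) ≤ 3 * K ^ 1334 ∨ Real.exp (Module.finrank F V) ≤ 3 * K ^ 1334 := by
  obtain ⟨U, hU, hinv, T, hT, hcov⟩ := equivariant0 (F := F) A hA K hK
  have hTpos : (1 : ℝ) ≤ T.card := by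
    obtain ⟨a, ha⟩ := hA
    obtain ⟨t, ht, -⟩ := hcov a ha
    exact_mod_cast Finset.card_pos.2 ⟨t, ht⟩
  rcases hirr U hinv with h | h
  · left
    have h1 : A ⊆ T := by
      intro a ha
      obtain ⟨t, ht, hat⟩ := hcov a ha
      rw [h, Submodule.mem_bot, sub_eq_zero] at hat
      rwa [hat]
    have h2 : (A.card : ℝ) ≤ T.card := by exact_mod_cast Finset.card_le_card h1
    have h3 : (T.card : ℝ) ≤ Real.exp (Module.finrank F U) * T.card := by
      have : 1 ≤ Real.exp (Module.finrank F U) := Real.one_le_exp (Nat.cast_nonneg _)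
      nlinarith
    linarith
  · right
    rw [h, finrank_top] at hT
    have h4 : Real.exp (Module.finrank F V) ≤ Real.exp (Module.finrank F V) * T.card := by
      have := Real.exp_pos (Module.finrank F V)
      nlinarith
    linarith

/-- **Theorem G.** Approximately equivariant maps. -/
theorem maps {p : ℕ} (hp : p.Prime) {V W Φ : Type*} [AddCommGroup V] [AddCommGroup W] [Finite V]
    [Module (ZMod p) V] [Module (ZMod p) W] [Group Φ] [Fintype Φ] [DistribMulAction Φ V]
    [DistribMulAction Φ W] (hΦ : p.Coprime (Fintype.card Φ)) (f : V → W) (S : Finset W)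
    (hadd : ∀ x y, f (x + y) - f x - f y ∈ S)
    (hequ : Fintype.card Φ <
      2 * (univ.filter fun φ : Φ => ∀ x, f (φ • x) - φ • f x ∈ S).card) :
    ∃ g : V →+ W, (∀ (φ : Φ) (x : V), g (φ • x) = φ • g x) ∧
      ∃ D : Finset W, D.card ≤ S.card ^ (12 * E p) ∧ ∀ x, f x - g x ∈ D := by
  have : Fact p.Prime := ⟨hp⟩
  have hfV : Fintype V := Fintype.ofFinite V
  have hcardV : (0 : ℝ) < Nat.card V := by exact_mod_cast Nat.card_pos
  have hS : S.Nonempty := ⟨_, hadd 0 0⟩
  have hSpos : (1 : ℝ) ≤ S.card := by exact_mod_cast hS.card_pos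
  set A : Finset (V × W) := (univ : Finset V).image (fun x => (x, f x)) with hA
  have hAinj : Function.Injective (fun x : V => (x, f x)) := fun x y h => congrArg Prod.fst h
  have hAc : A.card = Nat.card V := by
    rw [hA, Finset.card_image_of_injective _ hAinj, Finset.card_univ, Nat.card_eq_fintype_card]
  have hAne : A.Nonempty := by
    rw [← Finset.card_pos, hAc]
    exact Nat.card_pos
  have htor : ∀ x : V × W, p • x = 0 := by
    rintro ⟨x, y⟩
    have h1 : (p : ZMod p) = 0 := ZMod.natCast_self p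
    have h2 : p • x = 0 := by rw [← Nat.cast_smul_eq_nsmul (ZMod p), h1, zero_smul]
    have h3 : p • y = 0 := by rw [← Nat.cast_smul_eq_nsmul (ZMod p), h1, zero_smul]
    rw [Prod.smul_mk, h2, h3]
    rfl
  have hdoub : ∀ φ : Φ, (∀ x, f (φ • x) - φ • f x ∈ S) →
      ((A + A.image (φ • ·)).card : ℝ) ≤ (S.card : ℝ) ^ 2 * A.card := by
    intro φ hφ
    have h1 : A + A.image (φ • ·) ⊆
        ((univ : Finset V) ×ˢ (S ×ˢ S)).image (fun q => (q.1, f q.1 - q.2.1 - q.2.2)) := by
      intro z hz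
      obtain ⟨a, ha, b, hb, rfl⟩ := Finset.mem_add.1 hz
      obtain ⟨x, -, rfl⟩ := Finset.mem_image.1 ha
      obtain ⟨c, hc, rfl⟩ := Finset.mem_image.1 hb
      obtain ⟨y, -, rfl⟩ := Finset.mem_image.1 hc
      refine Finset.mem_image.2 ⟨(x + φ • y, (f (x + φ • y) - f x - f (φ • y),
        f (φ • y) - φ • f y)), ?_, ?_⟩
      · simp only [Finset.mem_product, Finset.mem_univ, true_and]
        exact ⟨hadd _ _, hφ _⟩
      · simp only [Prod.smul_mk, Prod.mk_add_mk]
        congr 1
        abel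
    have h2 := (Finset.card_le_card h1).trans Finset.card_image_le
    rw [Finset.card_product, Finset.card_product, Finset.card_univ, ← Nat.card_eq_fintype_card,
      ← hAc] at h2
    calc ((A + A.image (φ • ·)).card : ℝ) ≤ (A.card * (S.card * S.card) : ℕ) := by exact_mod_cast h2
      _ = _ := by push_cast; ring
  obtain ⟨N, hN, hinv, hNc, T, hT, hcov⟩ := equivariant (Φ := Φ) p hp.pos htor A hAne
    ((S.card : ℝ) ^ 2) (by
      refine lt_of_lt_of_le hequ (Nat.mul_le_mul_left _ (Finset.card_le_card ?_))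
      intro φ hφ
      refine Finset.mem_filter.2 ⟨Finset.mem_univ _, ?_⟩
      have hφ2 : ∀ x, f (φ • x) - φ • f x ∈ S := by simpa using hφ
      exact cardLE_of (hdoub φ hφ2))
  -- linear algebra
  let NL : Submodule (ZMod p) (V × W) := AddSubgroup.toZModSubmodule p N
  have hNL : ∀ x, x ∈ NL ↔ x ∈ N := fun x => Iff.rfl
  let V₁ : Submodule (ZMod p) V := NL.map (LinearMap.fst (ZMod p) V W)
  -- a linear map `L : V → V × W` with values in `N` and first component a projection to `V₁`
  obtain ⟨L, hLN, hL1⟩ : ∃ L : V →ₗ[ZMod p] V × W, (∀ x, L x ∈ N) ∧ ∀ x ∈ V₁, (L x).1 = x := by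
    let q : NL →ₗ[ZMod p] V₁ :=
      ((LinearMap.fst (ZMod p) V W).comp NL.subtype).codRestrict V₁ (fun x => ⟨x, x.2, rfl⟩)
    have hq : Function.Surjective q := by
      rintro ⟨x, hx⟩
      obtain ⟨y, hy, rfl⟩ := hx
      exact ⟨⟨y, hy⟩, rfl⟩
    obtain ⟨s, hs⟩ := LinearMap.exists_rightInverse_of_surjective q (LinearMap.range_eq_top.2 hq)
    obtain ⟨P, hP⟩ := LinearMap.exists_leftInverse_of_injective V₁.subtype (by
      rw [Submodule.ker_subtype])
    refine ⟨NL.subtype.comp (s.comp P), fun x => (s (P x)).2, fun x hx => ?_⟩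
    have h1 : P x = ⟨x, hx⟩ := LinearMap.congr_fun hP ⟨x, hx⟩
    have h2 : q (s (P x)) = P x := LinearMap.congr_fun hs (P x)
    have h3 := congrArg Subtype.val h2
    rw [h1] at h3
    rw [← h1] at h3
    exact h3.trans (by rw [h1])
  -- averaging
  obtain ⟨e, he⟩ : ∃ e : ℕ, ∀ x : V × W, e • (Fintype.card Φ • x) = x := by
    have h1 : IsUnit ((Fintype.card Φ : ℕ) : ZMod p) := by
      rw [ZMod.isUnit_iff_coprime]
      exact hΦ.symm
    obtain ⟨u, hu⟩ := h1
    refine ⟨((u⁻¹ : (ZMod p)ˣ) : ZMod p).val, fun x => ?_⟩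
    rw [← Nat.cast_smul_eq_nsmul (ZMod p), ← Nat.cast_smul_eq_nsmul (ZMod p) (Fintype.card Φ),
      ZMod.natCast_zmod_val, smul_smul, ← hu, Units.inv_mul, one_smul]
  let M : V →+ V × W :=
    { toFun := fun x => e • ∑ φ : Φ, φ • L (φ⁻¹ • x)
      map_zero' := by simp
      map_add' := by
        intro x y
        rw [← smul_add, ← Finset.sum_add_distrib]
        congr 1
        exact Finset.sum_congr rfl fun φ _ => by rw [smul_add, map_add, smul_add] }
  have hM : ∀ x, M x = e • ∑ φ : Φ, φ • L (φ⁻¹ • x) := fun x => rfl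
  have hMN : ∀ x, M x ∈ N := by
    intro x
    rw [hM]
    apply N.nsmul_mem
    exact N.sum_mem fun φ _ => hinv φ _ (hLN _)
  have hMeq : ∀ (ψ : Φ) (x : V), M (ψ • x) = ψ • M x := by
    intro ψ x
    rw [hM, hM, smul_comm ψ e]
    congr 1
    rw [Finset.smul_sum]
    refine Fintype.sum_equiv (Equiv.mulLeft ψ⁻¹) _ _ fun φ => ?_
    simp only [Equiv.coe_mulLeft]
    rw [smul_smul ψ (ψ⁻¹ * φ), mul_inv_cancel_left, mul_inv_rev, inv_inv, mul_smul φ⁻¹ ψ x]
  have hV₁ : ∀ x, x ∈ V₁ ↔ ∃ y, (x, y) ∈ N := by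
    intro x
    constructor
    · rintro ⟨⟨a, b⟩, hab, rfl⟩
      exact ⟨b, hab⟩
    · rintro ⟨y, hy⟩
      exact ⟨(x, y), hy, rfl⟩
  have hM1 : ∀ x ∈ V₁, (M x).1 = x := by
    intro x hx
    have h1 : ∀ φ : Φ, (φ • L (φ⁻¹ • x)).1 = x := by
      intro φ
      rw [Prod.smul_fst, hL1, smul_inv_smul]
      rw [hV₁] at hx ⊢
      obtain ⟨y, hy⟩ := hx
      exact ⟨φ⁻¹ • y, hinv φ⁻¹ _ hy⟩
    have h2 : (M x).1 = e • (Fintype.card Φ • x) := by
      rw [hM, Prod.smul_fst, Prod.fst_sum, Finset.sum_congr rfl fun φ _ => h1 φ,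
        Finset.sum_const, Finset.card_univ]
    rw [h2]
    have h3 := he (x, 0)
    have h4 := congrArg Prod.fst h3
    simpa using h4
  -- the size of `N ∩ W`
  set W₀ : Finset W := (Set.toFinite (N : Set (V × W))).toFinset.filter (fun z => z.1 = 0) |>.image
    Prod.snd with hW₀
  have hW₀mem : ∀ w, w ∈ W₀ ↔ ((0 : V), w) ∈ N := by
    intro w
    rw [hW₀, Finset.mem_image]
    constructor
    · rintro ⟨⟨a, b⟩, hab, rfl⟩
      rw [Finset.mem_filter, Set.Finite.mem_toFinset] at hab
      obtain ⟨h1, h2⟩ := hab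
      simp only at h2
      subst h2
      exact h1
    · intro hw
      exact ⟨((0 : V), w), by rw [Finset.mem_filter, Set.Finite.mem_toFinset]; exact ⟨hw, rfl⟩, rfl⟩
  -- `|V₁| |W₀| = |N|`
  have hV₁fin : Fintype V₁ := Fintype.ofFinite _
  have hprod : Nat.card V₁ * W₀.card ≤ Nat.card N := by
    have h1 : ∀ q : V₁ × W₀, ((q.1 : V), (M q.1).2 + q.2) ∈ N := by
      rintro ⟨⟨x, hx⟩, ⟨w, hw⟩⟩
      have h2 := N.add_mem (hMN x) ((hW₀mem w).1 hw)
      have h3 : M x + ((0 : V), w) = (x, (M x).2 + w) := by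
        ext
        · simp [hM1 x hx]
        · simp
      rw [h3] at h2
      exact h2
    let j : V₁ × W₀ → N := fun q => ⟨((q.1 : V), (M q.1).2 + q.2), h1 q⟩
    have hj : Function.Injective j := by
      rintro ⟨⟨x, hx⟩, ⟨w, hw⟩⟩ ⟨⟨x', hx'⟩, ⟨w', hw'⟩⟩ h
      have h2 := congrArg Subtype.val h
      have h3 : x = x' := congrArg Prod.fst h2
      subst h3
      have h4 : (M x).2 + w = (M x).2 + w' := congrArg Prod.snd h2
      have h5 := add_left_cancel h4
      subst h5
      rfl
    have h2 := Nat.card_le_card_of_injective j hj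
    rwa [Nat.card_prod, Nat.card_eq_fintype_card (α := W₀), Fintype.card_coe] at h2
  have hcover : Nat.card V ≤ T.card * Nat.card V₁ := by
    have h1 : ∀ x : V, ∃ t ∈ T, x - t.1 ∈ V₁ := by
      intro x
      obtain ⟨t, ht, hxt⟩ := hcov (x, f x) (Finset.mem_image_of_mem _ (Finset.mem_univ x))
      exact ⟨t, ht, (hV₁ _).2 ⟨_, hxt⟩⟩
    choose τ hτ hτ' using h1
    let j : V → T × V₁ := fun x => (⟨τ x, hτ x⟩, ⟨x - (τ x).1, hτ' x⟩)
    have hj : Function.Injective j := by
      intro x y h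
      have h2 : τ x = τ y := congrArg (fun q => ((q.1 : T) : V × W)) h
      have h3 : x - (τ x).1 = y - (τ y).1 := congrArg (fun q => ((q.2 : V₁) : V)) h
      rw [h2] at h3
      exact sub_left_injective h3
    have h2 := Nat.card_le_card_of_injective j hj
    rwa [Nat.card_prod, Nat.card_eq_fintype_card (α := T), Fintype.card_coe] at h2
  set X : ℝ := ((S.card : ℝ) ^ 2) ^ (2 * E p) with hX
  have hXpos : 1 ≤ X := one_le_pow₀ (one_le_pow₀ hSpos)
  have hW₀c : (W₀.card : ℝ) ≤ X * X := by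
    have hV₁pos : (0 : ℝ) < Nat.card V₁ := by exact_mod_cast Nat.card_pos
    have h1 : (Nat.card V₁ : ℝ) * W₀.card ≤ Nat.card N := by exact_mod_cast hprod
    have h2 : (Nat.card V : ℝ) ≤ T.card * Nat.card V₁ := by exact_mod_cast hcover
    rw [hAc] at hNc
    have h3 : (Nat.card V₁ : ℝ) * W₀.card ≤ Nat.card V₁ * (X * X) := by
      calc (Nat.card V₁ : ℝ) * W₀.card ≤ X * Nat.card V := h1.trans hNc
        _ ≤ X * (T.card * Nat.card V₁) := mul_le_mul_of_nonneg_left h2 (by linarith)
        _ ≤ X * (X * Nat.card V₁) := by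
            apply mul_le_mul_of_nonneg_left _ (by linarith)
            exact mul_le_mul_of_nonneg_right hT hV₁pos.le
        _ = _ := by ring
    exact le_of_mul_le_mul_left h3 hV₁pos
  let g : V →+ W := (AddMonoidHom.snd V W).comp M
  have hg : ∀ x, g x = (M x).2 := fun x => rfl
  refine ⟨g, ?_, (T ×ˢ W₀).image (fun q => q.1.2 - g q.1.1 + q.2), ?_, ?_⟩
  · intro φ x
    rw [hg, hg, hMeq, Prod.smul_snd]
  · have h1 : ((T ×ˢ W₀).image (fun q => q.1.2 - g q.1.1 + q.2)).card ≤ T.card * W₀.card :=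
      Finset.card_image_le.trans (Finset.card_product _ _).le
    have h2 : ((T.card * W₀.card : ℕ) : ℝ) ≤ ((S.card ^ (12 * E p) : ℕ) : ℝ) := by
      push_cast
      calc (T.card : ℝ) * W₀.card ≤ X * (X * X) := mul_le_mul hT hW₀c (Nat.cast_nonneg _) (by linarith)
        _ = (S.card : ℝ) ^ (12 * E p) := by
            have hexp : 2 * (2 * E p) + (2 * (2 * E p) + 2 * (2 * E p)) = 12 * E p := by ring
            rw [hX, ← pow_mul, ← pow_add, ← pow_add, hexp]
    exact h1.trans (by exact_mod_cast h2)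
  · intro x
    obtain ⟨t, ht, hxt⟩ := hcov (x, f x) (Finset.mem_image_of_mem _ (Finset.mem_univ x))
    have h1 : x - t.1 ∈ V₁ := (hV₁ _).2 ⟨_, hxt⟩
    have h2 := N.sub_mem hxt (hMN (x - t.1))
    have h3 : (x, f x) - t - M (x - t.1) = (0, f x - g x - t.2 + g t.1) := by
      have h4 : M (x - t.1) = (x - t.1, g x - g t.1) := by
        ext
        · exact hM1 _ h1
        · rw [← hg, map_sub]
      rw [h4]
      ext
      · simp
      · simp
        abel
    rw [h3] at h2
    refine Finset.mem_image.2 ⟨(t, f x - g x - t.2 + g t.1), ?_, ?_⟩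
    · rw [Finset.mem_product]
      exact ⟨ht, (hW₀mem _).2 h2⟩
    · simp only
      abel

end Run7.h933.CAN
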