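import Pool.Agent.Run7.h933.CAN.Uni2
import Pool.Agent.Run7.h933.CAN.Cor
set_option autoImplicit false

/-! Equivariant form, uniformly in the exponent; irreducible actions; permutations of coordinates. -/

open scoped Classical Pointwise
open Finset Filter

namespace Run7.h933.CAN

/-- the near-polynomial bound -/
noncomputable def Q (K : ℝ) : ℝ := (2 * K) ^ (30000 * (1 + Real.log (1 + Real.log (2 * K))))

theorem equivariant_uniform {Γ Φ : Type*} [AddCommGroup Γ] [Group Φ] [Fintype Φ]
    [DistribMulAction Φ Γ] (m : ℕ) (hm : 2 ≤ m) (htor : ∀ x : Γ, m • x = 0)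
    (A : Finset Γ) (hA : A.Nonempty) (K : ℝ)
    (hK : Fintype.card Φ <
      2 * (univ.filter fun φ : Φ => ((A + A.image (φ • ·)).card : ℝ) ≤ K * A.card).card) :
    ∃ H U : AddSubgroup Γ, Finite U ∧ H ≤ U ∧ (∀ (φ : Φ), ∀ x ∈ H, φ • x ∈ H) ∧
      (∀ (φ : Φ), ∀ x ∈ U, φ • x ∈ U) ∧
      (Nat.card U : ℝ) ≤ (m : ℝ) ^ (30000 * Real.log (2 * K ^ 2)) * Nat.card H ∧
      (((A : Set Γ) + (H : Set Γ)).ncard : ℝ) ≤ Q (K ^ 2) * A.card ∧
      ∃ T : Finset Γ, (T.card : ℝ) ≤ Q (K ^ 2) ∧ ∀ a ∈ A, ∃ t ∈ T, a - t ∈ U := by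
  have hgen := generic A hA K hK
  have himg : ∀ (φ : Φ) (X Y : Finset Γ), (X + Y).image (φ • ·) =
      X.image (φ • ·) + Y.image (φ • ·) := by
    intro φ X Y
    exact Finset.image_add (DistribSMul.toAddMonoidHom Γ φ)
  have hinj : ∀ φ : Φ, Function.Injective (fun x : Γ => φ • x) := fun φ =>
    MulAction.injective φ
  obtain ⟨H, U, hU, hHU, hinv, -, hcard, hN'⟩ := canonical_uniform m hm htor
    (fun φ : Φ => A.image (φ • ·)) (fun φ => hA.image _) (K ^ 2) (fun φ ψ => by
      have e : A.image (ψ • ·) = (A.image ((φ⁻¹ * ψ) • ·)).image (φ • ·) := by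
        rw [Finset.image_image]
        congr 1
        ext x
        simp [mul_smul]
      rw [e, ← himg, Finset.card_image_of_injective _ (hinj φ),
        Finset.card_image_of_injective _ (hinj φ)]
      exact hgen _)
  have hperm : ∀ φ : Φ, Permutes (fun φ : Φ => A.image (φ • ·))
      (DistribMulAction.toAddEquiv Γ φ) := by
    intro φ
    refine ⟨Equiv.mulLeft φ, fun ψ => ⟨0, fun x => ?_⟩⟩
    simp only [add_zero, DistribMulAction.toAddEquiv_apply, Equiv.coe_mulLeft, Finset.mem_image]
    constructor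
    · rintro ⟨a, ha, rfl⟩
      exact ⟨a, ha, by rw [mul_smul]⟩
    · rintro ⟨a, ha, hax⟩
      refine ⟨a, ha, ?_⟩
      rw [mul_smul] at hax
      exact hinj φ hax
  refine ⟨H, U, hU, hHU, ?_, ?_, hcard, ?_⟩
  · intro φ x hx
    rw [← (hinv _ (hperm φ)).1]
    exact ⟨x, hx, rfl⟩
  · intro φ x hx
    rw [← (hinv _ (hperm φ)).2]
    exact ⟨x, hx, rfl⟩
  · have h2 := hN' 1
    simp only [one_smul, Finset.image_id'] at h2
    exact h2

theorem irreducible_uniform {V Φ : Type*} [AddCommGroup V] [Finite V] [Group Φ] [Fintype Φ]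
    [DistribMulAction Φ V] (m : ℕ) (hm : 2 ≤ m) (htor : ∀ x : V, m • x = 0)
    (hirr : ∀ N : AddSubgroup V, (∀ (φ : Φ), ∀ x ∈ N, φ • x ∈ N) → N = ⊥ ∨ N = ⊤)
    (A : Finset V) (hA : A.Nonempty) (K : ℝ)
    (hK : Fintype.card Φ <
      2 * (univ.filter fun φ : Φ => ((A + A.image (φ • ·)).card : ℝ) ≤ K * A.card).card) :
    (A.card : ℝ) ≤ Q (K ^ 2) ∨ (Nat.card V : ℝ) ≤ Q (K ^ 2) * A.card ∨
      (Nat.card V : ℝ) ≤ (m : ℝ) ^ (30000 * Real.log (2 * K ^ 2)) := by
  obtain ⟨H, U, hU, hHU, hinvH, hinvU, hcard, hper, T, hT, hcov⟩ :=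
    equivariant_uniform m hm htor A hA K hK
  rcases hirr U hinvU with h | h
  · left
    have h1 : A ⊆ T := by
      intro a ha
      obtain ⟨t, ht, hat⟩ := hcov a ha
      rw [h, AddSubgroup.mem_bot, sub_eq_zero] at hat
      rwa [hat]
    exact le_trans (by exact_mod_cast Finset.card_le_card h1) hT
  · right
    rcases hirr H hinvH with h' | h'
    · right
      rw [h, h', AddSubgroup.card_top] at hcard
      simpa using hcard
    · left
      have h2 : ((A : Set V) + (H : Set V)) = Set.univ := by
        obtain ⟨a, ha⟩ := hA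
        rw [h', AddSubgroup.coe_top]
        rw [Set.eq_univ_iff_forall]
        intro x
        exact Set.mem_add.2 ⟨a, ha, x - a, Set.mem_univ _, by abel⟩
      rw [h2, Set.ncard_univ] at hper
      exact hper

/-! ### permutations of the coordinates -/

/-- a subgroup of `F_p ^ n` invariant under permutations consists of constant vectors or contains all
vectors with sum 0 -/
theorem perm_invariant' {F : Type*} [Field F] {n : ℕ} (N : AddSubgroup (Fin n → F))
    (hsmul : ∀ (c : F), ∀ y ∈ N, c • y ∈ N)
    (hN : ∀ σ : Equiv.Perm (Fin n), ∀ x ∈ N, (fun i => x (σ i)) ∈ N) :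
    (∀ x ∈ N, ∀ i j, x i = x j) ∨
      ∀ (x : Fin n → F) (i : Fin n), x - Pi.single i (∑ j, x j) ∈ N := by
  by_cases h : ∀ x ∈ N, ∀ i j, x i = x j
  · exact Or.inl h
  right
  push Not at h
  obtain ⟨x, hx, i, j, hij⟩ := h
  have hne : i ≠ j := fun h => hij (by rw [h])
  -- `e_i - e_j ∈ N`
  have h1 : (Pi.single i 1 - Pi.single j 1 : Fin n → F) ∈ N := by
    have h2 := N.sub_mem hx (hN (Equiv.swap i j) x hx)
    have h3 := hsmul (x i - x j)⁻¹ _ h2
    have h4 : (x i - x j) ≠ 0 := sub_ne_zero.2 hij
    have h5 : (x i - x j)⁻¹ • (x - fun k => x (Equiv.swap i j k)) =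
        (Pi.single i 1 - Pi.single j 1 : Fin n → F) := by
      ext k
      simp only [Pi.smul_apply, Pi.sub_apply, smul_eq_mul]
      by_cases hki : k = i
      · subst hki
        rw [Equiv.swap_apply_left, Pi.single_eq_same, Pi.single_eq_of_ne hne, sub_zero,
          inv_mul_cancel₀ h4]
      · by_cases hkj : k = j
        · subst hkj
          rw [Equiv.swap_apply_right, Pi.single_eq_same, Pi.single_eq_of_ne hki, zero_sub]
          field_simp
          ring
        · rw [Equiv.swap_apply_of_ne_of_ne hki hkj, Pi.single_eq_of_ne hki,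
            Pi.single_eq_of_ne hkj]
          simp
    rwa [h5] at h3
  have h2 : ∀ k l : Fin n, (Pi.single k 1 - Pi.single l 1 : Fin n → F) ∈ N := by
    intro k l
    by_cases hkl : k = l
    · subst hkl
      rw [sub_self]
      exact N.zero_mem
    obtain ⟨σ, hσ1, hσ2⟩ : ∃ σ : Equiv.Perm (Fin n), σ k = i ∧ σ l = j := by
      refine ⟨(Equiv.swap k i).trans (Equiv.swap (Equiv.swap k i l) j), ?_, ?_⟩
      · rw [Equiv.trans_apply, Equiv.swap_apply_left]
        apply Equiv.swap_apply_of_ne_of_ne
        · intro h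
          apply hkl
          have h3 : Equiv.swap k i k = Equiv.swap k i l := by rw [Equiv.swap_apply_left]; exact h
          exact (Equiv.swap k i).injective h3
        · exact hne
      · rw [Equiv.trans_apply, Equiv.swap_apply_left]
    have h3 := hN σ _ h1
    have h4 : (fun t => (Pi.single i 1 - Pi.single j 1 : Fin n → F) (σ t)) =
        (Pi.single k 1 - Pi.single l 1 : Fin n → F) := by
      ext t
      simp only [Pi.sub_apply]
      congr 1
      · by_cases ht : t = k
        · subst ht; rw [hσ1, Pi.single_eq_same, Pi.single_eq_same]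
        · rw [Pi.single_eq_of_ne ht, Pi.single_eq_of_ne]
          rw [← hσ1]
          exact fun h => ht (σ.injective h)
      · by_cases ht : t = l
        · subst ht; rw [hσ2, Pi.single_eq_same, Pi.single_eq_same]
        · rw [Pi.single_eq_of_ne ht, Pi.single_eq_of_ne]
          rw [← hσ2]
          exact fun h => ht (σ.injective h)
    rwa [h4] at h3
  intro y k
  have h3 : y - Pi.single k (∑ j, y j) =
      ∑ j, y j • (Pi.single j 1 - Pi.single k 1 : Fin n → F) := by
    have h4 : y = ∑ j, y j • (Pi.single j 1 : Fin n → F) := by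
      ext t
      rw [Finset.sum_apply, Finset.sum_eq_single t]
      · simp
      · intro b _ hb
        rw [Pi.smul_apply, Pi.single_eq_of_ne (Ne.symm hb), smul_zero]
      · intro ht; exact absurd (Finset.mem_univ _) ht
    simp only [smul_sub]
    rw [Finset.sum_sub_distrib, ← h4]
    congr 1
    ext t
    rw [Finset.sum_apply]
    by_cases ht : t = k
    · subst ht; simp
    · rw [Pi.single_eq_of_ne ht]
      symm
      apply Finset.sum_eq_zero
      intro b _
      rw [Pi.smul_apply, Pi.single_eq_of_ne ht, smul_zero]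
  rw [h3]
  exact N.sum_mem fun j _ => hsmul _ _ (h2 j k)

theorem perm_invariant {p : ℕ} [Fact p.Prime] {n : ℕ} (N : AddSubgroup (Fin n → ZMod p))
    (hN : ∀ σ : Equiv.Perm (Fin n), ∀ x ∈ N, (fun i => x (σ i)) ∈ N) :
    (∀ x ∈ N, ∀ i j, x i = x j) ∨
      ∀ (x : Fin n → ZMod p) (i : Fin n), x - Pi.single i (∑ j, x j) ∈ N := by
  apply perm_invariant' N _ hN
  intro c y hy
  have : c • y = c.val • y := by
    rw [← Nat.cast_smul_eq_nsmul (ZMod p), ZMod.natCast_zmod_val]
  rw [this]
  exact N.nsmul_mem hy _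

theorem card_const {p : ℕ} [Fact p.Prime] {n : ℕ} (N : AddSubgroup (Fin n → ZMod p))
    (h : ∀ x ∈ N, ∀ i j, x i = x j) : Nat.card N ≤ p := by
  rcases n with _ | n
  · have : Subsingleton N := by
      constructor
      intro a b
      apply Subtype.ext
      ext i
      exact i.elim0
    have h1 : Nat.card N ≤ 1 := Finite.card_le_one_iff_subsingleton.2 this
    exact h1.trans (Fact.out : p.Prime).one_lt.le
  · have hinj : Function.Injective (fun x : N => (x : Fin (n+1) → ZMod p) 0) := by
      intro x y hxy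
      apply Subtype.ext
      ext i
      have h1 := h x x.2 i 0
      have h2 := h y y.2 i 0
      rw [h1, h2]
      exact hxy
    have h1 := Nat.card_le_card_of_injective _ hinj
    rwa [Nat.card_zmod] at h1

theorem card_sum_zero {p : ℕ} [Fact p.Prime] {n : ℕ} (N : AddSubgroup (Fin n → ZMod p))
    (h : ∀ (x : Fin n → ZMod p) (i : Fin n), x - Pi.single i (∑ j, x j) ∈ N) :
    p ^ n ≤ p * Nat.card N := by
  have hp : 0 < p := (Fact.out : p.Prime).pos
  rcases n with _ | n
  · have : 0 < Nat.card N := Nat.card_pos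
    rw [pow_zero]
    exact Nat.mul_pos hp this
  · let j : (Fin (n+1) → ZMod p) → ZMod p × N := fun x =>
      (∑ j, x j, ⟨x - Pi.single 0 (∑ j, x j), h x 0⟩)
    have hj : Function.Injective j := by
      intro x y hxy
      have h1 : ∑ j, x j = ∑ j, y j := congrArg Prod.fst hxy
      have h2 : x - Pi.single 0 (∑ j, x j) = y - Pi.single 0 (∑ j, y j) :=
        congrArg (fun q => ((Prod.snd q : N) : Fin (n+1) → ZMod p)) hxy
      rw [h1] at h2
      exact sub_left_injective h2
    have h1 := Nat.card_le_card_of_injective j hj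
    rw [Nat.card_prod, Nat.card_zmod] at h1
    simpa [Nat.card_eq_fintype_card, ZMod.card] using h1

/-- the action of the permutations on the vectors -/
@[reducible] def permAct (R : Type*) [AddCommGroup R] (n : ℕ) :
    DistribMulAction (Equiv.Perm (Fin n)) (Fin n → R) where
  smul σ x := fun i => x (σ⁻¹ i)
  one_smul _ := rfl
  mul_smul _ _ _ := rfl
  smul_zero _ := rfl
  smul_add _ _ _ := rfl

/-- **Theorem I.** Random permutations of the coordinates. -/
theorem permutations {p : ℕ} (hp : p.Prime) {n : ℕ} (A : Finset (Fin n → ZMod p))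
    (hA : A.Nonempty) (K : ℝ)
    (hK : Fintype.card (Equiv.Perm (Fin n)) < 2 * (univ.filter fun σ : Equiv.Perm (Fin n) =>
      ((A + A.image (fun x i => x (σ i))).card : ℝ) ≤ K * A.card).card) :
    ((A.card : ℝ) ≤ p * K ^ (2 * E p) ∨ (p : ℝ) ^ n ≤ p * (K ^ (2 * E p) * A.card)) ∧
    ((A.card : ℝ) ≤ p * Q (K ^ 2) ∨ (p : ℝ) ^ n ≤ p * (Q (K ^ 2) * A.card) ∨
      (n : ℝ) ≤ 30000 * Real.log (2 * K ^ 2) + 2) := by
  have : Fact p.Prime := ⟨hp⟩
  let _ : DistribMulAction (Equiv.Perm (Fin n)) (Fin n → ZMod p) := permAct (ZMod p) n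
  have hsm : ∀ (σ : Equiv.Perm (Fin n)) (x : Fin n → ZMod p), σ • x = fun i => x (σ⁻¹ i) :=
    fun σ x => rfl
  have htor : ∀ x : Fin n → ZMod p, p • x = 0 := by
    intro x
    ext i
    simp
  have hK' : Fintype.card (Equiv.Perm (Fin n)) < 2 * (univ.filter fun σ : Equiv.Perm (Fin n) =>
      ((A + A.image (σ • ·)).card : ℝ) ≤ K * A.card).card := by
    refine lt_of_lt_of_le hK (Nat.mul_le_mul_left _ ?_)
    apply Finset.card_le_card_of_injOn (fun σ => σ⁻¹)
    · intro σ hσ
      have h1 := (Finset.mem_filter.1 hσ).2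
      simp only [Finset.coe_filter, Finset.mem_univ, true_and, Set.mem_ofPred_eq]
      simp only [hsm, inv_inv]
      exact h1
    · intro σ _ τ _ h
      exact inv_injective h
  have hconv : ∀ N : AddSubgroup (Fin n → ZMod p),
      (∀ (σ : Equiv.Perm (Fin n)), ∀ x ∈ N, σ • x ∈ N) →
      ∀ σ : Equiv.Perm (Fin n), ∀ x ∈ N, (fun i => x (σ i)) ∈ N := by
    intro N hN σ x hx
    have := hN σ⁻¹ x hx
    simpa only [hsm, inv_inv] using this
  have hcovle : ∀ (N : AddSubgroup (Fin n → ZMod p)) (T : Finset (Fin n → ZMod p)),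
      (∀ a ∈ A, ∃ t ∈ T, a - t ∈ N) → A.card ≤ T.card * Nat.card N := by
    intro N T hcov
    choose! t ht hta using hcov
    let j : A → T × N := fun a => (⟨t a, ht a a.2⟩, ⟨a - t a, hta a a.2⟩)
    have hj : Function.Injective j := by
      intro a b hab
      have h1 : t a = t b := congrArg (fun q => ((Prod.fst q : T) : Fin n → ZMod p)) hab
      have h2 : (a : Fin n → ZMod p) - t a = b - t b :=
        congrArg (fun q => ((Prod.snd q : N) : Fin n → ZMod p)) hab
      rw [h1] at h2
      exact Subtype.ext (sub_left_injective h2)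
    have h1 := Nat.card_le_card_of_injective j hj
    rwa [Nat.card_prod, Nat.card_eq_fintype_card (α := A), Fintype.card_coe,
      Nat.card_eq_fintype_card (α := T), Fintype.card_coe] at h1
  have hppos : (0 : ℝ) < p := by exact_mod_cast hp.pos
  constructor
  · obtain ⟨N, hN, hinv, hNc, T, hT, hcov⟩ := equivariant (Φ := Equiv.Perm (Fin n)) p hp.pos htor A hA K
      (halfC_of hK')
    rcases perm_invariant N (hconv N hinv) with h | h
    · left
      have h1 := card_const N h
      have h2 := hcovle N T hcov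
      calc (A.card : ℝ) ≤ T.card * Nat.card N := by exact_mod_cast h2
        _ ≤ K ^ (2 * E p) * p := by
            apply mul_le_mul hT (by exact_mod_cast h1) (Nat.cast_nonneg _)
            exact le_trans (Nat.cast_nonneg _) hT
        _ = _ := by ring
    · right
      have h1 := card_sum_zero N h
      calc (p : ℝ) ^ n ≤ p * Nat.card N := by exact_mod_cast h1
        _ ≤ p * (K ^ (2 * E p) * A.card) := mul_le_mul_of_nonneg_left hNc hppos.le
  · obtain ⟨H, U, hU, hHU, hinvH, hinvU, hcard, hper, T, hT, hcov⟩ :=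
      equivariant_uniform (Φ := Equiv.Perm (Fin n)) p hp.two_le htor A hA K (halfC_of hK')
    rcases perm_invariant U (hconv U hinvU) with h | h
    · left
      have h1 := card_const U h
      have h2 := hcovle U T hcov
      calc (A.card : ℝ) ≤ T.card * Nat.card U := by exact_mod_cast h2
        _ ≤ Q (K ^ 2) * p := by
            apply mul_le_mul hT (by exact_mod_cast h1) (Nat.cast_nonneg _)
            exact le_trans (Nat.cast_nonneg _) hT
        _ = _ := by ring
    · right
      rcases perm_invariant H (hconv H hinvH) with h' | h'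
      · right
        have h1 := card_const H h'
        have h2 := card_sum_zero U h
        have h3 : (p : ℝ) ^ n ≤ (p : ℝ) ^ (30000 * Real.log (2 * K ^ 2) + 2) := by
          calc (p : ℝ) ^ n ≤ p * Nat.card U := by exact_mod_cast h2
            _ ≤ p * ((p : ℝ) ^ (30000 * Real.log (2 * K ^ 2)) * Nat.card H) :=
                mul_le_mul_of_nonneg_left hcard hppos.le
            _ ≤ p * ((p : ℝ) ^ (30000 * Real.log (2 * K ^ 2)) * p) := by
                apply mul_le_mul_of_nonneg_left _ hppos.le
                apply mul_le_mul_of_nonneg_left _ (by positivity)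
                exact_mod_cast h1
            _ = (p : ℝ) ^ (30000 * Real.log (2 * K ^ 2) + 2) := by
                rw [Real.rpow_add hppos]
                norm_num
                ring
        have h4 := Real.log_le_log (by positivity) h3
        rw [Real.log_pow, Real.log_rpow hppos] at h4
        exact le_of_mul_le_mul_right h4 (Real.log_pos (by exact_mod_cast hp.one_lt))
      · left
        have h1 := card_sum_zero H h'
        have h2 : (Nat.card H : ℝ) ≤ Q (K ^ 2) * A.card := by
          refine le_trans ?_ hper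
          obtain ⟨a, ha⟩ := hA
          have h3 : ((H : Set (Fin n → ZMod p)).image (fun x => a + x)).ncard = Nat.card H := by
            rw [Set.ncard_image_of_injective _ (add_right_injective a)]
            rfl
          rw [← h3]
          have h4 : ((H : Set (Fin n → ZMod p)).image (fun x => a + x)) ⊆
              (A : Set (Fin n → ZMod p)) + (H : Set (Fin n → ZMod p)) := by
            rintro _ ⟨x, hx, rfl⟩
            exact Set.add_mem_add ha hx
          exact_mod_cast Set.ncard_le_ncard h4 (Set.toFinite _)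
        calc (p : ℝ) ^ n ≤ p * Nat.card H := by exact_mod_cast h1
          _ ≤ p * (Q (K ^ 2) * A.card) := mul_le_mul_of_nonneg_left h2 hppos.le

end Run7.h933.CAN
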