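import Pool.Agent.Run7.h933.CAN.Min
set_option autoImplicit false

/-! Canonical finite subgroups: families of sets in an arbitrary abelian group. -/

open scoped Classical Pointwise
open Finset Filter

namespace Run7.h933.CAN

variable {Γ : Type*} [AddCommGroup Γ]

theorem card_inf_mul_card_sup (M N : AddSubgroup Γ) :
    Nat.card (M ⊓ N : AddSubgroup Γ) * Nat.card (M ⊔ N : AddSubgroup Γ) =
      Nat.card M * Nat.card N := by
  have h1 : Nat.card (M ⊔ N : AddSubgroup Γ) = Nat.card N * N.relIndex M := by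
    rw [← AddSubgroup.relIndex_bot_left, ← AddSubgroup.relIndex_bot_left,
      ← AddSubgroup.relIndex_sup_right M N]
    exact (AddSubgroup.relIndex_mul_relIndex ⊥ N (M ⊔ N) bot_le le_sup_right).symm
  have h2 : Nat.card M = Nat.card (M ⊓ N : AddSubgroup Γ) * N.relIndex M := by
    rw [← AddSubgroup.relIndex_bot_left, ← AddSubgroup.relIndex_bot_left,
      ← AddSubgroup.inf_relIndex_right N M, inf_comm N M]
    exact (AddSubgroup.relIndex_mul_relIndex ⊥ (M ⊓ N) M bot_le inf_le_left).symm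
  rw [h1, h2]
  ring

theorem finite_sup {M N : AddSubgroup Γ} (hM : Finite M) (hN : Finite N) :
    Finite (M ⊔ N : AddSubgroup Γ) := by
  have h1 : ((M ⊔ N : AddSubgroup Γ) : Set Γ) = (M : Set Γ) + (N : Set Γ) := by
    rw [AddSubgroup.add_normal]
  have h2 : ((M : Set Γ) + (N : Set Γ)).Finite := Set.Finite.add (Set.toFinite _) (Set.toFinite _)
  rw [← h1] at h2
  exact h2.to_subtype

theorem finite_map {M : AddSubgroup Γ} (hM : Finite M) (φ : Γ ≃+ Γ) :
    Finite (M.map φ.toAddMonoidHom) := by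
  have : ((M.map φ.toAddMonoidHom : AddSubgroup Γ) : Set Γ).Finite := by
    rw [AddSubgroup.coe_map]
    exact (Set.toFinite _).image _
  exact this.to_subtype

theorem card_map (M : AddSubgroup Γ) (φ : Γ ≃+ Γ) :
    Nat.card (M.map φ.toAddMonoidHom) = Nat.card M :=
  Nat.card_congr (M.equivMapOfInjective φ.toAddMonoidHom φ.injective).symm.toEquiv

theorem map_map_symm (M : AddSubgroup Γ) (φ : Γ ≃+ Γ) :
    (M.map φ.symm.toAddMonoidHom).map φ.toAddMonoidHom = M := by
  rw [AddSubgroup.map_map]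
  have : φ.toAddMonoidHom.comp φ.symm.toAddMonoidHom = AddMonoidHom.id Γ := by
    ext x; simp
  rw [this, AddSubgroup.map_id]

/-- the least minimizer among the finite subgroups -/
theorem exists_can {ι : Type*} [Fintype ι] [Nonempty ι] (A : ι → Finset Γ) :
    ∃ N : AddSubgroup Γ, Finite N ∧
      (∀ M : AddSubgroup Γ, Finite M →
        ∑ i, ent (A i) N + (Fintype.card ι : ℝ) / 2 * Real.log (Nat.card N) ≤
        ∑ i, ent (A i) M + (Fintype.card ι : ℝ) / 2 * Real.log (Nat.card M)) ∧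
      (∀ φ : Γ ≃+ Γ, Permutes A φ → N.map φ.toAddMonoidHom = N) ∧
      ∀ W : AddSubgroup Γ, (∀ i, ∀ a ∈ A i, ∀ b ∈ A i, a - b ∈ W) → N ≤ W := by
  have hn : (0 : ℝ) < (Fintype.card ι : ℝ) / 2 := by
    have : 0 < Fintype.card ι := Fintype.card_pos
    positivity
  obtain ⟨N, hN, h1, h2⟩ := exists_canonical A (fun M : AddSubgroup Γ => M) (fun _ _ => rfl)
    (fun _ _ => rfl) {M : AddSubgroup Γ | Finite M} ⟨⊥, by
      show Finite (⊥ : AddSubgroup Γ); infer_instance⟩
    (fun x hx y _ => by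
      have : Finite x := hx
      exact Finite.Set.subset (x : Set Γ) (inf_le_left : x ⊓ y ≤ x))
    (fun x hx y hy => finite_sup hx hy) (fun M => Nat.card M)
    (fun n => (Fintype.card ι : ℝ) / 2 * Real.log n)
    ((Real.tendsto_log_atTop.comp tendsto_natCast_atTop_atTop).const_mul_atTop hn)
    (fun x hx y hy => by
      have hx' : Finite x := hx
      have hy' : Finite y := hy
      have h3 : Finite (x ⊓ y : AddSubgroup Γ) :=
        Finite.Set.subset (x : Set Γ) (inf_le_left : x ⊓ y ≤ x)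
      have h4 : Finite (x ⊔ y : AddSubgroup Γ) := finite_sup hx hy
      have hp1 : (0 : ℝ) < Nat.card x := by exact_mod_cast Nat.card_pos
      have hp2 : (0 : ℝ) < Nat.card y := by exact_mod_cast Nat.card_pos
      have hp3 : (0 : ℝ) < Nat.card (x ⊓ y : AddSubgroup Γ) := by exact_mod_cast Nat.card_pos
      have hp4 : (0 : ℝ) < Nat.card (x ⊔ y : AddSubgroup Γ) := by exact_mod_cast Nat.card_pos
      have h5 : (Nat.card (x ⊓ y : AddSubgroup Γ) : ℝ) * Nat.card (x ⊔ y : AddSubgroup Γ) =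
          Nat.card x * Nat.card y := by exact_mod_cast card_inf_mul_card_sup x y
      have h6 := congrArg Real.log h5
      rw [Real.log_mul hp3.ne' hp4.ne', Real.log_mul hp1.ne' hp2.ne'] at h6
      nlinarith)
    (fun x hx y hy hxy hc => by
      have hx' : Finite x := hx
      have hy' : Finite y := hy
      exact AddSubgroup.eq_of_le_of_card_ge hxy hc)
  refine ⟨N, hN, fun M hM => h1 M hM, fun φ hφ => ?_, fun W hW => ?_⟩
  swap
  · have hN' : Finite N := hN
    have hf : Finite (N ⊓ W : AddSubgroup Γ) :=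
      Finite.Set.subset (N : Set Γ) (inf_le_left : N ⊓ W ≤ N)
    have h3 : N ≤ N ⊓ W := by
      apply h2 _ hf
      have h4 : ∑ i, ent (A i) (N ⊓ W) = ∑ i, ent (A i) N :=
        Finset.sum_congr rfl fun i _ => ent_inf _ _ _ (hW i)
      have h5 : Real.log (Nat.card (N ⊓ W : AddSubgroup Γ)) ≤ Real.log (Nat.card N) := by
        apply Real.log_le_log (by exact_mod_cast Nat.card_pos)
        exact_mod_cast Nat.card_mono (Set.toFinite _) (inf_le_left : N ⊓ W ≤ N)
      have h6 := mul_le_mul_of_nonneg_left h5 hn.le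
      linarith
    exact h3.trans inf_le_right
  have h3 := least_invariant (S := {M : AddSubgroup Γ | Finite M})
    (g := fun M => ∑ i, ent (A i) M + (Fintype.card ι : ℝ) / 2 * Real.log (Nat.card M))
    (x := N) hN h2 (fun M => M.map φ.toAddMonoidHom) (fun M => M.map φ.symm.toAddMonoidHom)
    (fun M M' h => AddSubgroup.map_mono h) (fun M hM => finite_map hM φ)
    (fun M hM => finite_map hM φ.symm) (fun M => map_map_symm M φ)
    (fun M _ => by
      rw [sum_ent_map A φ hφ, card_map])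
  exact h3

/-- **Theorem 0.** A finite subgroup commensurable with the sets of a family can be replaced by a
canonical one. -/
theorem canon {ι : Type*} [Fintype ι] (A : ι → Finset Γ) (hA : ∀ i, (A i).Nonempty) (K L : ℝ)
    (hK : ∀ i j, ((A i + A j).card : ℝ) ≤ K * (A i).card)
    (i₀ : ι) (N₀ : AddSubgroup Γ) (hN₀ : Finite N₀) (hN₀c : (Nat.card N₀ : ℝ) ≤ L * (A i₀).card)
    (T₀ : Finset Γ) (hT₀ : (T₀.card : ℝ) ≤ L) (hcov : ∀ a ∈ A i₀, ∃ t ∈ T₀, a - t ∈ N₀) :
    ∃ N : AddSubgroup Γ, Finite N ∧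
      (∀ φ : Γ ≃+ Γ, Permutes A φ → N.map φ.toAddMonoidHom = N) ∧
      (∀ W : AddSubgroup Γ, (∀ i, ∀ a ∈ A i, ∀ b ∈ A i, a - b ∈ W) → N ≤ W) ∧
      ∀ i, (Nat.card N : ℝ) ≤ K ^ 4 * L ^ 3 * (A i).card ∧
        ∃ T : Finset Γ, (T.card : ℝ) ≤ K ^ 4 * L ^ 3 ∧ ∀ a ∈ A i, ∃ t ∈ T, a - t ∈ N := by
  have : Nonempty ι := ⟨i₀⟩
  have hApos : ∀ i, (0 : ℝ) < (A i).card := fun i => by exact_mod_cast (hA i).card_pos
  have hK1 : 1 ≤ K := by
    have h1 : ((A i₀).card : ℝ) ≤ (A i₀ + A i₀).card := by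
      exact_mod_cast Finset.card_le_card_add_right (hA i₀)
    have h2 := hK i₀ i₀
    have h3 := hApos i₀
    nlinarith
  have hK0 : 0 < K := by linarith
  have hT₀ne : T₀.Nonempty := by
    obtain ⟨a, ha⟩ := hA i₀
    obtain ⟨t, ht, -⟩ := hcov a ha
    exact ⟨t, ht⟩
  have hT₀pos : (1 : ℝ) ≤ T₀.card := by exact_mod_cast hT₀ne.card_pos
  have hL1 : 1 ≤ L := hT₀pos.trans hT₀
  have hL0 : 0 < L := by linarith
  have hlK : 0 ≤ Real.log K := Real.log_nonneg hK1
  have hlL : 0 ≤ Real.log L := Real.log_nonneg hL1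
  -- comparison of the sizes
  have hsize : ∀ i j, Real.log (A i).card ≤ Real.log (A j).card + Real.log K := by
    intro i j
    have h1 : ((A i).card : ℝ) ≤ (A j + A i).card := by
      exact_mod_cast Finset.card_le_card_add_left (hA j)
    have h2 : ((A i).card : ℝ) ≤ K * (A j).card := h1.trans (hK j i)
    have h3 := Real.log_le_log (hApos i) h2
    rw [Real.log_mul hK0.ne' (hApos j).ne'] at h3
    linarith
  -- every set is covered by few cosets of `N₀`
  have hent0 : ∀ i, ent (A i) N₀ ≤ Real.log K + Real.log L := by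
    intro i
    have h1 := ent_le_log (hA i₀) N₀ T₀ hcov
    have h1' : ent (A i₀) N₀ ≤ Real.log L := h1.trans (Real.log_le_log (by linarith) hT₀)
    obtain ⟨a, ha, hpop⟩ := exists_popular (hA i₀) N₀
    set A' := (A i₀).filter (fun b => b - a ∈ N₀) with hA'
    have hA'c : cnt (A i₀) N₀ a = A'.card := rfl
    have hA'ne : A'.Nonempty := ⟨a, by simp [hA', ha]⟩
    have hexp : Real.exp (ent (A i₀) N₀) ≤ L := by
      calc Real.exp (ent (A i₀) N₀) ≤ Real.exp (Real.log L) := Real.exp_le_exp.2 h1'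
        _ = L := Real.exp_log hL0
    have hA'1 : ((A i₀).card : ℝ) ≤ L * A'.card := by
      rw [hA'c] at hpop
      exact hpop.trans (mul_le_mul_of_nonneg_right hexp (Nat.cast_nonneg _))
    have hsum : ((A i + A').card : ℝ) ≤ (K * L) * A'.card := by
      have h2 : ((A i + A').card : ℝ) ≤ (A i₀ + A i).card := by
        rw [add_comm (A i₀) (A i)]
        exact_mod_cast Finset.card_le_card (Finset.add_subset_add_left (Finset.filter_subset _ _))
      calc ((A i + A').card : ℝ) ≤ K * (A i₀).card := h2.trans (hK i₀ i)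
        _ ≤ K * (L * A'.card) := mul_le_mul_of_nonneg_left hA'1 hK0.le
        _ = _ := by ring
    obtain ⟨F, -, hF, hAF⟩ := Finset.ruzsa_covering_add hA'ne hsum
    have hcovF : ∀ x ∈ A i, ∃ t ∈ F, x - t ∈ N₀ := by
      intro x hx
      obtain ⟨f, hf, d, hd, hfd⟩ := Finset.mem_add.1 (hAF hx)
      obtain ⟨y, hy, z, hz, hyz⟩ := Finset.mem_sub.1 hd
      refine ⟨f, hf, ?_⟩
      have e : x - f = (y - a) - (z - a) := by rw [← hfd, ← hyz]; abel
      rw [e]
      exact N₀.sub_mem (Finset.mem_filter.1 hy).2 (Finset.mem_filter.1 hz).2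
    have h3 := ent_le_log (hA i) N₀ F hcovF
    have hFpos : (0 : ℝ) < F.card := by
      obtain ⟨x, hx⟩ := hA i
      obtain ⟨t, ht, -⟩ := hcovF x hx
      exact_mod_cast Finset.card_pos.2 ⟨t, ht⟩
    refine h3.trans ((Real.log_le_log hFpos hF).trans ?_)
    rw [Real.log_mul hK0.ne' hL0.ne']
  obtain ⟨N, hN, hmin, hinv, hW⟩ := exists_can A
  have hNpos : (0 : ℝ) < Nat.card N := by exact_mod_cast Nat.card_pos
  have hN₀pos : (0 : ℝ) < Nat.card N₀ := by exact_mod_cast Nat.card_pos
  set n : ℝ := (Fintype.card ι : ℝ) with hn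
  have hnpos : 0 < n := by
    have : 0 < Fintype.card ι := Fintype.card_pos
    rw [hn]
    exact_mod_cast this
  set Λ : ℝ := ∑ i, Real.log (A i).card with hΛ
  have hconst : ∀ c : ℝ, ∑ _i : ι, c = n * c := by
    intro c
    rw [Finset.sum_const, Finset.card_univ, nsmul_eq_mul]
  have hΛ1 : n * Real.log (A i₀).card ≤ Λ + n * Real.log K := by
    have h1 : ∑ _i : ι, Real.log (A i₀).card ≤ ∑ i : ι, (Real.log (A i).card + Real.log K) :=
      Finset.sum_le_sum fun i _ => hsize i₀ i
    rw [Finset.sum_add_distrib, hconst, hconst] at h1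
    exact h1
  have hΛ2 : ∀ i, Λ ≤ n * Real.log (A i).card + n * Real.log K := by
    intro i
    have h1 : ∑ j : ι, Real.log (A j).card ≤ ∑ _j : ι, (Real.log (A i).card + Real.log K) :=
      Finset.sum_le_sum fun j _ => hsize j i
    rw [hconst, mul_add] at h1
    exact h1
  have hS0 : ∑ i, ent (A i) N₀ ≤ n * (Real.log K + Real.log L) := by
    rw [← hconst]
    exact Finset.sum_le_sum fun i _ => hent0 i
  have hlN0 : Real.log (Nat.card N₀) ≤ Real.log L + Real.log (A i₀).card := by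
    rw [← Real.log_mul hL0.ne' (hApos i₀).ne']
    exact Real.log_le_log hN₀pos hN₀c
  have hlN0' : n / 2 * Real.log (Nat.card N₀) ≤ n / 2 * (Real.log L + Real.log (A i₀).card) :=
    mul_le_mul_of_nonneg_left hlN0 (by positivity)
  have hmin0 := hmin N₀ hN₀
  have hlow : Λ - n * Real.log (Nat.card N) ≤ ∑ i, ent (A i) N := by
    rw [← hconst, hΛ, ← Finset.sum_sub_distrib]
    exact Finset.sum_le_sum fun i _ => log_card_le_ent (hA i) N
  have hnn : 0 ≤ ∑ i, ent (A i) N := Finset.sum_nonneg fun i _ => ent_nonneg _ _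
  have hentN : ∑ i, ent (A i) N ≤ n * (3 * (Real.log K + Real.log L)) := by nlinarith
  have hlN : n * Real.log (Nat.card N) ≤ Λ + n * (3 * (Real.log K + Real.log L)) := by nlinarith
  have hpow : Real.log (K ^ 4 * L ^ 3) = 4 * Real.log K + 3 * Real.log L := by
    rw [Real.log_mul (by positivity) (by positivity), Real.log_pow, Real.log_pow]
    push_cast; ring
  have hpow3 : Real.log ((K * L) ^ 3) = 3 * (Real.log K + Real.log L) := by
    rw [Real.log_pow, Real.log_mul hK0.ne' hL0.ne']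
    push_cast; ring
  obtain ⟨i₁, -, hi₁⟩ : ∃ i ∈ (Finset.univ : Finset ι), ent (A i) N ≤
      3 * (Real.log K + Real.log L) := by
    apply Finset.exists_le_of_sum_le Finset.univ_nonempty
    rw [hconst]
    exact hentN
  obtain ⟨a, ha, hpop⟩ := exists_popular (hA i₁) N
  set A' := (A i₁).filter (fun b => b - a ∈ N) with hA'
  have hA'c : cnt (A i₁) N a = A'.card := rfl
  have hA'ne : A'.Nonempty := ⟨a, by simp [hA', ha]⟩
  have hexp : Real.exp (ent (A i₁) N) ≤ (K * L) ^ 3 := by
    rw [← Real.exp_log (by positivity : (0:ℝ) < (K * L) ^ 3), hpow3]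
    exact Real.exp_le_exp.2 hi₁
  have hA'1 : ((A i₁).card : ℝ) ≤ (K * L) ^ 3 * A'.card := by
    rw [hA'c] at hpop
    exact hpop.trans (mul_le_mul_of_nonneg_right hexp (Nat.cast_nonneg _))
  refine ⟨N, hN, hinv, hW, fun i => ⟨?_, ?_⟩⟩
  · have h1 : Real.log (Nat.card N) ≤ Real.log (K ^ 4 * L ^ 3 * (A i).card) := by
      rw [Real.log_mul (by positivity) (hApos i).ne', hpow]
      have h2 := hΛ2 i
      have h3 : n * Real.log (Nat.card N) ≤
          n * (4 * Real.log K + 3 * Real.log L + Real.log (A i).card) := by nlinarith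
      exact le_of_mul_le_mul_left h3 hnpos
    have hp := hApos i
    exact (Real.log_le_log_iff hNpos (by positivity)).1 h1
  · have hsum : ((A i + A').card : ℝ) ≤ (K ^ 4 * L ^ 3) * A'.card := by
      have h2 : ((A i + A').card : ℝ) ≤ (A i₁ + A i).card := by
        rw [add_comm (A i₁) (A i)]
        exact_mod_cast Finset.card_le_card (Finset.add_subset_add_left (Finset.filter_subset _ _))
      calc ((A i + A').card : ℝ) ≤ K * (A i₁).card := h2.trans (hK i₁ i)
        _ ≤ K * ((K * L) ^ 3 * A'.card) := mul_le_mul_of_nonneg_left hA'1 hK0.le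
        _ = _ := by ring
    obtain ⟨F, -, hF, hAF⟩ := Finset.ruzsa_covering_add hA'ne hsum
    refine ⟨F, hF, ?_⟩
    intro x hx
    obtain ⟨f, hf, d, hd, hfd⟩ := Finset.mem_add.1 (hAF hx)
    obtain ⟨y, hy, z, hz, hyz⟩ := Finset.mem_sub.1 hd
    refine ⟨f, hf, ?_⟩
    have e : x - f = (y - a) - (z - a) := by rw [← hfd, ← hyz]; abel
    rw [e]
    exact N.sub_mem (Finset.mem_filter.1 hy).2 (Finset.mem_filter.1 hz).2

end Run7.h933.CAN
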