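import Pool.Agent.Run7.h933.CAN.Sub
set_option autoImplicit false

/-! Least minimizers of submodular functions on lattices of subgroups. -/

open scoped Classical Pointwise
open Finset Filter

namespace Run7.h933.CAN

/-- a submodular function which attains its minimum has a least minimizer -/
theorem exists_least {L : Type*} [Lattice L] (S : Set L)
    (hinf : ∀ x ∈ S, ∀ y ∈ S, x ⊓ y ∈ S) (hsup : ∀ x ∈ S, ∀ y ∈ S, x ⊔ y ∈ S)
    (g : L → ℝ) (hg : ∀ x ∈ S, ∀ y ∈ S, g (x ⊓ y) + g (x ⊔ y) ≤ g x + g y)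
    (hmin : ∃ x ∈ S, ∀ y ∈ S, g x ≤ g y)
    (ρ : L → ℕ) (hρ : ∀ x ∈ S, ∀ y ∈ S, x ≤ y → ρ y ≤ ρ x → x = y) :
    ∃ x ∈ S, (∀ y ∈ S, g x ≤ g y) ∧ ∀ y ∈ S, g y ≤ g x → x ≤ y := by
  let M : Set L := {x | x ∈ S ∧ ∀ y ∈ S, g x ≤ g y}
  have hM : M.Nonempty := by
    obtain ⟨x, hx, hx'⟩ := hmin
    exact ⟨x, hx, hx'⟩
  obtain ⟨x, hxM, hx⟩ : ∃ x ∈ M, ∀ y ∈ M, ρ x ≤ ρ y := by
    have hne : (ρ '' M).Nonempty := hM.image _
    obtain ⟨x, hxM, hx⟩ := Nat.sInf_mem hne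
    refine ⟨x, hxM, fun y hy => ?_⟩
    rw [hx]
    exact Nat.sInf_le ⟨y, hy, rfl⟩
  refine ⟨x, hxM.1, hxM.2, fun y hy hgy => ?_⟩
  have hinfS := hinf x hxM.1 y hy
  have hsupS := hsup x hxM.1 y hy
  have h1 := hg x hxM.1 y hy
  have h2 := hxM.2 _ hsupS
  have h3 : g (x ⊓ y) ≤ g x := by linarith
  have h4 : x ⊓ y ∈ M := ⟨hinfS, fun z hz => h3.trans (hxM.2 z hz)⟩
  have h5 := hρ (x ⊓ y) hinfS x hxM.1 inf_le_left (hx _ h4)
  exact inf_eq_left.1 h5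

/-- the least minimizer is invariant under all the symmetries -/
theorem least_invariant {L : Type*} [Lattice L] {S : Set L} {g : L → ℝ} {x : L} (hx : x ∈ S)
    (hleast : ∀ y ∈ S, g y ≤ g x → x ≤ y) (θ θ' : L → L) (hθ : Monotone θ)
    (hθS : ∀ y ∈ S, θ y ∈ S) (hθ'S : ∀ y ∈ S, θ' y ∈ S) (hθθ' : ∀ y, θ (θ' y) = y)
    (hg : ∀ y ∈ S, g (θ y) = g y) : θ x = x := by
  have h1 : x ≤ θ x := hleast _ (hθS x hx) (hg x hx).le
  have h2 : x ≤ θ' x := by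
    apply hleast _ (hθ'S x hx)
    have := hg (θ' x) (hθ'S x hx)
    rw [hθθ'] at this
    exact this.symm.le
  have h3 := hθ h2
  rw [hθθ'] at h3
  exact le_antisymm h3 h1

variable {Γ : Type*} [AddCommGroup Γ]

theorem ent_range_finite {ι : Type*} [Finite ι] (A : ι → Finset Γ) (w : ι → ℝ) [Fintype ι] :
    (Set.range (fun N : AddSubgroup Γ => ∑ i, w i * ent (A i) N)).Finite := by
  let τ : AddSubgroup Γ → ((i : ι) → (A i) → (A i) → Prop) := fun N i a b => (b : Γ) - a ∈ N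
  have hfac : Function.FactorsThrough (fun N : AddSubgroup Γ => ∑ i, w i * ent (A i) N) τ := by
    intro N N' h
    refine Finset.sum_congr rfl fun i _ => ?_
    congr 1
    unfold ent
    congr 1
    refine Finset.sum_congr rfl fun a ha => ?_
    have : cnt (A i) N a = cnt (A i) N' a := by
      unfold cnt
      congr 1
      apply Finset.filter_congr
      intro b hb
      have h1 := congrFun (congrFun (congrFun h i) ⟨a, ha⟩) ⟨b, hb⟩
      exact iff_of_eq h1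
    rw [this]
  have hrange : Set.range (fun N : AddSubgroup Γ => ∑ i, w i * ent (A i) N) ⊆
      Set.range (fun t : ((i : ι) → (A i) → (A i) → Prop) =>
        if h : ∃ N, τ N = t then ∑ i, w i * ent (A i) h.choose else 0) := by
    rintro _ ⟨N, rfl⟩
    refine ⟨τ N, ?_⟩
    have hex : ∃ N', τ N' = τ N := ⟨N, rfl⟩
    simp only [dif_pos hex]
    exact hfac hex.choose_spec
  exact (Set.finite_range _).subset hrange

/-- **The least minimizer.** -/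
theorem exists_canonical {L : Type*} [Lattice L] {ι : Type*} [Fintype ι] (A : ι → Finset Γ)
    (J : L → AddSubgroup Γ) (hJinf : ∀ x y, J (x ⊓ y) = J x ⊓ J y)
    (hJsup : ∀ x y, J (x ⊔ y) = J x ⊔ J y)
    (S : Set L) (hne : S.Nonempty)
    (hinf : ∀ x ∈ S, ∀ y ∈ S, x ⊓ y ∈ S) (hsup : ∀ x ∈ S, ∀ y ∈ S, x ⊔ y ∈ S)
    (ρ : L → ℕ) (f : ℕ → ℝ) (hf : Tendsto f atTop atTop)
    (hmod : ∀ x ∈ S, ∀ y ∈ S, f (ρ (x ⊓ y)) + f (ρ (x ⊔ y)) ≤ f (ρ x) + f (ρ y))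
    (hρ : ∀ x ∈ S, ∀ y ∈ S, x ≤ y → ρ y ≤ ρ x → x = y) :
    ∃ x ∈ S, (∀ y ∈ S, ∑ i, ent (A i) (J x) + f (ρ x) ≤ ∑ i, ent (A i) (J y) + f (ρ y)) ∧
      ∀ y ∈ S, ∑ i, ent (A i) (J y) + f (ρ y) ≤ ∑ i, ent (A i) (J x) + f (ρ x) → x ≤ y := by
  have hrange : (Set.range (fun N : AddSubgroup Γ => ∑ i, ent (A i) N)).Finite := by
    have := ent_range_finite A (fun _ => (1 : ℝ))
    simpa using this
  set g : L → ℝ := fun x => ∑ i, ent (A i) (J x) + f (ρ x) with hg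
  have hmin : ∃ x ∈ S, ∀ y ∈ S, g x ≤ g y := by
    obtain ⟨x₀, hx₀⟩ := hne
    have hfin1 : {n : ℕ | f n ≤ g x₀}.Finite := by
      have h1 := hf.eventually_gt_atTop (g x₀)
      rw [Filter.eventually_atTop] at h1
      obtain ⟨B, hB⟩ := h1
      apply (Set.finite_lt_nat B).subset
      intro n hn
      by_contra hcon
      have := hB n (not_lt.1 hcon)
      have hn' : f n ≤ g x₀ := hn
      linarith
    have hfin2 : (g '' {x | x ∈ S ∧ g x ≤ g x₀}).Finite := by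
      have h2 : (Set.image2 (fun a b : ℝ => a + b)
          (Set.range (fun N : AddSubgroup Γ => ∑ i, ent (A i) N))
          (f '' {n : ℕ | f n ≤ g x₀})).Finite := hrange.image2 _ (hfin1.image f)
      apply h2.subset
      rintro _ ⟨x, ⟨hxS, hx⟩, rfl⟩
      refine ⟨∑ i, ent (A i) (J x), ⟨J x, rfl⟩, f (ρ x), ⟨ρ x, ?_, rfl⟩, rfl⟩
      have h3 : 0 ≤ ∑ i, ent (A i) (J x) := Finset.sum_nonneg fun i _ => ent_nonneg _ _
      show f (ρ x) ≤ g x₀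
      have h4 : g x = ∑ i, ent (A i) (J x) + f (ρ x) := rfl
      linarith
    have hne2 : (g '' {x | x ∈ S ∧ g x ≤ g x₀}).Nonempty := ⟨g x₀, x₀, ⟨hx₀, le_rfl⟩, rfl⟩
    obtain ⟨v, ⟨x, ⟨hxS, hx⟩, rfl⟩, hv⟩ := Set.exists_min_image _ id hfin2 hne2
    refine ⟨x, hxS, fun y hy => ?_⟩
    by_cases hy2 : g y ≤ g x₀
    · exact hv (g y) ⟨y, ⟨hy, hy2⟩, rfl⟩
    · exact hx.trans (not_le.1 hy2).le
  have hsub : ∀ x ∈ S, ∀ y ∈ S, g (x ⊓ y) + g (x ⊔ y) ≤ g x + g y := by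
    intro x hx y hy
    have h1 : ∑ i, ent (A i) (J (x ⊓ y)) + ∑ i, ent (A i) (J (x ⊔ y)) ≤
        ∑ i, ent (A i) (J x) + ∑ i, ent (A i) (J y) := by
      rw [← Finset.sum_add_distrib, ← Finset.sum_add_distrib]
      refine Finset.sum_le_sum fun i _ => ?_
      rw [hJinf, hJsup]
      exact ent_submod _ _ _
    have h2 := hmod x hx y hy
    simp only [hg]
    linarith
  exact exists_least S hinf hsup g hsub hmin ρ hρ

/-- `φ` permutes the sets of the family, up to translation -/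
def Permutes {ι Γ : Type*} [AddCommGroup Γ] (A : ι → Finset Γ) (φ : Γ ≃+ Γ) : Prop :=
  ∃ π : Equiv.Perm ι, ∀ i, ∃ c : Γ, ∀ x, x ∈ A i ↔ φ x + c ∈ A (π i)

theorem sum_ent_map {ι : Type*} [Fintype ι] (A : ι → Finset Γ) (φ : Γ ≃+ Γ) (h : Permutes A φ)
    (N : AddSubgroup Γ) : ∑ i, ent (A i) (N.map φ.toAddMonoidHom) = ∑ i, ent (A i) N := by
  obtain ⟨π, hπ⟩ := h
  rw [← Equiv.sum_comp π (fun i => ent (A i) (N.map φ.toAddMonoidHom))]
  refine Finset.sum_congr rfl fun i _ => ?_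
  obtain ⟨c, hc⟩ := hπ i
  exact ent_map (A i) (A (π i)) φ c hc N

end Run7.h933.CAN
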