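import Pool.Agent.Run7.h933.CAN.Tor
set_option autoImplicit false

/-! Canonical pairs of subgroups. -/

open scoped Classical Pointwise
open Finset Filter

namespace Run7.h933.CAN

/-- the least minimizer of `G + r` -/
theorem exists_canonical' {L : Type*} [Lattice L] (S : Set L) (hne : S.Nonempty)
    (hinf : ∀ x ∈ S, ∀ y ∈ S, x ⊓ y ∈ S) (hsup : ∀ x ∈ S, ∀ y ∈ S, x ⊔ y ∈ S)
    (G r : L → ℝ) (hG0 : ∀ x ∈ S, 0 ≤ G x) (hGfin : (Set.range G).Finite)
    (hr : ∀ B : ℝ, (r '' {x | x ∈ S ∧ r x ≤ B}).Finite)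
    (hGsub : ∀ x ∈ S, ∀ y ∈ S, G (x ⊓ y) + G (x ⊔ y) ≤ G x + G y)
    (hrsub : ∀ x ∈ S, ∀ y ∈ S, r (x ⊓ y) + r (x ⊔ y) ≤ r x + r y)
    (ρ : L → ℕ) (hρ : ∀ x ∈ S, ∀ y ∈ S, x ≤ y → ρ y ≤ ρ x → x = y) :
    ∃ x ∈ S, (∀ y ∈ S, G x + r x ≤ G y + r y) ∧ ∀ y ∈ S, G y + r y ≤ G x + r x → x ≤ y := by
  have hmin : ∃ x ∈ S, ∀ y ∈ S, G x + r x ≤ G y + r y := by
    obtain ⟨x₀, hx₀⟩ := hne
    have hfin2 : ((fun x => G x + r x) '' {x | x ∈ S ∧ G x + r x ≤ G x₀ + r x₀}).Finite := by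
      have h2 : (Set.image2 (fun a b : ℝ => a + b) (Set.range G)
          (r '' {x | x ∈ S ∧ r x ≤ G x₀ + r x₀})).Finite := hGfin.image2 _ (hr _)
      apply h2.subset
      rintro _ ⟨x, ⟨hxS, hx⟩, rfl⟩
      refine ⟨G x, ⟨x, rfl⟩, r x, ⟨x, ⟨hxS, ?_⟩, rfl⟩, rfl⟩
      have := hG0 x hxS
      linarith
    have hne2 : ((fun x => G x + r x) '' {x | x ∈ S ∧ G x + r x ≤ G x₀ + r x₀}).Nonempty :=
      ⟨_, x₀, ⟨hx₀, le_rfl⟩, rfl⟩
    obtain ⟨v, ⟨x, ⟨hxS, hx⟩, rfl⟩, hv⟩ := Set.exists_min_image _ id hfin2 hne2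
    refine ⟨x, hxS, fun y hy => ?_⟩
    by_cases hy2 : G y + r y ≤ G x₀ + r x₀
    · exact hv (G y + r y) ⟨y, ⟨hy, hy2⟩, rfl⟩
    · exact hx.trans (not_le.1 hy2).le
  exact exists_least S hinf hsup (fun x => G x + r x)
    (fun x hx y hy => by
      have h1 := hGsub x hx y hy
      have h2 := hrsub x hx y hy
      linarith) hmin ρ hρ

variable {Γ : Type*} [AddCommGroup Γ]

/-- the functional -/
noncomputable def gg {ι : Type*} [Fintype ι] (A : ι → Finset Γ) (w : ℝ)
    (x : AddSubgroup Γ × AddSubgroup Γ) : ℝ :=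
  (∑ i, ent (A i) x.2 + ∑ i, ent (A i) x.1) + (Fintype.card ι : ℝ) *
    (w * (Real.log (Nat.card x.2) - Real.log (Nat.card x.1)) + Real.log (Nat.card x.1))

theorem exists_can_pair {ι : Type*} [Fintype ι] [Nonempty ι] (A : ι → Finset Γ) (w : ℝ)
    (hw : 0 < w) :
    ∃ H U : AddSubgroup Γ, Finite U ∧ H ≤ U ∧
      (∀ H' U' : AddSubgroup Γ, Finite U' → H' ≤ U' → gg A w (H, U) ≤ gg A w (H', U')) ∧
      (∀ φ : Γ ≃+ Γ, Permutes A φ → H.map φ.toAddMonoidHom = H ∧ U.map φ.toAddMonoidHom = U) ∧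
      ∀ W : AddSubgroup Γ, (∀ i, ∀ a ∈ A i, ∀ b ∈ A i, a - b ∈ W) → U ≤ W := by
  have hn : (0 : ℝ) < (Fintype.card ι : ℝ) := by
    have : 0 < Fintype.card ι := Fintype.card_pos
    exact_mod_cast this
  set n : ℝ := (Fintype.card ι : ℝ) with hndef
  set S : Set (AddSubgroup Γ × AddSubgroup Γ) := {x | Finite x.2 ∧ x.1 ≤ x.2} with hS
  have hfin1 : ∀ x ∈ S, Finite x.1 := fun x hx => by
    have h1 : Finite x.2 := hx.1
    exact Finite.Set.subset (x.2 : Set Γ) hx.2
  have hmod : ∀ M N : AddSubgroup Γ, Finite M → Finite N →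
      Real.log (Nat.card (M ⊓ N : AddSubgroup Γ)) + Real.log (Nat.card (M ⊔ N : AddSubgroup Γ)) =
      Real.log (Nat.card M) + Real.log (Nat.card N) := by
    intro x y hx hy
    have h3 : Finite (x ⊓ y : AddSubgroup Γ) :=
      Finite.Set.subset (x : Set Γ) (inf_le_left : x ⊓ y ≤ x)
    have h4 : Finite (x ⊔ y : AddSubgroup Γ) := finite_sup hx hy
    have hp1 : (0 : ℝ) < Nat.card x := by exact_mod_cast Nat.card_pos
    have hp2 : (0 : ℝ) < Nat.card y := by exact_mod_cast Nat.card_pos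
    have hp3 : (0 : ℝ) < Nat.card (x ⊓ y : AddSubgroup Γ) := by exact_mod_cast Nat.card_pos
    have hp4 : (0 : ℝ) < Nat.card (x ⊔ y : AddSubgroup Γ) := by exact_mod_cast Nat.card_pos
    have h5 : (Nat.card (x ⊓ y : AddSubgroup Γ) : ℝ) * Nat.card (x ⊔ y : AddSubgroup Γ) =
        Nat.card x * Nat.card y := by exact_mod_cast card_inf_mul_card_sup x y
    have h6 := congrArg Real.log h5
    rwa [Real.log_mul hp3.ne' hp4.ne', Real.log_mul hp1.ne' hp2.ne'] at h6
  have hrange : (Set.range (fun N : AddSubgroup Γ => ∑ i, ent (A i) N)).Finite := by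
    have := ent_range_finite A (fun _ => (1 : ℝ))
    simpa using this
  obtain ⟨x, hx, h1, h2⟩ := exists_canonical' S ⟨(⊥, ⊥), by
      refine ⟨?_, le_rfl⟩
      show Finite (⊥ : AddSubgroup Γ)
      infer_instance⟩
    (fun x hx y hy => by
      have : Finite x.2 := hx.1
      exact ⟨Finite.Set.subset (x.2 : Set Γ) (inf_le_left : x.2 ⊓ y.2 ≤ x.2),
        inf_le_inf hx.2 hy.2⟩)
    (fun x hx y hy => ⟨finite_sup hx.1 hy.1, sup_le_sup hx.2 hy.2⟩)
    (fun x => ∑ i, ent (A i) x.2 + ∑ i, ent (A i) x.1)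
    (fun x => n * (w * (Real.log (Nat.card x.2) - Real.log (Nat.card x.1)) +
      Real.log (Nat.card x.1)))
    (fun x _ => add_nonneg (Finset.sum_nonneg fun i _ => ent_nonneg _ _)
      (Finset.sum_nonneg fun i _ => ent_nonneg _ _))
    (by
      apply (hrange.image2 (fun a b : ℝ => a + b) hrange).subset
      rintro _ ⟨x, rfl⟩
      exact ⟨_, ⟨x.2, rfl⟩, _, ⟨x.1, rfl⟩, rfl⟩)
    (by
      intro B
      obtain ⟨M, hM⟩ : ∃ M : ℕ, Real.exp (B / n / w + B / n) ≤ M := exists_nat_ge _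
      obtain ⟨M', hM'⟩ : ∃ M' : ℕ, Real.exp (B / n) ≤ M' := exists_nat_ge _
      have hfin : (Set.image2 (fun a b : ℕ => n * (w * (Real.log a - Real.log b) + Real.log b))
          (Set.Iic M) (Set.Iic M')).Finite := (Set.finite_Iic M).image2 _ (Set.finite_Iic M')
      apply hfin.subset
      rintro _ ⟨x, ⟨hxS, hx⟩, rfl⟩
      have hf2 : Finite x.2 := hxS.1
      have hf1 : Finite x.1 := hfin1 x hxS
      have hp2 : (0 : ℝ) < Nat.card x.2 := by exact_mod_cast Nat.card_pos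
      have hp1 : (1 : ℝ) ≤ Nat.card x.1 := by exact_mod_cast Nat.card_pos
      have hle : Real.log (Nat.card x.1) ≤ Real.log (Nat.card x.2) := by
        apply Real.log_le_log (by linarith)
        exact_mod_cast Nat.card_mono (Set.toFinite _) hxS.2
      have hl1 : 0 ≤ Real.log (Nat.card x.1) := Real.log_nonneg hp1
      have hwl : 0 ≤ w * (Real.log (Nat.card x.2) - Real.log (Nat.card x.1)) :=
        mul_nonneg hw.le (by linarith)
      have h3 : w * (Real.log (Nat.card x.2) - Real.log (Nat.card x.1)) +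
          Real.log (Nat.card x.1) ≤ B / n := by
        rw [le_div_iff₀ hn, mul_comm]
        exact hx
      have h4 : Real.log (Nat.card x.1) ≤ B / n := by linarith
      have h5 : Real.log (Nat.card x.2) - Real.log (Nat.card x.1) ≤ B / n / w := by
        rw [le_div_iff₀ hw, mul_comm]
        linarith
      refine ⟨Nat.card x.2, ?_, Nat.card x.1, ?_, rfl⟩
      · have h6 : (Nat.card x.2 : ℝ) ≤ M := by
          refine le_trans ?_ hM
          rw [← Real.log_le_iff_le_exp hp2]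
          linarith
        exact_mod_cast h6
      · have h6 : (Nat.card x.1 : ℝ) ≤ M' := by
          refine le_trans ?_ hM'
          rw [← Real.log_le_iff_le_exp (by linarith)]
          linarith
        exact_mod_cast h6)
    (fun x _ y _ => by
      have h3 : ∑ i, ent (A i) (x.2 ⊓ y.2) + ∑ i, ent (A i) (x.2 ⊔ y.2) ≤
          ∑ i, ent (A i) x.2 + ∑ i, ent (A i) y.2 := by
        rw [← Finset.sum_add_distrib, ← Finset.sum_add_distrib]
        exact Finset.sum_le_sum fun i _ => ent_submod _ _ _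
      have h4 : ∑ i, ent (A i) (x.1 ⊓ y.1) + ∑ i, ent (A i) (x.1 ⊔ y.1) ≤
          ∑ i, ent (A i) x.1 + ∑ i, ent (A i) y.1 := by
        rw [← Finset.sum_add_distrib, ← Finset.sum_add_distrib]
        exact Finset.sum_le_sum fun i _ => ent_submod _ _ _
      simp only [Prod.fst_inf, Prod.snd_inf, Prod.fst_sup, Prod.snd_sup]
      linarith)
    (fun x hx y hy => by
      have h3 := hmod x.2 y.2 hx.1 hy.1
      have h4 := hmod x.1 y.1 (hfin1 x hx) (hfin1 y hy)
      simp only [Prod.fst_inf, Prod.snd_inf, Prod.fst_sup, Prod.snd_sup]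
      apply le_of_eq
      linear_combination n * w * h3 + n * (1 - w) * h4)
    (fun x => Nat.card x.1 * Nat.card x.2)
    (fun x hx y hy hxy hc => by
      have hx2 : Finite x.2 := hx.1
      have hx1 : Finite x.1 := hfin1 x hx
      have hy2 : Finite y.2 := hy.1
      have hy1 : Finite y.1 := hfin1 y hy
      have hp1 : 0 < Nat.card x.1 := Nat.card_pos
      have hp2 : 0 < Nat.card x.2 := Nat.card_pos
      have h3 : Nat.card x.1 ≤ Nat.card y.1 := Nat.card_mono (Set.toFinite _) hxy.1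
      have h4 : Nat.card x.2 ≤ Nat.card y.2 := Nat.card_mono (Set.toFinite _) hxy.2
      have h5 : Nat.card y.1 ≤ Nat.card x.1 := by
        by_contra hcon
        push Not at hcon
        have : Nat.card x.1 * Nat.card x.2 < Nat.card y.1 * Nat.card y.2 :=
          Nat.mul_lt_mul_of_lt_of_le hcon h4 Nat.card_pos
        omega
      have h6 : Nat.card y.2 ≤ Nat.card x.2 := by
        by_contra hcon
        push Not at hcon
        have : Nat.card x.1 * Nat.card x.2 < Nat.card y.1 * Nat.card y.2 :=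
          Nat.mul_lt_mul_of_le_of_lt h3 hcon Nat.card_pos
        omega
      exact Prod.ext (AddSubgroup.eq_of_le_of_card_ge hxy.1 h5)
        (AddSubgroup.eq_of_le_of_card_ge hxy.2 h6))
  refine ⟨x.1, x.2, hx.1, hx.2, fun H' U' hU' hle => h1 (H', U') ⟨hU', hle⟩, fun φ hφ => ?_,
    fun W hW => ?_⟩
  swap
  · have hx2 : Finite x.2 := hx.1
    have hx1 : Finite x.1 := hfin1 x hx
    have hf2 : Finite (x.2 ⊓ W : AddSubgroup Γ) :=
      Finite.Set.subset (x.2 : Set Γ) (inf_le_left : x.2 ⊓ W ≤ x.2)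
    have hf1 : Finite (x.1 ⊓ W : AddSubgroup Γ) :=
      Finite.Set.subset (x.1 : Set Γ) (inf_le_left : x.1 ⊓ W ≤ x.1)
    have h3 : x ≤ (x.1 ⊓ W, x.2 ⊓ W) := by
      apply h2 _ ⟨hf2, inf_le_inf_right W hx.2⟩
      have h4 : ∀ N : AddSubgroup Γ, ∑ i, ent (A i) (N ⊓ W) = ∑ i, ent (A i) N := fun N =>
        Finset.sum_congr rfl fun i _ => ent_inf _ _ _ (hW i)
      have hp1 : (0 : ℝ) < Nat.card x.1 := by exact_mod_cast Nat.card_pos
      have hp2 : (0 : ℝ) < Nat.card x.2 := by exact_mod_cast Nat.card_pos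
      have hp3 : (0 : ℝ) < Nat.card (x.1 ⊓ W : AddSubgroup Γ) := by exact_mod_cast Nat.card_pos
      have hp4 : (0 : ℝ) < Nat.card (x.2 ⊓ W : AddSubgroup Γ) := by exact_mod_cast Nat.card_pos
      have h5 : Real.log (Nat.card (x.1 ⊓ W : AddSubgroup Γ)) ≤ Real.log (Nat.card x.1) := by
        apply Real.log_le_log hp3
        exact_mod_cast Nat.card_mono (Set.toFinite _) (inf_le_left : x.1 ⊓ W ≤ x.1)
      have h6 : Nat.card x.1 * Nat.card (x.2 ⊓ W : AddSubgroup Γ) ≤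
          Nat.card (x.1 ⊓ W : AddSubgroup Γ) * Nat.card x.2 := by
        rw [← card_inf_mul_card_sup x.1 (x.2 ⊓ W)]
        have e : x.1 ⊓ (x.2 ⊓ W) = x.1 ⊓ W := by
          rw [← inf_assoc, inf_eq_left.2 hx.2]
        rw [e]
        exact Nat.mul_le_mul_left _ (Nat.card_mono (Set.toFinite _)
          (sup_le hx.2 (inf_le_left : x.2 ⊓ W ≤ x.2)))
      have h7 : (Nat.card x.1 : ℝ) * Nat.card (x.2 ⊓ W : AddSubgroup Γ) ≤
          Nat.card (x.1 ⊓ W : AddSubgroup Γ) * Nat.card x.2 := by exact_mod_cast h6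
      have h8 := Real.log_le_log (by positivity) h7
      rw [Real.log_mul hp1.ne' hp4.ne', Real.log_mul hp3.ne' hp2.ne'] at h8
      have h9 : w * (Real.log (Nat.card (x.2 ⊓ W : AddSubgroup Γ)) -
          Real.log (Nat.card (x.1 ⊓ W : AddSubgroup Γ))) ≤
          w * (Real.log (Nat.card x.2) - Real.log (Nat.card x.1)) :=
        mul_le_mul_of_nonneg_left (by linarith) hw.le
      have h10 := mul_le_mul_of_nonneg_left (add_le_add h9 h5) hn.le
      simp only [h4]
      linarith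
    exact h3.2.trans inf_le_right
  have h3 := least_invariant (S := S) (g := gg A w) (x := x) hx h2
    (fun y => (y.1.map φ.toAddMonoidHom, y.2.map φ.toAddMonoidHom))
    (fun y => (y.1.map φ.symm.toAddMonoidHom, y.2.map φ.symm.toAddMonoidHom))
    (fun y z h => ⟨AddSubgroup.map_mono h.1, AddSubgroup.map_mono h.2⟩)
    (fun y hy => ⟨finite_map hy.1 φ, AddSubgroup.map_mono hy.2⟩)
    (fun y hy => ⟨finite_map hy.1 φ.symm, AddSubgroup.map_mono hy.2⟩)
    (fun y => Prod.ext (map_map_symm y.1 φ) (map_map_symm y.2 φ))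
    (fun y _ => by
      unfold gg
      simp only
      rw [sum_ent_map A φ hφ, sum_ent_map A φ hφ, card_map, card_map])
  exact ⟨congrArg Prod.fst h3, congrArg Prod.snd h3⟩

end Run7.h933.CAN
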