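import Pool.Agent.Run7.h933.CAN.Uni2
set_option autoImplicit false

/-! Canonical pairs in an arbitrary abelian group. -/

open scoped Classical Pointwise
open Finset Filter

namespace Run7.h933.CAN

variable {Γ : Type*} [AddCommGroup Γ]

/-- the canonical pair, with a weight -/
theorem canonical_pair_w {ι : Type*} [Fintype ι] (A : ι → Finset Γ)
    (hA : ∀ i, (A i).Nonempty) (K : ℝ)
    (hK : ∀ i j, ((A i + A j).card : ℝ) ≤ K * (A i).card)
    (i₀ : ι) (H₀ U₀ : AddSubgroup Γ) (hU₀fin : Finite U₀) (hH₀U₀ : H₀ ≤ U₀) (l D w : ℝ)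
    (hw : 0 < w)
    (hcard₀ : Real.log (Nat.card U₀) - Real.log (Nat.card H₀) ≤ D)
    (hentU₀ : ent (A i₀) U₀ ≤ l)
    (hentH₀ : ent (A i₀) H₀ + Real.log (Nat.card H₀) ≤ l + Real.log (A i₀).card) :
    ∃ H U : AddSubgroup Γ, Finite U ∧ H ≤ U ∧
      (∀ φ : Γ ≃+ Γ, Permutes A φ → H.map φ.toAddMonoidHom = H ∧ U.map φ.toAddMonoidHom = U) ∧
      (∀ W : AddSubgroup Γ, (∀ i, ∀ a ∈ A i, ∀ b ∈ A i, a - b ∈ W) → U ≤ W) ∧
      w * (Real.log (Nat.card U) - Real.log (Nat.card H)) ≤ 3 * Real.log K + 2 * l + w * D ∧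
      ∀ i, (((A i : Set Γ) + (H : Set Γ)).ncard : ℝ) ≤
          Real.exp (3 * Real.log K + 2 * l + w * D) * K ^ 6 * (A i).card ∧
        ∃ T : Finset Γ, (T.card : ℝ) ≤ K * Real.exp (3 * Real.log K + 2 * l + w * D) ∧
          ∀ a ∈ A i, ∃ t ∈ T, a - t ∈ U := by
  have : Nonempty ι := ⟨i₀⟩
  have hApos : ∀ i, (0 : ℝ) < (A i).card := fun i => by exact_mod_cast (hA i).card_pos
  have hK1 : 1 ≤ K := by
    have h1 : ((A i₀).card : ℝ) ≤ (A i₀ + A i₀).card := by
      exact_mod_cast Finset.card_le_card_add_right (hA i₀)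
    have h2 := hK i₀ i₀
    have h3 := hApos i₀
    nlinarith
  have hK0 : 0 < K := by linarith
  set E : ℝ := 3 * Real.log K + 2 * l + w * D with hE
  have hsize' : ∀ i j, ((A i).card : ℝ) ≤ K * (A j).card := by
    intro i j
    have h1 : ((A i).card : ℝ) ≤ (A j + A i).card := by
      exact_mod_cast Finset.card_le_card_add_left (hA j)
    exact h1.trans (hK j i)
  have hsize : ∀ i j, Real.log (A i).card ≤ Real.log (A j).card + Real.log K := by
    intro i j
    have h3 := Real.log_le_log (hApos i) (hsize' i j)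
    rw [Real.log_mul hK0.ne' (hApos j).ne'] at h3
    linarith
  obtain ⟨H, U, hUfin, hHU, hmin, hinv, hW⟩ := exists_can_pair A w hw
  have hHfin : Finite H := Finite.Set.subset (U : Set Γ) hHU
  have hHpos : (0 : ℝ) < Nat.card H := by exact_mod_cast Nat.card_pos
  have hUpos : (0 : ℝ) < Nat.card U := by exact_mod_cast Nat.card_pos
  have hmin0 := hmin H₀ U₀ hU₀fin hH₀U₀
  unfold gg at hmin0
  simp only at hmin0
  set n : ℝ := (Fintype.card ι : ℝ) with hn
  have hnpos : 0 < n := by
    have : 0 < Fintype.card ι := Fintype.card_pos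
    rw [hn]
    exact_mod_cast this
  have hconst : ∀ c : ℝ, ∑ _i : ι, c = n * c := by
    intro c
    rw [Finset.sum_const, Finset.card_univ, nsmul_eq_mul]
  set Λ : ℝ := ∑ i, Real.log (A i).card with hΛ
  have hΛ1 : n * Real.log (A i₀).card ≤ Λ + n * Real.log K := by
    have h1 : ∑ _i : ι, Real.log (A i₀).card ≤ ∑ i : ι, (Real.log (A i).card + Real.log K) :=
      Finset.sum_le_sum fun i _ => hsize i₀ i
    rw [Finset.sum_add_distrib, hconst, hconst] at h1
    exact h1
  have hS0 : ∑ i, ent (A i) U₀ ≤ n * (Real.log K + l) := by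
    rw [← hconst]
    exact Finset.sum_le_sum fun i _ => ent_transfer (hA i₀) (hA i) hK1 (hK i₀ i) U₀ _ hentU₀
  have hS1 : ∑ i, ent (A i) H₀ ≤
      n * (Real.log K + (l + Real.log (A i₀).card - Real.log (Nat.card H₀))) := by
    rw [← hconst]
    exact Finset.sum_le_sum fun i _ => ent_transfer (hA i₀) (hA i) hK1 (hK i₀ i) H₀ _
      (by linarith)
  have hw0' : n * (w * (Real.log (Nat.card U₀) - Real.log (Nat.card H₀))) ≤ n * (w * D) :=
    mul_le_mul_of_nonneg_left (mul_le_mul_of_nonneg_left hcard₀ hw.le) hnpos.le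
  have hlow : Λ ≤ ∑ i, ent (A i) H + n * Real.log (Nat.card H) := by
    have h1 : ∑ i, (Real.log (A i).card - Real.log (Nat.card H)) ≤ ∑ i, ent (A i) H :=
      Finset.sum_le_sum fun i _ => log_card_le_ent (hA i) H
    rw [Finset.sum_sub_distrib, hconst] at h1
    linarith
  have hent_nn : 0 ≤ ∑ i, ent (A i) U := Finset.sum_nonneg fun i _ => ent_nonneg _ _
  have hHUlog : Real.log (Nat.card H) ≤ Real.log (Nat.card U) := by
    apply Real.log_le_log hHpos
    exact_mod_cast Nat.card_mono (Set.toFinite _) hHU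
  have hwnn : 0 ≤ n * (w * (Real.log (Nat.card U) - Real.log (Nat.card H))) :=
    mul_nonneg hnpos.le (mul_nonneg hw.le (by linarith))
  have htot : ∑ i, ent (A i) U + n * (w * (Real.log (Nat.card U) - Real.log (Nat.card H))) +
      (∑ i, ent (A i) H + n * Real.log (Nat.card H) - Λ) ≤ n * E := by
    have e1 : n * (Real.log K + l) = n * Real.log K + n * l := by ring
    have e2 : n * (Real.log K + (l + Real.log (A i₀).card - Real.log (Nat.card H₀))) =
        n * Real.log K + n * l + n * Real.log (A i₀).card -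
          n * Real.log (Nat.card H₀) := by ring
    have e3 : n * (w * (Real.log (Nat.card U₀) - Real.log (Nat.card H₀)) +
        Real.log (Nat.card H₀)) =
        n * (w * (Real.log (Nat.card U₀) - Real.log (Nat.card H₀))) +
          n * Real.log (Nat.card H₀) := by ring
    have e4 : n * (w * (Real.log (Nat.card U) - Real.log (Nat.card H)) +
        Real.log (Nat.card H)) =
        n * (w * (Real.log (Nat.card U) - Real.log (Nat.card H))) +
          n * Real.log (Nat.card H) := by ring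
    have e5 : n * E = 3 * (n * Real.log K) + 2 * (n * l) + n * (w * D) := by rw [hE]; ring
    rw [e1] at hS0
    rw [e2] at hS1
    rw [e3, e4] at hmin0
    rw [e5]
    linarith
  have hU1 : ∑ i, ent (A i) U ≤ n * E := by linarith
  have hU2 : n * (w * (Real.log (Nat.card U) - Real.log (Nat.card H))) ≤ n * E := by linarith
  have hU3 : ∑ i, (ent (A i) H + (Real.log (Nat.card H) - Real.log (A i).card)) ≤ n * E := by
    rw [Finset.sum_add_distrib, Finset.sum_sub_distrib, hconst]
    linarith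
  obtain ⟨i₁, -, hi₁⟩ : ∃ i ∈ (Finset.univ : Finset ι), ent (A i) U ≤ E := by
    apply Finset.exists_le_of_sum_le Finset.univ_nonempty
    rw [hconst]
    exact hU1
  obtain ⟨i₂, -, hi₂⟩ : ∃ i ∈ (Finset.univ : Finset ι),
      ent (A i) H + (Real.log (Nat.card H) - Real.log (A i).card) ≤ E := by
    apply Finset.exists_le_of_sum_le Finset.univ_nonempty
    rw [hconst]
    exact hU3
  refine ⟨H, U, hUfin, hHU, hinv, hW, le_of_mul_le_mul_left hU2 hnpos, fun i => ⟨?_, ?_⟩⟩
  · exact period (hA i₂) (hA i) hK1 (hK i₂ i₂) (hK i₂ i) (hsize' i₂ i) H E (by linarith)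
  · exact cover_of_ent (hA i₁) hK1 (hK i₁ i) U E hi₁

/-- the entropy modulo a group of almost periods -/
theorem ent_of_period {A : Finset Γ} (hA : A.Nonempty) (H : AddSubgroup Γ) [Finite H] {L : ℝ}
    (hL : (((A : Set Γ) + (H : Set Γ)).ncard : ℝ) ≤ L * A.card) (hL0 : 0 < L) :
    ent A H + Real.log (Nat.card H) ≤ Real.log L + Real.log A.card := by
  have hApos : (0 : ℝ) < A.card := by exact_mod_cast hA.card_pos
  have hHpos : (0 : ℝ) < Nat.card H := by exact_mod_cast Nat.card_pos
  -- a system of representatives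
  obtain ⟨T, hTA, hTcov, hTdis⟩ : ∃ T : Finset Γ, T ⊆ A ∧ (∀ a ∈ A, ∃ t ∈ T, a - t ∈ H) ∧
      ∀ t ∈ T, ∀ t' ∈ T, t - t' ∈ H → t = t' := by
    let f : Γ → Γ ⧸ H := fun x => (x : Γ ⧸ H)
    have hch : ∀ q ∈ A.image f, ∃ a ∈ A, f a = q := fun q hq => by
      obtain ⟨a, ha, hq⟩ := Finset.mem_image.1 hq
      exact ⟨a, ha, hq⟩
    choose! s hs hs' using hch
    refine ⟨(A.image f).image s, ?_, ?_, ?_⟩
    · intro x hx
      obtain ⟨q, hq, rfl⟩ := Finset.mem_image.1 hx
      exact hs q hq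
    · intro a ha
      have hq := Finset.mem_image_of_mem f ha
      refine ⟨s (f a), Finset.mem_image_of_mem s hq, ?_⟩
      have h1 : f (s (f a)) = f a := hs' _ hq
      have h2 := QuotientAddGroup.eq.1 h1
      have e : a - s (f a) = -(s (f a)) + a := by abel
      rw [e]
      exact h2
    · intro t ht t' ht' h
      obtain ⟨q, hq, rfl⟩ := Finset.mem_image.1 ht
      obtain ⟨q', hq', rfl⟩ := Finset.mem_image.1 ht'
      have h1 : f (s q') = f (s q) := by
        apply QuotientAddGroup.eq.2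
        have e : -(s q') + s q = s q - s q' := by abel
        rw [e]
        exact h
      rw [hs' q hq, hs' q' hq'] at h1
      rw [h1]
  have hTpos : (0 : ℝ) < T.card := by
    obtain ⟨a, ha⟩ := hA
    obtain ⟨t, ht, -⟩ := hTcov a ha
    exact_mod_cast Finset.card_pos.2 ⟨t, ht⟩
  have h1 := ent_le_log hA H T hTcov
  have hfin : ((A : Set Γ) + (H : Set Γ)).Finite :=
    Set.Finite.add (Finset.finite_toSet _) (Set.toFinite _)
  have h2 : T.card * Nat.card H ≤ ((A : Set Γ) + (H : Set Γ)).ncard := by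
    have hft : Finite ((A : Set Γ) + (H : Set Γ) : Set Γ) := hfin.to_subtype
    let j : T × H → ((A : Set Γ) + (H : Set Γ) : Set Γ) := fun q =>
      ⟨(q.1 : Γ) + q.2, Set.add_mem_add (hTA q.1.2) q.2.2⟩
    have hj : Function.Injective j := by
      rintro ⟨⟨t, ht⟩, ⟨h, hh⟩⟩ ⟨⟨t', ht'⟩, ⟨h', hh'⟩⟩ he
      have h3 : t + h = t' + h' := congrArg Subtype.val he
      have h4 : t = t' := by
        apply hTdis t ht t' ht'
        have e : t - t' = h' - h := by
          rw [sub_eq_sub_iff_add_eq_add, h3, add_comm]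
        rw [e]
        exact H.sub_mem hh' hh
      subst h4
      have h5 := add_left_cancel h3
      subst h5
      rfl
    have h3 := Nat.card_le_card_of_injective j hj
    rw [Nat.card_prod, Nat.card_eq_fintype_card (α := T), Fintype.card_coe] at h3
    exact h3
  have h3 : (T.card : ℝ) * Nat.card H ≤ L * A.card := le_trans (by exact_mod_cast h2) hL
  have h4 := Real.log_le_log (by positivity) h3
  rw [Real.log_mul hTpos.ne' hHpos.ne', Real.log_mul hL0.ne' hApos.ne'] at h4
  linarith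

/-- **Theorem 1.** The canonical pair, in an arbitrary abelian group. -/
theorem canonical_pair {ι : Type*} [Fintype ι] (A : ι → Finset Γ)
    (hA : ∀ i, (A i).Nonempty) (K L D : ℝ)
    (hK : ∀ i j, ((A i + A j).card : ℝ) ≤ K * (A i).card) (hD : 0 ≤ D)
    (i₀ : ι) (H₀ U₀ : AddSubgroup Γ) (hU₀fin : Finite U₀) (hH₀U₀ : H₀ ≤ U₀)
    (hcard₀ : (Nat.card U₀ : ℝ) ≤ Real.exp D * Nat.card H₀)
    (hper₀ : (((A i₀ : Set Γ) + (H₀ : Set Γ)).ncard : ℝ) ≤ L * (A i₀).card)
    (T₀ : Finset Γ) (hT₀ : (T₀.card : ℝ) ≤ L) (hcov₀ : ∀ a ∈ A i₀, ∃ t ∈ T₀, a - t ∈ U₀) :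
    ∃ H U : AddSubgroup Γ, Finite U ∧ H ≤ U ∧
      (∀ φ : Γ ≃+ Γ, Permutes A φ → H.map φ.toAddMonoidHom = H ∧ U.map φ.toAddMonoidHom = U) ∧
      (∀ W : AddSubgroup Γ, (∀ i, ∀ a ∈ A i, ∀ b ∈ A i, a - b ∈ W) → U ≤ W) ∧
      (Nat.card U : ℝ) ≤ Real.exp (4 * D) * Nat.card H ∧
      ∀ i, (((A i : Set Γ) + (H : Set Γ)).ncard : ℝ) ≤ (2 * K * L) ^ 10 * (A i).card ∧
        ∃ T : Finset Γ, (T.card : ℝ) ≤ (2 * K * L) ^ 5 ∧ ∀ a ∈ A i, ∃ t ∈ T, a - t ∈ U := by
  have hApos : ∀ i, (0 : ℝ) < (A i).card := fun i => by exact_mod_cast (hA i).card_pos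
  have hK1 : 1 ≤ K := by
    have h1 : ((A i₀).card : ℝ) ≤ (A i₀ + A i₀).card := by
      exact_mod_cast Finset.card_le_card_add_right (hA i₀)
    have h2 := hK i₀ i₀
    have h3 := hApos i₀
    nlinarith
  have hK0 : 0 < K := by linarith
  have hT₀pos : (1 : ℝ) ≤ T₀.card := by
    obtain ⟨a, ha⟩ := hA i₀
    obtain ⟨t, ht, -⟩ := hcov₀ a ha
    exact_mod_cast Finset.card_pos.2 ⟨t, ht⟩
  have hL1 : 1 ≤ L := hT₀pos.trans hT₀
  have hL0 : 0 < L := by linarith
  have hlK : 0 ≤ Real.log K := Real.log_nonneg hK1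
  have hlL : 0 ≤ Real.log L := Real.log_nonneg hL1
  have hl2 : 0 < Real.log 2 := Real.log_pos one_lt_two
  have hH₀fin : Finite H₀ := Finite.Set.subset (U₀ : Set Γ) hH₀U₀
  have hH₀pos : (0 : ℝ) < Nat.card H₀ := by exact_mod_cast Nat.card_pos
  have hU₀pos : (0 : ℝ) < Nat.card U₀ := by exact_mod_cast Nat.card_pos
  set D' : ℝ := max D (Real.log 2 / 5) with hD'
  have hD'0 : 0 < D' := lt_of_lt_of_le (by positivity) (le_max_right _ _)
  set M : ℝ := Real.log (2 * K * L) with hM
  have hMe : M = Real.log 2 + Real.log K + Real.log L := by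
    rw [hM, Real.log_mul (by positivity) hL0.ne', Real.log_mul two_ne_zero hK0.ne']
  have hM0 : 0 < M := by rw [hMe]; linarith
  have hc : Real.log (Nat.card U₀) - Real.log (Nat.card H₀) ≤ D' := by
    have h1 := Real.log_le_log hU₀pos hcard₀
    rw [Real.log_mul (Real.exp_pos _).ne' hH₀pos.ne', Real.log_exp] at h1
    have h2 : D ≤ D' := le_max_left _ _
    linarith
  have hu : ent (A i₀) U₀ ≤ Real.log L :=
    (ent_le_log (hA i₀) U₀ T₀ hcov₀).trans (Real.log_le_log (by linarith) hT₀)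
  have hh := ent_of_period (hA i₀) H₀ hper₀ hL0
  obtain ⟨H, U, hUfin, hHU, hinv, hW, hw, hrest⟩ := canonical_pair_w A hA K hK i₀ H₀ U₀ hU₀fin
    hH₀U₀ (Real.log L) D' (M / D') (by positivity) hc hu hh
  have hHfin : Finite H := Finite.Set.subset (U : Set Γ) hHU
  have hHpos : (0 : ℝ) < Nat.card H := by exact_mod_cast Nat.card_pos
  have hUpos : (0 : ℝ) < Nat.card U := by exact_mod_cast Nat.card_pos
  have hE : 3 * Real.log K + 2 * Real.log L + M / D' * D' ≤ 4 * M := by
    rw [div_mul_cancel₀ _ hD'0.ne', hMe]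
    linarith
  have hexpE : Real.exp (3 * Real.log K + 2 * Real.log L + M / D' * D') ≤ (2 * K * L) ^ 4 := by
    have h1 : (2 * K * L) ^ 4 = Real.exp (4 * M) := by
      have h2 : (4 : ℝ) * M = Real.log ((2 * K * L) ^ 4) := by
        rw [Real.log_pow]; push_cast; rw [hM]
      rw [h2, Real.exp_log (by positivity)]
    rw [h1]
    exact Real.exp_le_exp.2 hE
  have hKM : K ≤ 2 * K * L := by nlinarith
  refine ⟨H, U, hUfin, hHU, hinv, hW, ?_, fun i => ⟨?_, ?_⟩⟩
  · have h1 : M / D' * (Real.log (Nat.card U) - Real.log (Nat.card H)) ≤ M / D' * (4 * D') := by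
      refine (hw.trans hE).trans (le_of_eq ?_)
      field_simp
    have h2 : Real.log (Nat.card U) - Real.log (Nat.card H) ≤ 4 * D' :=
      le_of_mul_le_mul_left h1 (by positivity)
    by_cases hcase : Real.log 2 / 5 ≤ D
    · have h3 : D' = D := max_eq_left hcase
      rw [h3] at h2
      have h4 : Real.log (Nat.card U) ≤ Real.log (Real.exp (4 * D) * Nat.card H) := by
        rw [Real.log_mul (Real.exp_pos _).ne' hHpos.ne', Real.log_exp]
        linarith
      exact (Real.log_le_log_iff hUpos (by positivity)).1 h4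
    · have h3 : D' = Real.log 2 / 5 := max_eq_right (not_le.1 hcase).le
      rw [h3] at h2
      have h4 : Real.log (Nat.card U) < Real.log (2 * Nat.card H) := by
        rw [Real.log_mul two_ne_zero hHpos.ne']
        linarith
      have h5 : (Nat.card U : ℝ) < 2 * Nat.card H := (Real.log_lt_log_iff hUpos (by positivity)).1 h4
      have h6 : Nat.card U < 2 * Nat.card H := by exact_mod_cast h5
      have h7 : Nat.card H ∣ Nat.card U := AddSubgroup.card_dvd_of_le hHU
      have h8 : Nat.card U = Nat.card H := by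
        obtain ⟨c, hc⟩ := h7
        have hcp : 0 < Nat.card H := Nat.card_pos
        have hcu : 0 < Nat.card U := Nat.card_pos
        have : c = 1 := by
          rcases c with _ | _ | c
          · rw [hc] at hcu; simp at hcu
          · rfl
          · exfalso
            rw [hc] at h6
            have : Nat.card H * 2 ≤ Nat.card H * (c + 1 + 1) := Nat.mul_le_mul_left _ (by omega)
            omega
        rw [hc, this, mul_one]
      rw [h8]
      have h9 : 1 ≤ Real.exp (4 * D) := Real.one_le_exp (by linarith)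
      nlinarith
  · refine (hrest i).1.trans (mul_le_mul_of_nonneg_right ?_ (Nat.cast_nonneg _))
    calc Real.exp (3 * Real.log K + 2 * Real.log L + M / D' * D') * K ^ 6 ≤
        (2 * K * L) ^ 4 * (2 * K * L) ^ 6 := by
          apply mul_le_mul hexpE (pow_le_pow_left₀ hK0.le hKM 6) (by positivity) (by positivity)
      _ = (2 * K * L) ^ 10 := by ring
  · obtain ⟨T, hT, hcov⟩ := (hrest i).2
    refine ⟨T, hT.trans ?_, hcov⟩
    calc K * Real.exp (3 * Real.log K + 2 * Real.log L + M / D' * D') ≤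
        (2 * K * L) * (2 * K * L) ^ 4 := by
          apply mul_le_mul hKM hexpE (Real.exp_pos _).le (by positivity)
      _ = (2 * K * L) ^ 5 := by ring

end Run7.h933.CAN
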