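import Pool.Agent.Run7.h933.CAN.App2
import Pool.Agent.R92.Star.Pfr
set_option autoImplicit false

/-! Q1 for sets which are almost invariant under an irreducible group. -/

open scoped Classical Pointwise
open Finset Filter

namespace Run7.h933.CAN

open Pool.Agent.Y806.DF Pool.Agent.R92.Star

/-- a set which is small, or dense in the group, satisfies the conclusion of Q1 -/
theorem concl_of_extreme (c : ℝ) : ∃ C : ℝ, ∀ (V : Type*) [AddCommGroup V] [DecidableEq V]
    (A : Finset V) (K : ℝ), A.Nonempty → ((A + A).card : ℝ) ≤ K * A.card →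
    ((A.card : ℝ) ≤ (2 * K) ^ c ∨ (Finite V ∧ (Nat.card V : ℝ) ≤ (2 * K) ^ c * A.card)) →
    Concl C K A := by
  obtain ⟨n, hn1, hnc, hn⟩ := nat_const (max (max c 1) (2 ^ (max c 1)))
  refine ⟨((5000 * n ^ 5000 : ℕ) : ℝ), fun V _ _ A K hA hK h => ?_⟩
  have hApos : (0 : ℝ) < A.card := by exact_mod_cast hA.card_pos
  have hK1 : 1 ≤ K := by
    have h1 : (A.card : ℝ) ≤ (A + A).card := by
      exact_mod_cast Finset.card_le_card_add_right hA
    nlinarith
  have h2K : (2 * K) ^ c ≤ n * K ^ n := by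
    refine le_trans ?_ (hn K hK1)
    have h1 : (2 * K) ^ c ≤ (2 * K) ^ (max c 1) :=
      Real.rpow_le_rpow_of_exponent_le (by linarith) (le_max_left _ _)
    have h2 : (2 * K) ^ (max c 1) = 2 ^ (max c 1) * K ^ (max c 1) :=
      Real.mul_rpow (by norm_num) (by linarith)
    rw [h2] at h1
    refine h1.trans (mul_le_mul (le_max_right _ _) ?_ (by positivity) (by positivity))
    exact Real.rpow_le_rpow_of_exponent_le hK1 (le_max_left _ _)
  have hnK : 1 ≤ (n : ℝ) * K ^ n := by
    have h3 : (1 : ℝ) ≤ n := by exact_mod_cast hn1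
    have h4 : 1 ≤ K ^ n := one_le_pow₀ hK1
    nlinarith
  obtain ⟨g, hg⟩ := hA
  have hX : (({0} : Finset (Fin 0 → ℤ)) + {0}).card = 1 := by simp
  have hhull : (hull ({0} : Finset (Fin 0 → ℤ))).ncard ≤ 1 := by
    have h1 : hull ({0} : Finset (Fin 0 → ℤ)) ⊆ {0} := fun x _ => Subsingleton.elim _ _
    have h2 := Set.ncard_le_ncard h1 (Set.finite_singleton _)
    simpa using h2
  rcases h with h | ⟨hfinV, h⟩
  · -- `A` is small
    refine concl_of_data (n := n) hn1 ⟨g, hg⟩ hK (d := 0) (X := {0}) (ψ := 0) (H := ⊥) (g := g) ?_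
    refine ⟨⟨0, by simp⟩, inferInstance, ?_, ?_, ?_, ?_⟩
    · rw [hX]; simpa using hnK
    · calc ((hull ({0} : Finset (Fin 0 → ℤ))).ncard : ℝ) ≤ 1 := by exact_mod_cast hhull
        _ ≤ _ := by simpa using hnK
    · have h5 : (1 : ℝ) ≤ A.card := by exact_mod_cast (Finset.card_pos.2 ⟨g, hg⟩)
      have h6 : (1 : ℝ) ≤ n * K ^ n * A.card := by nlinarith
      simpa using h6
    · set Z : Set V := {a : V | a ∈ A ∧ ∃ x ∈ ({0} : Finset (Fin 0 → ℤ)), ∃ h ∈ (⊥ : AddSubgroup V),
        a = g + (0 : (Fin 0 → ℤ) →+ V) x + h} with hZ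
      have h7 : (1 : ℝ) ≤ (Z.ncard : ℝ) := by
        have h9 : ({g} : Set V) ⊆ Z := by
          rintro x rfl
          exact ⟨hg, 0, by simp, 0, AddSubgroup.zero_mem _, by simp⟩
        have h11 : Z.Finite := (Finset.finite_toSet A).subset fun x hx => hx.1
        have h10 := Set.ncard_le_ncard h9 h11
        rw [Set.ncard_singleton] at h10
        exact_mod_cast h10
      have h8 : (A.card : ℝ) ≤ n * K ^ n := h.trans h2K
      exact h8.trans (le_mul_of_one_le_right (by linarith) h7)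
  · refine concl_of_data (n := n) hn1 ⟨g, hg⟩ hK (d := 0) (X := {0}) (ψ := 0) (H := ⊤) (g := g) ?_
    refine ⟨⟨0, by simp⟩, inferInstance, ?_, ?_, ?_, ?_⟩
    · rw [hX]; simpa using hnK
    · calc ((hull ({0} : Finset (Fin 0 → ℤ))).ncard : ℝ) ≤ 1 := by exact_mod_cast hhull
        _ ≤ _ := by simpa using hnK
    · have h6 : (Nat.card V : ℝ) ≤ n * K ^ n * A.card :=
        h.trans (mul_le_mul_of_nonneg_right h2K hApos.le)
      simpa using h6
    · set Z : Set V := {a : V | a ∈ A ∧ ∃ x ∈ ({0} : Finset (Fin 0 → ℤ)), ∃ h ∈ (⊤ : AddSubgroup V),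
        a = g + (0 : (Fin 0 → ℤ) →+ V) x + h} with hZ
      have h7 : Z.ncard = A.card := by
        have h9 : Z = (A : Set V) := by
          ext a
          constructor
          · rintro ⟨h, -⟩
            exact h
          · intro ha
            exact ⟨ha, 0, by simp, a - g, AddSubgroup.mem_top _, by simp⟩
        rw [h9, Set.ncard_coe_finset]
      rw [h7]
      nlinarith

universe u v w

/-- Q1 for sets which are almost invariant under an irreducible group: elementary groups, uniformly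
in `p` -/
theorem q1_irreducible (η : ℝ) (hη0 : 0 < η) (hη1 : η ≤ 1) : ∃ C : ℝ,
    ∀ (p : ℕ) (V : Type u) (Φ : Type v) [AddCommGroup V] [Finite V] [Group Φ] [Fintype Φ]
      [DistribMulAction Φ V] (A : Finset V) (K : ℝ), p.Prime → (∀ x : V, p • x = 0) →
    (∀ N : AddSubgroup V, (∀ (φ : Φ), ∀ x ∈ N, φ • x ∈ N) → N = ⊥ ∨ N = ⊤) →
    A.Nonempty → ((A + A).card : ℝ) ≤ K * A.card →
    Fintype.card Φ <
      2 * (univ.filter fun φ : Φ => ((A + A.image (φ • ·)).card : ℝ) ≤ K * A.card).card →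
    10 ^ 13 / η * (Real.log (2 * K) + Real.log (2 * K) ^ (1 + η) / Real.log p) * Real.log p <
      Real.log (Nat.card V) → Concl C K A := by
  obtain ⟨C, hC⟩ := concl_of_extreme.{u} (10 ^ 13 / η)
  refine ⟨C, fun p V Φ _ _ _ _ _ A K hp htor hirr hA hK hK' hdim => ?_⟩
  have hcan := window_sq (Φ := Φ) η hη0 hη1 p p hp.two_le hp.pos
    (fun q hq hqp => ((Nat.prime_dvd_prime_iff_eq hq hp).1 hqp).symm.le) htor A hA K hK'
  rcases hcan.irreducible hirr hA with h | h | h
  · exact hC V A K hA hK (Or.inl h)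
  · exact hC V A K hA hK (Or.inr ⟨inferInstance, h⟩)
  · exfalso
    have h1 : (0 : ℝ) < Nat.card V := by exact_mod_cast Nat.card_pos
    have h2 := Real.log_le_log h1 h
    rw [Real.log_exp] at h2
    linarith

/-- Q1 for sets which are almost invariant under an irreducible group: characteristic 0 -/
theorem q1_irreducible0 : ∃ C : ℝ,
    ∀ (F : Type u) (V : Type v) (Φ : Type w) [Field F] [CharZero F] [AddCommGroup V] [Module F V]
      [Group Φ] [Fintype Φ] [DistribMulAction Φ V] [SMulCommClass Φ F V] (A : Finset V) (K : ℝ),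
    (∀ U : Submodule F V, (∀ (φ : Φ), ∀ x ∈ U, φ • x ∈ U) → U = ⊥ ∨ U = ⊤) →
    A.Nonempty → ((A + A).card : ℝ) ≤ K * A.card →
    Fintype.card Φ <
      2 * (univ.filter fun φ : Φ => ((A + A.image (φ • ·)).card : ℝ) ≤ K * A.card).card →
    3 * K ^ 1334 < Real.exp (Module.finrank F V) → Concl C K A := by
  obtain ⟨C, hC⟩ := concl_of_extreme.{v} 1334
  refine ⟨C, fun F V Φ _ _ _ _ _ _ _ _ A K hirr hA hK hK' hdim => ?_⟩
  rcases irreducible0 hirr A hA K hK' with h | h
  · have hApos : (0 : ℝ) < A.card := by exact_mod_cast hA.card_pos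
    have hK1 : 1 ≤ K := by
      have h1 : (A.card : ℝ) ≤ (A + A).card := by
        exact_mod_cast Finset.card_le_card_add_right hA
      nlinarith
    refine hC V A K hA hK (Or.inl (h.trans ?_))
    rw [Real.mul_rpow (by norm_num) (by linarith)]
    have h1 : (K : ℝ) ^ (1334 : ℝ) = K ^ 1334 := by
      rw [← Real.rpow_natCast]; norm_num
    rw [h1]
    apply mul_le_mul_of_nonneg_right _ (by positivity)
    calc (3 : ℝ) ≤ 2 ^ (2 : ℝ) := by norm_num
      _ ≤ 2 ^ (1334 : ℝ) := Real.rpow_le_rpow_of_exponent_le (by norm_num) (by norm_num)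
  · exfalso
    linarith

end Run7.h933.CAN
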