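import Mathlib
set_option autoImplicit false

/-! The entropy of a finite set modulo a subgroup, by counting; submodularity. -/

open scoped Classical Pointwise
open Finset

namespace Run7.h933.CAN

variable {Γ : Type*} [AddCommGroup Γ]

/-- the number of the elements of `A` congruent to `a` modulo `N` -/
noncomputable def cnt (A : Finset Γ) (N : AddSubgroup Γ) (a : Γ) : ℕ :=
  (A.filter (fun b => b - a ∈ N)).card

/-- the entropy modulo `N` of the uniform distribution on `A` -/
noncomputable def ent (A : Finset Γ) (N : AddSubgroup Γ) : ℝ :=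
  (∑ a ∈ A, Real.log ((A.card : ℝ) / cnt A N a)) / A.card

theorem cnt_pos {A : Finset Γ} (N : AddSubgroup Γ) {a : Γ} (ha : a ∈ A) : 0 < cnt A N a := by
  unfold cnt
  rw [Finset.card_pos]
  exact ⟨a, by simp [ha]⟩

theorem cnt_le (A : Finset Γ) (N : AddSubgroup Γ) (a : Γ) : cnt A N a ≤ A.card :=
  Finset.card_filter_le _ _

theorem cnt_congr (A : Finset Γ) (N : AddSubgroup Γ) {a b : Γ} (h : b - a ∈ N) :
    cnt A N a = cnt A N b := by
  unfold cnt
  congr 1
  apply Finset.filter_congr
  intro x _
  constructor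
  · intro hx
    have := N.sub_mem hx h
    have e : x - a - (b - a) = x - b := by abel
    rwa [e] at this
  · intro hx
    have := N.add_mem hx h
    have e : x - b + (b - a) = x - a := by abel
    rwa [e] at this

theorem ent_nonneg (A : Finset Γ) (N : AddSubgroup Γ) : 0 ≤ ent A N := by
  unfold ent
  apply div_nonneg _ (Nat.cast_nonneg _)
  apply Finset.sum_nonneg
  intro a ha
  apply Real.log_nonneg
  have h1 := cnt_pos N ha
  rw [le_div_iff₀ (by exact_mod_cast h1), one_mul]
  exact_mod_cast cnt_le A N a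

/-- double counting: the sum of the weights is at most `|A|`. -/
theorem sum_weight_le (A : Finset Γ) (N N' : AddSubgroup Γ) :
    ∑ a ∈ A, ((cnt A N a : ℝ) * cnt A N' a) / (cnt A (N ⊓ N') a * cnt A (N ⊔ N') a) ≤ A.card := by
  have key : ∀ a ∈ A, ((cnt A N a : ℝ) * cnt A N' a) / (cnt A (N ⊓ N') a * cnt A (N ⊔ N') a) =
      ∑ b ∈ A, ∑ c ∈ A, if (b - a ∈ N ∧ c - a ∈ N') then
        ((cnt A (N ⊓ N') a : ℝ) * cnt A (N ⊔ N') a)⁻¹ else 0 := by
    intro a _
    have h1 : (cnt A N a : ℝ) = ∑ b ∈ A, if b - a ∈ N then (1 : ℝ) else 0 := by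
      unfold cnt; rw [Finset.card_filter]; push_cast; rfl
    have h2 : (cnt A N' a : ℝ) = ∑ c ∈ A, if c - a ∈ N' then (1 : ℝ) else 0 := by
      unfold cnt; rw [Finset.card_filter]; push_cast; rfl
    rw [div_eq_mul_inv, h1, h2, Finset.sum_mul_sum, Finset.sum_mul]
    refine Finset.sum_congr rfl fun b _ => ?_
    rw [Finset.sum_mul]
    refine Finset.sum_congr rfl fun c _ => ?_
    by_cases hb : b - a ∈ N <;> by_cases hc : c - a ∈ N' <;> simp [hb, hc]
  rw [Finset.sum_congr rfl key, Finset.sum_comm]
  have key2 : ∀ b ∈ A, ∑ a ∈ A, ∑ c ∈ A, (if (b - a ∈ N ∧ c - a ∈ N') then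
        ((cnt A (N ⊓ N') a : ℝ) * cnt A (N ⊔ N') a)⁻¹ else 0) ≤ 1 := by
    intro b hb
    rw [Finset.sum_comm]
    have key3 : ∀ c ∈ A, ∑ a ∈ A, (if (b - a ∈ N ∧ c - a ∈ N') then
        ((cnt A (N ⊓ N') a : ℝ) * cnt A (N ⊔ N') a)⁻¹ else 0) ≤
        if c - b ∈ N ⊔ N' then ((cnt A (N ⊔ N') b : ℝ))⁻¹ else 0 := by
      intro c hc
      rw [← Finset.sum_filter]
      set S := A.filter (fun a => b - a ∈ N ∧ c - a ∈ N') with hS
      rcases S.eq_empty_or_nonempty with h0 | ⟨a, ha⟩
      · rw [h0, Finset.sum_empty]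
        split_ifs
        · positivity
        · exact le_rfl
      · have ha' := Finset.mem_filter.1 ha
        have hcb : c - b ∈ N ⊔ N' := by
          have e : c - b = -(b - a) + (c - a) := by abel
          rw [e]
          exact AddSubgroup.add_mem _ (AddSubgroup.neg_mem _
            ((le_sup_left : N ≤ N ⊔ N') ha'.2.1)) ((le_sup_right : N' ≤ N ⊔ N') ha'.2.2)
        rw [if_pos hcb]
        have hSc : (S.card : ℝ) = cnt A (N ⊓ N') a := by
          unfold cnt
          congr 2
          rw [hS]
          apply Finset.filter_congr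
          intro x _
          rw [AddSubgroup.mem_inf]
          constructor
          · rintro ⟨h1, h2⟩
            constructor
            · have := N.sub_mem ha'.2.1 h1
              have e : b - a - (b - x) = x - a := by abel
              rwa [e] at this
            · have := N'.sub_mem ha'.2.2 h2
              have e : c - a - (c - x) = x - a := by abel
              rwa [e] at this
          · rintro ⟨h1, h2⟩
            constructor
            · have := N.sub_mem ha'.2.1 h1
              have e : b - a - (x - a) = b - x := by abel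
              rwa [e] at this
            · have := N'.sub_mem ha'.2.2 h2
              have e : c - a - (x - a) = c - x := by abel
              rwa [e] at this
        have hconst : ∀ x ∈ S, ((cnt A (N ⊓ N') x : ℝ) * cnt A (N ⊔ N') x)⁻¹ =
            ((cnt A (N ⊓ N') a : ℝ) * cnt A (N ⊔ N') b)⁻¹ := by
          intro x hx
          have hx' := Finset.mem_filter.1 hx
          have e1 : cnt A (N ⊓ N') a = cnt A (N ⊓ N') x := by
            apply cnt_congr
            rw [AddSubgroup.mem_inf]
            constructor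
            · have := N.sub_mem ha'.2.1 hx'.2.1
              have e : b - a - (b - x) = x - a := by abel
              rwa [e] at this
            · have := N'.sub_mem ha'.2.2 hx'.2.2
              have e : c - a - (c - x) = x - a := by abel
              rwa [e] at this
          have e2 : cnt A (N ⊔ N') x = cnt A (N ⊔ N') b := by
            apply cnt_congr
            exact (le_sup_left : N ≤ N ⊔ N') hx'.2.1
          rw [e1, e2]
        rw [Finset.sum_congr rfl hconst, Finset.sum_const, nsmul_eq_mul, hSc, mul_inv,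
          ← mul_assoc, mul_inv_cancel₀, one_mul]
        have := cnt_pos (N ⊓ N') ha'.1
        exact_mod_cast this.ne'
    refine (Finset.sum_le_sum key3).trans ?_
    rw [← Finset.sum_filter, Finset.sum_const, nsmul_eq_mul]
    have hpos := cnt_pos (N ⊔ N') hb
    have : ((A.filter (fun c => c - b ∈ N ⊔ N')).card : ℝ) = cnt A (N ⊔ N') b := rfl
    rw [this, mul_inv_cancel₀]
    exact_mod_cast hpos.ne'
  refine (Finset.sum_le_sum key2).trans ?_
  simp

/-- **Submodularity** of the entropy modulo a subgroup. -/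
theorem ent_submod (A : Finset Γ) (N N' : AddSubgroup Γ) :
    ent A (N ⊓ N') + ent A (N ⊔ N') ≤ ent A N + ent A N' := by
  rcases A.eq_empty_or_nonempty with h0 | hA
  · subst h0; simp [ent]
  have hpos : (0 : ℝ) < A.card := by exact_mod_cast hA.card_pos
  have key : ∀ a ∈ A, Real.log ((A.card : ℝ) / cnt A (N ⊓ N') a) +
      Real.log ((A.card : ℝ) / cnt A (N ⊔ N') a) - Real.log ((A.card : ℝ) / cnt A N a) -
      Real.log ((A.card : ℝ) / cnt A N' a) ≤
      ((cnt A N a : ℝ) * cnt A N' a) / (cnt A (N ⊓ N') a * cnt A (N ⊔ N') a) - 1 := by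
    intro a ha
    have h1 : (0 : ℝ) < cnt A N a := by exact_mod_cast cnt_pos N ha
    have h2 : (0 : ℝ) < cnt A N' a := by exact_mod_cast cnt_pos N' ha
    have h3 : (0 : ℝ) < cnt A (N ⊓ N') a := by exact_mod_cast cnt_pos (N ⊓ N') ha
    have h4 : (0 : ℝ) < cnt A (N ⊔ N') a := by exact_mod_cast cnt_pos (N ⊔ N') ha
    have h5 := Real.log_le_sub_one_of_pos
      (x := ((cnt A N a : ℝ) * cnt A N' a) / (cnt A (N ⊓ N') a * cnt A (N ⊔ N') a))
      (by positivity)
    rw [Real.log_div (by positivity) (by positivity), Real.log_mul h1.ne' h2.ne',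
      Real.log_mul h3.ne' h4.ne'] at h5
    rw [Real.log_div hpos.ne' h3.ne', Real.log_div hpos.ne' h4.ne', Real.log_div hpos.ne' h1.ne',
      Real.log_div hpos.ne' h2.ne']
    linarith
  have hsum := Finset.sum_le_sum key
  rw [Finset.sum_sub_distrib, Finset.sum_sub_distrib, Finset.sum_add_distrib,
    Finset.sum_sub_distrib, Finset.sum_const, nsmul_eq_mul, mul_one] at hsum
  have hw := sum_weight_le A N N'
  unfold ent
  rw [← add_div, ← add_div]
  apply div_le_div_of_nonneg_right _ hpos.le
  linarith

/-- translation and automorphisms -/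
theorem ent_map {Γ' : Type*} [AddCommGroup Γ'] (A : Finset Γ) (A' : Finset Γ') (φ : Γ ≃+ Γ')
    (c : Γ') (h : ∀ x, x ∈ A ↔ φ x + c ∈ A') (N : AddSubgroup Γ) :
    ent A' (N.map φ.toAddMonoidHom) = ent A N := by
  have hA' : A' = A.image (fun x => φ x + c) := by
    ext y
    rw [Finset.mem_image]
    constructor
    · intro hy
      refine ⟨φ.symm (y - c), (h _).2 (by simpa using hy), by simp⟩
    · rintro ⟨x, hx, rfl⟩
      exact (h x).1 hx
  have hinj : Function.Injective (fun x : Γ => φ x + c) := by
    intro x y hxy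
    simpa using hxy
  have hcard : A'.card = A.card := by rw [hA', Finset.card_image_of_injective _ hinj]
  have hmem : ∀ x : Γ, φ x ∈ N.map φ.toAddMonoidHom ↔ x ∈ N := by
    intro x
    rw [AddSubgroup.mem_map]
    constructor
    · rintro ⟨y, hy, hxy⟩
      have : y = x := φ.injective hxy
      rwa [← this]
    · intro hx
      exact ⟨x, hx, rfl⟩
  have hcnt : ∀ a, cnt A' (N.map φ.toAddMonoidHom) (φ a + c) = cnt A N a := by
    intro a
    unfold cnt
    rw [hA', Finset.filter_image, Finset.card_image_of_injective _ hinj]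
    congr 1
    apply Finset.filter_congr
    intro b _
    have e : φ b + c - (φ a + c) = φ (b - a) := by rw [map_sub]; abel
    rw [e, hmem]
  unfold ent
  rw [hcard]
  congr 1
  conv_lhs => rw [hA']
  rw [Finset.sum_image (fun x _ y _ hxy => hinj hxy)]
  exact Finset.sum_congr rfl fun a _ => by rw [← hA', hcnt]

/-- only the differences of elements of `A` matter -/
theorem ent_inf (A : Finset Γ) (N W : AddSubgroup Γ) (hW : ∀ a ∈ A, ∀ b ∈ A, a - b ∈ W) :
    ent A (N ⊓ W) = ent A N := by
  unfold ent
  congr 1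
  refine Finset.sum_congr rfl fun a ha => ?_
  have : cnt A (N ⊓ W) a = cnt A N a := by
    unfold cnt
    congr 1
    apply Finset.filter_congr
    intro b hb
    rw [AddSubgroup.mem_inf]
    exact ⟨fun h => h.1, fun h => ⟨h, hW b hb a ha⟩⟩
  rw [this]

/-- the entropy is at most the logarithm of the number of cosets in a cover -/
theorem ent_le_log {A : Finset Γ} (hA : A.Nonempty) (N : AddSubgroup Γ) (T : Finset Γ)
    (hT : ∀ a ∈ A, ∃ t ∈ T, a - t ∈ N) : ent A N ≤ Real.log T.card := by
  have hpos : (0 : ℝ) < A.card := by exact_mod_cast hA.card_pos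
  have hTpos : (0 : ℝ) < T.card := by
    obtain ⟨a, ha⟩ := hA
    obtain ⟨t, ht, -⟩ := hT a ha
    exact_mod_cast Finset.card_pos.2 ⟨t, ht⟩
  have h1 : ∑ a ∈ A, ((cnt A N a : ℝ))⁻¹ ≤ T.card := by
    have h2 : ∀ a ∈ A, ((cnt A N a : ℝ))⁻¹ ≤ ∑ t ∈ T, if a - t ∈ N then ((cnt A N a : ℝ))⁻¹ else 0 := by
      intro a ha
      obtain ⟨t, ht, hat⟩ := hT a ha
      have := Finset.single_le_sum (f := fun t => if a - t ∈ N then ((cnt A N a : ℝ))⁻¹ else 0)
        (fun t _ => by split_ifs <;> positivity) ht
      simpa [hat] using this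
    refine (Finset.sum_le_sum h2).trans ?_
    rw [Finset.sum_comm]
    have h3 : ∀ t ∈ T, ∑ a ∈ A, (if a - t ∈ N then ((cnt A N a : ℝ))⁻¹ else 0) ≤ 1 := by
      intro t _
      rw [← Finset.sum_filter]
      rcases (A.filter (fun a => a - t ∈ N)).eq_empty_or_nonempty with h0 | ⟨a, ha⟩
      · rw [h0, Finset.sum_empty]; exact zero_le_one
      · have ha' := Finset.mem_filter.1 ha
        have h4 : ∀ x ∈ A.filter (fun a => a - t ∈ N), ((cnt A N x : ℝ))⁻¹ =
            ((A.filter (fun a => a - t ∈ N)).card : ℝ)⁻¹ := by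
          intro x hx
          have hx' := Finset.mem_filter.1 hx
          have h5 : cnt A N t = cnt A N x := cnt_congr A N hx'.2
          rw [← h5]
          rfl
        rw [Finset.sum_congr rfl h4, Finset.sum_const, nsmul_eq_mul, mul_inv_cancel₀]
        exact_mod_cast (Finset.card_pos.2 ⟨a, ha⟩).ne'
    refine (Finset.sum_le_sum h3).trans ?_
    simp
  have h2 : ∀ a ∈ A, Real.log ((A.card : ℝ) / cnt A N a) ≤
      Real.log T.card + ((A.card : ℝ) / T.card * ((cnt A N a : ℝ))⁻¹ - 1) := by
    intro a ha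
    have hc : (0 : ℝ) < cnt A N a := by exact_mod_cast cnt_pos N ha
    have h3 := Real.log_le_sub_one_of_pos (x := (A.card : ℝ) / (T.card * cnt A N a))
      (by positivity)
    rw [Real.log_div hpos.ne' (by positivity), Real.log_mul hTpos.ne' hc.ne'] at h3
    rw [Real.log_div hpos.ne' hc.ne']
    have e : (A.card : ℝ) / (T.card * cnt A N a) = (A.card : ℝ) / T.card * ((cnt A N a : ℝ))⁻¹ := by
      field_simp
    rw [e] at h3
    linarith
  have h3 := Finset.sum_le_sum h2
  rw [Finset.sum_add_distrib, Finset.sum_sub_distrib, ← Finset.mul_sum, Finset.sum_const,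
    Finset.sum_const, nsmul_eq_mul, nsmul_eq_mul, mul_one] at h3
  have h4 : (A.card : ℝ) / T.card * ∑ a ∈ A, ((cnt A N a : ℝ))⁻¹ ≤ A.card := by
    calc (A.card : ℝ) / T.card * ∑ a ∈ A, ((cnt A N a : ℝ))⁻¹ ≤ (A.card : ℝ) / T.card * T.card :=
          mul_le_mul_of_nonneg_left h1 (by positivity)
      _ = A.card := by field_simp
  unfold ent
  rw [div_le_iff₀ hpos]
  linarith

/-- the entropy is at least `log |A| - log |N|` -/
theorem log_card_le_ent {A : Finset Γ} (hA : A.Nonempty) (N : AddSubgroup Γ) [Finite N] :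
    Real.log A.card - Real.log (Nat.card N) ≤ ent A N := by
  have hpos : (0 : ℝ) < A.card := by exact_mod_cast hA.card_pos
  have hN : (0 : ℝ) < Nat.card N := by exact_mod_cast Nat.card_pos
  have h1 : ∀ a ∈ A, Real.log A.card - Real.log (Nat.card N) ≤
      Real.log ((A.card : ℝ) / cnt A N a) := by
    intro a ha
    have hc : (0 : ℝ) < cnt A N a := by exact_mod_cast cnt_pos N ha
    have hcN : cnt A N a ≤ Nat.card N := by
      have hfin : (N : Set Γ).Finite := Set.toFinite _
      have h2 : cnt A N a ≤ hfin.toFinset.card := by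
        unfold cnt
        apply Finset.card_le_card_of_injOn (fun x => x - a)
        · intro x hx
          have := (Finset.mem_filter.1 hx).2
          simpa using this
        · intro x _ y _ hxy
          simpa using hxy
      rwa [← Set.ncard_eq_toFinset_card _ hfin] at h2
    rw [Real.log_div hpos.ne' hc.ne']
    have := Real.log_le_log hc (by exact_mod_cast hcN : (cnt A N a : ℝ) ≤ Nat.card N)
    linarith
  have h2 := Finset.sum_le_sum h1
  rw [Finset.sum_const, nsmul_eq_mul] at h2
  unfold ent
  rw [le_div_iff₀ hpos]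
  linarith

/-- a popular coset -/
theorem exists_popular {A : Finset Γ} (hA : A.Nonempty) (N : AddSubgroup Γ) :
    ∃ a ∈ A, (A.card : ℝ) ≤ Real.exp (ent A N) * cnt A N a := by
  have hpos : (0 : ℝ) < A.card := by exact_mod_cast hA.card_pos
  obtain ⟨a, ha, hmin⟩ := Finset.exists_min_image A
    (fun a => Real.log ((A.card : ℝ) / cnt A N a)) hA
  refine ⟨a, ha, ?_⟩
  have hc : (0 : ℝ) < cnt A N a := by exact_mod_cast cnt_pos N ha
  have h1 : Real.log ((A.card : ℝ) / cnt A N a) ≤ ent A N := by
    unfold ent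
    rw [le_div_iff₀ hpos]
    calc Real.log ((A.card : ℝ) / cnt A N a) * A.card = ∑ _b ∈ A, Real.log ((A.card : ℝ) / cnt A N a) := by
          rw [Finset.sum_const, nsmul_eq_mul, mul_comm]
      _ ≤ _ := Finset.sum_le_sum hmin
  have h2 := (Real.log_le_iff_le_exp (by positivity)).1 h1
  rwa [div_le_iff₀ hc] at h2

end Run7.h933.CAN
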