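import Pool.Agent.Run7.h933.CAN.Fin
import Pool.Agent.TH404.Tor.Final
set_option autoImplicit false

/-! Bounded exponent: canonical and equivariant forms of Marton's conjecture. -/

open scoped Classical Pointwise
open Finset Filter

namespace Run7.h933.CAN

/-- Marton's conjecture for groups of bounded exponent, without additional constants. -/
theorem marton {Γ : Type*} [AddCommGroup Γ] (m : ℕ) (hm : 0 < m)
    (htor : ∀ x : Γ, m • x = 0) (K : ℝ) (A : Finset Γ) (hA : A.Nonempty)
    (hK : ((A + A).card : ℝ) ≤ K * (A.card : ℝ)) :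
    ∃ (H : AddSubgroup Γ) (T : Finset Γ), Finite H ∧
      (Nat.card H : ℝ) ≤ K ^ (20502 * (Nat.log 2 m + 1)) * A.card ∧
      (T.card : ℝ) ≤ K ^ (20502 * (Nat.log 2 m + 1) + 1) ∧ ∀ a ∈ A, ∃ t ∈ T, a - t ∈ H := by
  set t := Nat.log 2 m + 1 with ht
  have hmt : m ≤ 2 ^ t := (Nat.lt_pow_succ_log_self (by norm_num) m).le
  have ht1 : 1 ≤ t := by omega
  have : NeZero m := ⟨hm.ne'⟩
  set V := AddSubgroup.closure (A : Set Γ) with hV
  have hfin : Finite V := Pool.Agent.TH404.Tor.closure_finite m hm htor A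
  have hft : Fintype V := Fintype.ofFinite V
  let _ : Module (ZMod m) V := AddCommGroup.zmodModule (fun x => Subtype.ext (by simp [htor]))
  set A₁ : Finset V := A.preimage (fun v : V => (v : Γ)) Subtype.val_injective.injOn with hA₁
  have hmap : A₁.map ⟨fun v : V => (v : Γ), Subtype.val_injective⟩ = A := by
    ext a
    simp only [hA₁, Finset.mem_map, Finset.mem_preimage, Function.Embedding.coeFn_mk]
    constructor
    · rintro ⟨v, hv, rfl⟩
      exact hv
    · intro ha
      exact ⟨⟨a, AddSubgroup.subset_closure ha⟩, ha, rfl⟩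
  have hcard : A₁.card = A.card := by rw [← hmap, Finset.card_map]
  have hcard2 : (A₁ + A₁).card = (A + A).card := by
    have h1 : (A₁ + A₁).image (fun v : V => (v : Γ)) = A + A := by
      have h2 : A = A₁.image (fun v : V => (v : Γ)) := by
        rw [← hmap, Finset.map_eq_image]; rfl
      have h3 : (A₁ + A₁).image (V.subtype) = A₁.image V.subtype + A₁.image V.subtype :=
        Finset.image_add V.subtype
      have h4 : (V.subtype : V → Γ) = fun v : V => (v : Γ) := rfl
      rw [h4, ← h2] at h3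
      exact h3
    rw [← h1, Finset.card_image_of_injective _ Subtype.val_injective]
  have hA₁ne : A₁.Nonempty := by
    rw [← Finset.card_pos, hcard]
    exact hA.card_pos
  obtain ⟨G, T₁, hG, hT₁, hcov⟩ := Pool.Agent.TH404.Tor.finite_case' m t ht1 hmt K A₁ hA₁ne (by
    rw [hcard, hcard2]
    exact hK)
  have hGfin : Finite G := inferInstance
  have hG'card : Nat.card (G.map V.subtype) = Nat.card G :=
    Nat.card_congr (G.equivMapOfInjective V.subtype Subtype.val_injective).symm.toEquiv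
  have hG'fin : Finite (G.map V.subtype) := Finite.of_equiv G
    (G.equivMapOfInjective V.subtype Subtype.val_injective).toEquiv
  refine ⟨G.map V.subtype, T₁.image (fun v : V => (v : Γ)), hG'fin, ?_, ?_, ?_⟩
  · rw [hG'card, ← hcard]
    exact hG
  · have h2 : (T₁.image (fun v : V => (v : Γ))).card ≤ T₁.card := Finset.card_image_le
    exact le_trans (by exact_mod_cast h2) hT₁
  · intro a ha
    have ha1 : (⟨a, AddSubgroup.subset_closure ha⟩ : V) ∈ A₁ := by
      rw [hA₁, Finset.mem_preimage]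
      exact ha
    obtain ⟨x, hx, hxG⟩ := hcov _ ha1
    exact ⟨x, Finset.mem_image_of_mem _ hx, _, hxG, rfl⟩

/-- the exponent -/
def E (m : ℕ) : ℕ := 61506 * (Nat.log 2 m + 1) + 7

/-- **Theorem A.** -/
theorem canonical {Γ : Type*} [AddCommGroup Γ] (m : ℕ) (hm : 0 < m) (htor : ∀ x : Γ, m • x = 0)
    {ι : Type*} [Fintype ι] [Nonempty ι] (A : ι → Finset Γ) (hA : ∀ i, (A i).Nonempty) (K : ℝ)
    (hK : ∀ i j, ((A i + A j).card : ℝ) ≤ K * (A i).card) :
    ∃ N : AddSubgroup Γ, Finite N ∧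
      (∀ φ : Γ ≃+ Γ, Permutes A φ → N.map φ.toAddMonoidHom = N) ∧
      (∀ W : AddSubgroup Γ, (∀ i, ∀ a ∈ A i, ∀ b ∈ A i, a - b ∈ W) → N ≤ W) ∧
      ∀ i, (Nat.card N : ℝ) ≤ K ^ E m * (A i).card ∧
        ∃ T : Finset Γ, (T.card : ℝ) ≤ K ^ E m ∧ ∀ a ∈ A i, ∃ t ∈ T, a - t ∈ N := by
  obtain ⟨i₀⟩ := (inferInstance : Nonempty ι)
  have hK1 : 1 ≤ K := by
    have h0 : (0 : ℝ) < (A i₀).card := by exact_mod_cast (hA i₀).card_pos
    have h1 : ((A i₀).card : ℝ) ≤ (A i₀ + A i₀).card := by
      exact_mod_cast Finset.card_le_card_add_right (hA i₀)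
    have h2 := hK i₀ i₀
    nlinarith
  obtain ⟨H, T, hH, hHc, hT, hcov⟩ := marton m hm htor K (A i₀) (hA i₀) (hK i₀ i₀)
  obtain ⟨N, hN, hinv, hW, hN'⟩ := canon A hA K (K ^ (20502 * (Nat.log 2 m + 1) + 1)) hK i₀ H hH
    (hHc.trans (mul_le_mul_of_nonneg_right
      (pow_le_pow_right₀ hK1 (Nat.le_succ _)) (Nat.cast_nonneg _))) T hT hcov
  have he : K ^ 4 * (K ^ (20502 * (Nat.log 2 m + 1) + 1)) ^ 3 = K ^ E m := by
    have h1 : E m = 4 + (20502 * (Nat.log 2 m + 1) + 1) * 3 := by unfold E; omega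
    rw [h1, ← pow_mul K (20502 * (Nat.log 2 m + 1) + 1) 3, ← pow_add K 4]
  rw [he] at hN'
  exact ⟨N, hN, hinv, hW, hN'⟩

/-- the bound for the size of the sumset, with classical decidability -/
def CardLE {Γ : Type*} [AddCommGroup Γ] (A : Finset Γ) (f : Γ → Γ) (X : ℝ) : Prop :=
  ((A + A.image f).card : ℝ) ≤ X

theorem cardLE_of {Γ : Type*} [AddCommGroup Γ] [d : DecidableEq Γ] {A : Finset Γ} {f : Γ → Γ}
    {X : ℝ} (h : ((A + A.image f).card : ℝ) ≤ X) : CardLE A f X := by
  have hd : d = (fun a b => Classical.propDecidable (a = b)) := Subsingleton.elim _ _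
  subst hd
  exact h

/-- the hypothesis about more than half of the group, with classical decidability -/
def HalfC (Φ : Type*) {Γ : Type*} [AddCommGroup Γ] [Group Φ] [Fintype Φ] [DistribMulAction Φ Γ]
    (A : Finset Γ) (K : ℝ) : Prop :=
  Fintype.card Φ <
    2 * (univ.filter fun φ : Φ => ((A + A.image (φ • ·)).card : ℝ) ≤ K * A.card).card

theorem halfC_of {Φ Γ : Type*} [AddCommGroup Γ] [d : DecidableEq Γ] [Group Φ] [Fintype Φ]
    [DistribMulAction Φ Γ] {A : Finset Γ} {K : ℝ} (h : Fintype.card Φ <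
      2 * (univ.filter fun φ : Φ => ((A + A.image (φ • ·)).card : ℝ) ≤ K * A.card).card) :
    HalfC Φ A K := by
  have hd : d = (fun a b => Classical.propDecidable (a = b)) := Subsingleton.elim _ _
  subst hd
  exact h

/-- generic approximate invariance implies approximate invariance -/
theorem generic {Γ Φ : Type*} [AddCommGroup Γ] [Group Φ] [Fintype Φ] [DistribMulAction Φ Γ]
    (A : Finset Γ) (hA : A.Nonempty) (K : ℝ)
    (hK : Fintype.card Φ <
      2 * (univ.filter fun φ : Φ => ((A + A.image (φ • ·)).card : ℝ) ≤ K * A.card).card)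
    (φ : Φ) : ((A + A.image (φ • ·)).card : ℝ) ≤ K ^ 2 * A.card := by
  have hpos : (0 : ℝ) < A.card := by exact_mod_cast hA.card_pos
  set S := univ.filter fun φ : Φ => ((A + A.image (φ • ·)).card : ℝ) ≤ K * A.card with hS
  -- `φ = ψ χ⁻¹` with `ψ`, `χ` in `S`
  obtain ⟨χ, hχ, hφχ⟩ : ∃ χ ∈ S, φ * χ ∈ S := by
    by_contra hcon
    push Not at hcon
    have h1 : Disjoint S (S.image (fun χ => φ * χ)) := by
      rw [Finset.disjoint_right]
      intro x hx
      obtain ⟨χ, hχ, rfl⟩ := Finset.mem_image.1 hx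
      exact hcon χ hχ
    have h2 := Finset.card_union_of_disjoint h1
    rw [Finset.card_image_of_injective _ (mul_right_injective φ)] at h2
    have h3 : (S ∪ S.image (fun χ => φ * χ)).card ≤ Fintype.card Φ := Finset.card_le_univ _
    omega
  have himg : ∀ (φ : Φ) (X Y : Finset Γ), (X + Y).image (φ • ·) =
      X.image (φ • ·) + Y.image (φ • ·) := by
    intro φ X Y
    exact Finset.image_add (DistribSMul.toAddMonoidHom Γ φ)
  have hinj : ∀ φ : Φ, Function.Injective (fun x : Γ => φ • x) := fun φ =>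
    MulAction.injective φ
  have h1 : ((A + A.image ((φ * χ) • ·)).card : ℝ) ≤ K * A.card := (Finset.mem_filter.1 hφχ).2
  have h2 : ((A + A.image (χ • ·)).card : ℝ) ≤ K * A.card := (Finset.mem_filter.1 hχ).2
  have h3 : (A.image (φ • ·) + A.image ((φ * χ) • ·)).card = (A + A.image (χ • ·)).card := by
    have e : A.image ((φ * χ) • ·) = (A.image (χ • ·)).image (φ • ·) := by
      rw [Finset.image_image]
      congr 1
      ext x
      simp [mul_smul]
    rw [e, ← himg, Finset.card_image_of_injective _ (hinj φ)]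
  have h4 := Finset.ruzsa_triangle_inequality_add_add_add A (A.image ((φ * χ) • ·))
    (A.image (φ • ·))
  rw [Finset.card_image_of_injective _ (hinj _), add_comm (A.image ((φ * χ) • ·)), h3] at h4
  have h5 : ((A + A.image (φ • ·)).card : ℝ) * A.card ≤
      (A + A.image ((φ * χ) • ·)).card * (A + A.image (χ • ·)).card := by exact_mod_cast h4
  have h6 : ((A + A.image ((φ * χ) • ·)).card : ℝ) * (A + A.image (χ • ·)).card ≤
      (K * A.card) * (K * A.card) := by
    apply mul_le_mul h1 h2 (Nat.cast_nonneg _)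
    exact le_trans (Nat.cast_nonneg _) h1
  have h7 : ((A + A.image (φ • ·)).card : ℝ) * A.card ≤ (K ^ 2 * A.card) * A.card := by
    calc _ ≤ (K * A.card) * (K * A.card) := h5.trans h6
      _ = _ := by ring
  exact le_of_mul_le_mul_right h7 hpos

/-- **Theorem B.** The equivariant form of Marton's conjecture. -/
theorem equivariant {Γ Φ : Type*} [AddCommGroup Γ] [Group Φ] [Fintype Φ] [DistribMulAction Φ Γ]
    (m : ℕ) (hm : 0 < m) (htor : ∀ x : Γ, m • x = 0)
    (A : Finset Γ) (hA : A.Nonempty) (K : ℝ)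
    (hK : Fintype.card Φ <
      2 * (univ.filter fun φ : Φ => ((A + A.image (φ • ·)).card : ℝ) ≤ K * A.card).card) :
    ∃ N : AddSubgroup Γ, Finite N ∧ (∀ (φ : Φ), ∀ x ∈ N, φ • x ∈ N) ∧
      (Nat.card N : ℝ) ≤ K ^ (2 * E m) * A.card ∧
        ∃ T : Finset Γ, (T.card : ℝ) ≤ K ^ (2 * E m) ∧ ∀ a ∈ A, ∃ t ∈ T, a - t ∈ N := by
  have hgen := generic A hA K hK
  have himg : ∀ (φ : Φ) (X Y : Finset Γ), (X + Y).image (φ • ·) =
      X.image (φ • ·) + Y.image (φ • ·) := by
    intro φ X Y
    exact Finset.image_add (DistribSMul.toAddMonoidHom Γ φ)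
  have hinj : ∀ φ : Φ, Function.Injective (fun x : Γ => φ • x) := fun φ =>
    MulAction.injective φ
  obtain ⟨N, hN, hinv, -, hN'⟩ := canonical m hm htor (fun φ : Φ => A.image (φ • ·))
    (fun φ => hA.image _) (K ^ 2) (fun φ ψ => by
      have e : A.image (ψ • ·) = (A.image ((φ⁻¹ * ψ) • ·)).image (φ • ·) := by
        rw [Finset.image_image]
        congr 1
        ext x
        simp [mul_smul]
      rw [e, ← himg, Finset.card_image_of_injective _ (hinj φ),
        Finset.card_image_of_injective _ (hinj φ)]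
      exact hgen _)
  refine ⟨N, hN, ?_, ?_⟩
  · intro φ x hx
    have h1 := hinv (DistribMulAction.toAddEquiv Γ φ) ⟨Equiv.mulLeft φ, fun ψ => ⟨0, fun x => by
      simp only [add_zero, DistribMulAction.toAddEquiv_apply, Equiv.coe_mulLeft, Finset.mem_image]
      constructor
      · rintro ⟨a, ha, rfl⟩
        exact ⟨a, ha, by rw [mul_smul]⟩
      · rintro ⟨a, ha, hax⟩
        refine ⟨a, ha, ?_⟩
        rw [mul_smul] at hax
        exact hinj φ hax⟩⟩
    rw [← h1]
    exact ⟨x, hx, rfl⟩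
  · have h2 := hN' 1
    simp only [one_smul, Finset.image_id', ← pow_mul] at h2
    exact h2

/-- **Theorem C.** Irreducible actions. -/
theorem irreducible {V Φ : Type*} [AddCommGroup V] [Finite V] [Group Φ] [Fintype Φ]
    [DistribMulAction Φ V] (m : ℕ) (hm : 0 < m) (htor : ∀ x : V, m • x = 0)
    (hirr : ∀ N : AddSubgroup V, (∀ (φ : Φ), ∀ x ∈ N, φ • x ∈ N) → N = ⊥ ∨ N = ⊤)
    (A : Finset V) (hA : A.Nonempty) (K : ℝ)
    (hK : Fintype.card Φ <
      2 * (univ.filter fun φ : Φ => ((A + A.image (φ • ·)).card : ℝ) ≤ K * A.card).card) :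
    (A.card : ℝ) ≤ K ^ (2 * E m) ∨ (Nat.card V : ℝ) ≤ K ^ (2 * E m) * A.card := by
  obtain ⟨N, hN, hinv, hN1, T, hT, hcov⟩ := equivariant m hm htor A hA K hK
  rcases hirr N hinv with h | h
  · left
    have h1 : A ⊆ T := by
      intro a ha
      obtain ⟨t, ht, hat⟩ := hcov a ha
      rw [h, AddSubgroup.mem_bot, sub_eq_zero] at hat
      rwa [hat]
    exact le_trans (by exact_mod_cast Finset.card_le_card h1) hT
  · right
    rw [h] at hN1
    rwa [AddSubgroup.card_top] at hN1

end Run7.h933.CAN
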