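import Pool.Agent.Run7.h933.CAN.Pair
import Pool.Agent.H112R2.Final
set_option autoImplicit false

/-! Elementary abelian groups, uniformly in the prime: a canonical pair `H ≤ U`. -/

open scoped Classical Pointwise
open Finset Filter

namespace Run7.h933.CAN

variable {Γ : Type*} [AddCommGroup Γ]

/-- transfer of a cover from one set of the family to another one -/
theorem ent_transfer {A B : Finset Γ} (hA : A.Nonempty) (hB : B.Nonempty) {K : ℝ} (hK1 : 1 ≤ K)
    (hK : ((A + B).card : ℝ) ≤ K * A.card) (N : AddSubgroup Γ) (L : ℝ) (hL : ent A N ≤ L) :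
    ent B N ≤ Real.log K + L := by
  have hK0 : 0 < K := by linarith
  obtain ⟨a, ha, hpop⟩ := exists_popular hA N
  set A' := A.filter (fun b => b - a ∈ N) with hA'
  have hA'c : cnt A N a = A'.card := rfl
  have hA'ne : A'.Nonempty := ⟨a, by simp [hA', ha]⟩
  have hexp : Real.exp (ent A N) ≤ Real.exp L := Real.exp_le_exp.2 hL
  have hA'1 : (A.card : ℝ) ≤ Real.exp L * A'.card := by
    rw [hA'c] at hpop
    exact hpop.trans (mul_le_mul_of_nonneg_right hexp (Nat.cast_nonneg _))
  have hsum : ((B + A').card : ℝ) ≤ (K * Real.exp L) * A'.card := by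
    have h2 : ((B + A').card : ℝ) ≤ (A + B).card := by
      rw [add_comm A B]
      exact_mod_cast Finset.card_le_card (Finset.add_subset_add_left (Finset.filter_subset _ _))
    calc ((B + A').card : ℝ) ≤ K * A.card := h2.trans hK
      _ ≤ K * (Real.exp L * A'.card) := mul_le_mul_of_nonneg_left hA'1 hK0.le
      _ = _ := by ring
  obtain ⟨F, -, hF, hAF⟩ := Finset.ruzsa_covering_add hA'ne hsum
  have hcovF : ∀ x ∈ B, ∃ t ∈ F, x - t ∈ N := by
    intro x hx
    obtain ⟨f, hf, d, hd, hfd⟩ := Finset.mem_add.1 (hAF hx)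
    obtain ⟨y, hy, z, hz, hyz⟩ := Finset.mem_sub.1 hd
    refine ⟨f, hf, ?_⟩
    have e : x - f = (y - a) - (z - a) := by rw [← hfd, ← hyz]; abel
    rw [e]
    exact N.sub_mem (Finset.mem_filter.1 hy).2 (Finset.mem_filter.1 hz).2
  have h3 := ent_le_log hB N F hcovF
  have hFpos : (0 : ℝ) < F.card := by
    obtain ⟨x, hx⟩ := hB
    obtain ⟨t, ht, -⟩ := hcovF x hx
    exact_mod_cast Finset.card_pos.2 ⟨t, ht⟩
  refine h3.trans ((Real.log_le_log hFpos hF).trans ?_)
  rw [Real.log_mul hK0.ne' (Real.exp_pos _).ne', Real.log_exp]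

/-- a cover from the entropy of another set of the family -/
theorem cover_of_ent {A B : Finset Γ} (hA : A.Nonempty) {K : ℝ} (hK1 : 1 ≤ K)
    (hK : ((A + B).card : ℝ) ≤ K * A.card) (N : AddSubgroup Γ) (L : ℝ) (hL : ent A N ≤ L) :
    ∃ T : Finset Γ, (T.card : ℝ) ≤ K * Real.exp L ∧ ∀ b ∈ B, ∃ t ∈ T, b - t ∈ N := by
  have hK0 : 0 < K := by linarith
  obtain ⟨a, ha, hpop⟩ := exists_popular hA N
  set A' := A.filter (fun b => b - a ∈ N) with hA'
  have hA'c : cnt A N a = A'.card := rfl
  have hA'ne : A'.Nonempty := ⟨a, by simp [hA', ha]⟩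
  have hexp : Real.exp (ent A N) ≤ Real.exp L := Real.exp_le_exp.2 hL
  have hA'1 : (A.card : ℝ) ≤ Real.exp L * A'.card := by
    rw [hA'c] at hpop
    exact hpop.trans (mul_le_mul_of_nonneg_right hexp (Nat.cast_nonneg _))
  have hsum : ((B + A').card : ℝ) ≤ (K * Real.exp L) * A'.card := by
    have h2 : ((B + A').card : ℝ) ≤ (A + B).card := by
      rw [add_comm A B]
      exact_mod_cast Finset.card_le_card (Finset.add_subset_add_left (Finset.filter_subset _ _))
    calc ((B + A').card : ℝ) ≤ K * A.card := h2.trans hK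
      _ ≤ K * (Real.exp L * A'.card) := mul_le_mul_of_nonneg_left hA'1 hK0.le
      _ = _ := by ring
  obtain ⟨F, -, hF, hAF⟩ := Finset.ruzsa_covering_add hA'ne hsum
  refine ⟨F, hF, ?_⟩
  intro x hx
  obtain ⟨f, hf, d, hd, hfd⟩ := Finset.mem_add.1 (hAF hx)
  obtain ⟨y, hy, z, hz, hyz⟩ := Finset.mem_sub.1 hd
  refine ⟨f, hf, ?_⟩
  have e : x - f = (y - a) - (z - a) := by rw [← hfd, ← hyz]; abel
  rw [e]
  exact N.sub_mem (Finset.mem_filter.1 hy).2 (Finset.mem_filter.1 hz).2

/-- If the entropy of `A` modulo `H` is almost as small as possible, then `H` is a group of almost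
periods. -/
theorem period {A B : Finset Γ} (hA : A.Nonempty) (_hB : B.Nonempty) {K : ℝ} (hK1 : 1 ≤ K)
    (hAA : ((A + A).card : ℝ) ≤ K * A.card) (hAB : ((A + B).card : ℝ) ≤ K * A.card)
    (hAB' : (A.card : ℝ) ≤ K * B.card) (H : AddSubgroup Γ) [Finite H] (L : ℝ)
    (hL : ent A H + Real.log (Nat.card H) ≤ Real.log A.card + L) :
    (((B : Set Γ) + (H : Set Γ)).ncard : ℝ) ≤ Real.exp L * K ^ 6 * B.card := by
  have hK0 : 0 < K := by linarith
  have hApos : (0 : ℝ) < A.card := by exact_mod_cast hA.card_pos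
  have hHpos : (0 : ℝ) < Nat.card H := by exact_mod_cast Nat.card_pos
  have hHfin : (H : Set Γ).Finite := Set.toFinite _
  set HF : Finset Γ := hHfin.toFinset with hHF
  have hHFc : (HF.card : ℝ) = Nat.card H := by
    rw [hHF]
    exact_mod_cast (Set.ncard_eq_toFinset_card _ hHfin).symm
  have hHFmem : ∀ x, x ∈ HF ↔ x ∈ H := fun x => by rw [hHF, Set.Finite.mem_toFinset]; rfl
  obtain ⟨a, ha, hpop⟩ := exists_popular hA H
  set A' := A.filter (fun b => b - a ∈ H) with hA'
  have hA'c : cnt A H a = A'.card := rfl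
  have hA'ne : A'.Nonempty := ⟨a, by simp [hA', ha]⟩
  rw [hA'c] at hpop
  have hHA' : (Nat.card H : ℝ) ≤ Real.exp L * A'.card := by
    have hA'pos : (0 : ℝ) < A'.card := by exact_mod_cast hA'ne.card_pos
    have h1 : Real.log A.card ≤ ent A H + Real.log A'.card := by
      have := Real.log_le_log hApos hpop
      rwa [Real.log_mul (Real.exp_pos _).ne' hA'pos.ne', Real.log_exp] at this
    have h2 : Real.log (Nat.card H) ≤ Real.log (Real.exp L * A'.card) := by
      rw [Real.log_mul (Real.exp_pos _).ne' hA'pos.ne', Real.log_exp]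
      linarith
    exact (Real.log_le_log_iff hHpos (by positivity)).1 h2
  -- cover `H`
  obtain ⟨F, -, hF, hHcov⟩ := Finset.ruzsa_covering_add (A := HF) hA'ne
    (K := Real.exp L) (by
      have h1 : (HF + A').card = HF.card := by
        have h2 : HF + A' = HF.image (fun x => x + a) := by
          ext x
          rw [Finset.mem_add, Finset.mem_image]
          constructor
          · rintro ⟨h, hh, y, hy, rfl⟩
            refine ⟨h + (y - a), (hHFmem _).2 (H.add_mem ((hHFmem _).1 hh)
              (Finset.mem_filter.1 hy).2), by abel⟩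
          · rintro ⟨h, hh, rfl⟩
            exact ⟨h, hh, a, by simp [hA', ha], rfl⟩
        rw [h2, Finset.card_image_of_injective _ (add_left_injective a)]
      rw [h1, hHFc]
      exact hHA')
  -- cover `B`
  obtain ⟨F', -, hF', hBcov⟩ := Finset.ruzsa_covering_add (A := B) hA (K := K) (by
    rw [add_comm]; exact hAB)
  have hsub : B + HF ⊆ (F' + F) + (2 • A - 2 • A) := by
    intro x hx
    obtain ⟨b, hb, h, hh, rfl⟩ := Finset.mem_add.1 hx
    obtain ⟨f', hf', d, hd, hfd⟩ := Finset.mem_add.1 (hBcov hb)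
    obtain ⟨y, hy, z, hz, rfl⟩ := Finset.mem_sub.1 hd
    obtain ⟨f, hf, d', hd', hfd'⟩ := Finset.mem_add.1 (hHcov hh)
    obtain ⟨y', hy', z', hz', rfl⟩ := Finset.mem_sub.1 hd'
    have e : b + h = (f' + f) + ((y + y') - (z + z')) := by rw [← hfd, ← hfd']; abel
    rw [e]
    refine Finset.add_mem_add (Finset.add_mem_add hf' hf) (Finset.sub_mem_sub ?_ ?_)
    · rw [two_nsmul]
      exact Finset.add_mem_add hy (Finset.filter_subset _ _ hy')
    · rw [two_nsmul]
      exact Finset.add_mem_add hz (Finset.filter_subset _ _ hz')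
  have hpl : ((2 • A - 2 • A).card : ℝ) ≤ K ^ 4 * A.card := by
    have h1 := Finset.pluennecke_ruzsa_inequality_nsmul_sub_nsmul_add hA A 2 2
    have h3 : ((2 • A - 2 • A).card : ℝ) ≤ (((A + A).card : ℝ) / A.card) ^ 4 * A.card := by
      have h2 := (NNRat.cast_le (K := ℝ)).2 h1
      push_cast at h2
      exact h2
    refine h3.trans (mul_le_mul_of_nonneg_right ?_ hApos.le)
    apply pow_le_pow_left₀ (by positivity)
    rw [div_le_iff₀ hApos]
    exact hAA
  have hcard : ((B + HF).card : ℝ) ≤ (K * Real.exp L) * (K ^ 4 * A.card) := by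
    have h1 := (Finset.card_le_card hsub).trans (Finset.card_add_le)
    have h2 : (F' + F).card ≤ F'.card * F.card := Finset.card_add_le
    calc ((B + HF).card : ℝ) ≤ (F' + F).card * (2 • A - 2 • A).card := by exact_mod_cast h1
      _ ≤ (F'.card * F.card) * (2 • A - 2 • A).card := by
          apply mul_le_mul_of_nonneg_right _ (Nat.cast_nonneg _)
          exact_mod_cast h2
      _ ≤ (K * Real.exp L) * (K ^ 4 * A.card) := by
          apply mul_le_mul _ hpl (Nat.cast_nonneg _) (by positivity)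
          exact mul_le_mul hF' hF (Nat.cast_nonneg _) hK0.le
  have hset : ((B : Set Γ) + (H : Set Γ)) = ((B + HF : Finset Γ) : Set Γ) := by
    rw [Finset.coe_add]
    congr 1
    ext x
    exact ((hHFmem x).symm)
  rw [hset, Set.ncard_coe_finset]
  calc ((B + HF).card : ℝ) ≤ (K * Real.exp L) * (K ^ 4 * A.card) := hcard
    _ ≤ (K * Real.exp L) * (K ^ 4 * (K * B.card)) := by
        apply mul_le_mul_of_nonneg_left _ (by positivity)
        exact mul_le_mul_of_nonneg_left hAB' (by positivity)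
    _ = _ := by ring

end Run7.h933.CAN
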