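import Pool.Agent.Run7.h933.CAN.Uni
set_option autoImplicit false

/-! The canonical pair, uniformly in the exponent of the group. -/

open scoped Classical Pointwise
open Finset Filter

namespace Run7.h933.CAN

theorem lattice_points_finite {d : ℕ} {B : Set (Fin d → ℝ)} (hB : IsCompact B) :
    {c : Fin d → ℤ | (fun i => (c i : ℝ)) ∈ B}.Finite := by
  obtain ⟨R, hR⟩ := hB.isBounded.subset_closedBall 0
  have h1 : {c : Fin d → ℤ | (fun i => (c i : ℝ)) ∈ B} ⊆
      Set.Icc (fun _ => -⌈R⌉) (fun _ => ⌈R⌉) := by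
    intro c hc
    have h2 := hR hc
    rw [mem_closedBall_zero_iff] at h2
    have h3 : ∀ i, |(c i : ℝ)| ≤ R := fun i => (norm_le_pi_norm _ i).trans h2
    constructor
    · intro i
      have h4 := (abs_le.1 (h3 i)).1
      have h5 := Int.le_ceil R
      have h6 : (-⌈R⌉ : ℝ) ≤ c i := by linarith
      exact_mod_cast h6
    · intro i
      have h4 := (abs_le.1 (h3 i)).2
      have h5 := Int.le_ceil R
      have h6 : (c i : ℝ) ≤ ⌈R⌉ := by linarith
      exact_mod_cast h6
  exact (Set.finite_Icc _ _).subset h1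

variable {Γ : Type*} [AddCommGroup Γ]

theorem range_card (m : ℕ) (hm : 0 < m) (htor : ∀ x : Γ, m • x = 0) {d : ℕ}
    (ψ : (Fin d → ℤ) →+ Γ) : Finite ψ.range ∧ Nat.card ψ.range ≤ m ^ d := by
  have : NeZero m := ⟨hm.ne'⟩
  let f : (Fin d → Fin m) → ψ.range := fun x => ⟨ψ (fun i => ((x i : ℕ) : ℤ)), _, rfl⟩
  have hf : Function.Surjective f := by
    rintro ⟨_, y, rfl⟩
    have hmod := fun i => Int.emod_nonneg (y i) (by positivity : (m : ℤ) ≠ 0)
    have hlt := fun i => Int.emod_lt_of_pos (y i) (by positivity : (0:ℤ) < m)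
    refine ⟨fun i => ⟨(y i % m).toNat, by have := hmod i; have := hlt i; omega⟩, ?_⟩
    apply Subtype.ext
    show ψ (fun i => (((y i % m).toNat : ℕ) : ℤ)) = ψ y
    have h1 : y = (fun i => (((y i % m).toNat : ℕ) : ℤ)) + m • (fun i => y i / m) := by
      ext i
      have h2 := Int.toNat_of_nonneg (hmod i)
      have h3 := Int.emod_add_mul_ediv (y i) m
      show y i = (((y i % m).toNat : ℕ) : ℤ) + m • (y i / m)
      rw [nsmul_eq_mul, h2]
      exact h3.symm
    conv_rhs => rw [h1, map_add, map_nsmul, htor, add_zero]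
  refine ⟨Finite.of_surjective f hf, ?_⟩
  have h1 := Nat.card_le_card_of_surjective f hf
  simpa using h1

/-- the two subgroups from the near-polynomial theorem -/
theorem near_sub (m : ℕ) (hm : 0 < m) (htor : ∀ x : Γ, m • x = 0) {K : ℝ} {A : Finset Γ}
    (hA : A.Nonempty) (hK : ((A + A).card : ℝ) ≤ K * A.card) :
    ∃ H U : AddSubgroup Γ, Finite U ∧ H ≤ U ∧
      Real.log (Nat.card U) - Real.log (Nat.card H) ≤ 300 * Real.log (2 * K) * Real.log m ∧
      ent A U ≤ 13000 * ((1 + Real.log (1 + Real.log (2 * K))) * Real.log (2 * K)) ∧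
      ent A H + Real.log (Nat.card H) ≤
        13000 * ((1 + Real.log (1 + Real.log (2 * K))) * Real.log (2 * K)) + Real.log A.card := by
  have hApos : (0 : ℝ) < A.card := by exact_mod_cast hA.card_pos
  have hK1 : 1 ≤ K := by
    have h1 : (A.card : ℝ) ≤ (A + A).card := by
      exact_mod_cast Finset.card_le_card_add_right hA
    nlinarith
  have h2K : 0 < 2 * K := by linarith
  obtain ⟨d, B, ψ, H, T, hd, hB, hH, hvol, hT, hcov⟩ := H112.near_pfr hA hK
  have hBfin := lattice_points_finite hB.2.1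
  obtain ⟨hRfin, hRc⟩ := range_card m hm htor ψ
  have hHpos : (0 : ℝ) < Nat.card H := by exact_mod_cast Nat.card_pos
  have hUfin : Finite (H ⊔ ψ.range : AddSubgroup Γ) := finite_sup hH hRfin
  have hTpos : (0 : ℝ) < T.card := by
    obtain ⟨a, ha⟩ := hA
    obtain ⟨t, ht, -⟩ := hcov a ha
    exact_mod_cast Finset.card_pos.2 ⟨t, ht⟩
  have hlT : Real.log T.card ≤
      13000 * ((1 + Real.log (1 + Real.log (2 * K))) * Real.log (2 * K)) := by
    have h1 := Real.log_le_log hTpos hT
    rw [Real.log_rpow h2K] at h1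
    linarith
  refine ⟨H, H ⊔ ψ.range, hUfin, le_sup_left, ?_, ?_, ?_⟩
  · have h1 : Nat.card (H ⊔ ψ.range : AddSubgroup Γ) ≤ Nat.card H * m ^ d := by
      have h2 := card_inf_mul_card_sup H ψ.range
      have h3 : 0 < Nat.card (H ⊓ ψ.range : AddSubgroup Γ) := by
        have : Finite (H ⊓ ψ.range : AddSubgroup Γ) :=
          Finite.Set.subset (H : Set Γ) (inf_le_left : H ⊓ ψ.range ≤ H)
        exact Nat.card_pos
      calc Nat.card (H ⊔ ψ.range : AddSubgroup Γ) ≤
          Nat.card (H ⊓ ψ.range : AddSubgroup Γ) * Nat.card (H ⊔ ψ.range : AddSubgroup Γ) :=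
            Nat.le_mul_of_pos_left _ h3
        _ = Nat.card H * Nat.card ψ.range := h2
        _ ≤ Nat.card H * m ^ d := Nat.mul_le_mul_left _ hRc
    have hUpos : (0 : ℝ) < Nat.card (H ⊔ ψ.range : AddSubgroup Γ) := by
      exact_mod_cast Nat.card_pos
    have hmpos : (0 : ℝ) < m := by exact_mod_cast hm
    have h2 : (Nat.card (H ⊔ ψ.range : AddSubgroup Γ) : ℝ) ≤ Nat.card H * (m : ℝ) ^ d := by
      exact_mod_cast h1
    have h3 := Real.log_le_log hUpos h2
    rw [Real.log_mul hHpos.ne' (by positivity), Real.log_pow] at h3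
    have hlm : 0 ≤ Real.log m := Real.log_nonneg (by exact_mod_cast hm)
    have h4 : (d : ℝ) * Real.log m ≤ 300 * Real.log (2 * K) * Real.log m :=
      mul_le_mul_of_nonneg_right hd hlm
    linarith
  · refine (ent_le_log hA _ T ?_).trans hlT
    intro a ha
    obtain ⟨t, ht, c, -, h, hh, hat⟩ := hcov a ha
    refine ⟨t, ht, ?_⟩
    have e : a - t = h + ψ c := by rw [hat]; abel
    rw [e]
    exact AddSubgroup.add_mem _ ((le_sup_left : H ≤ _) hh) ((le_sup_right : ψ.range ≤ _) ⟨c, rfl⟩)
  · set T' : Finset Γ := (T ×ˢ hBfin.toFinset).image (fun q => q.1 + ψ q.2) with hT'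
    have hcov' : ∀ a ∈ A, ∃ t ∈ T', a - t ∈ H := by
      intro a ha
      obtain ⟨t, ht, c, hc, h, hh, hat⟩ := hcov a ha
      refine ⟨t + ψ c, Finset.mem_image.2 ⟨(t, c), ?_, rfl⟩, ?_⟩
      · rw [Finset.mem_product, Set.Finite.mem_toFinset]
        exact ⟨ht, hc⟩
      · have e : a - (t + ψ c) = h := by rw [hat]; abel
        rw [e]
        exact hh
    have h1 := ent_le_log hA H T' hcov'
    have hT'pos : (0 : ℝ) < T'.card := by
      obtain ⟨a, ha⟩ := hA
      obtain ⟨t, ht, -⟩ := hcov' a ha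
      exact_mod_cast Finset.card_pos.2 ⟨t, ht⟩
    have h2 : T'.card ≤ T.card * {c : Fin d → ℤ | (fun i => (c i : ℝ)) ∈ B}.ncard := by
      rw [Set.ncard_eq_toFinset_card _ hBfin]
      exact Finset.card_image_le.trans (Finset.card_product _ _).le
    have h3 : (T'.card : ℝ) * Nat.card H ≤ T.card * A.card := by
      have h4 : T'.card * Nat.card H ≤ T.card * A.card := by
        calc T'.card * Nat.card H ≤
            (T.card * {c : Fin d → ℤ | (fun i => (c i : ℝ)) ∈ B}.ncard) * Nat.card H :=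
              Nat.mul_le_mul_right _ h2
          _ = T.card * ({c : Fin d → ℤ | (fun i => (c i : ℝ)) ∈ B}.ncard * Nat.card H) := by ring
          _ ≤ T.card * A.card := Nat.mul_le_mul_left _ hvol
      exact_mod_cast h4
    have h5 := Real.log_le_log (by positivity) h3
    rw [Real.log_mul hT'pos.ne' hHpos.ne', Real.log_mul hTpos.ne' hApos.ne'] at h5
    linarith

/-- **Theorem H.** The canonical pair, uniformly in the exponent of the group. -/
theorem canonical_uniform (m : ℕ) (hm : 2 ≤ m) (htor : ∀ x : Γ, m • x = 0)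
    {ι : Type*} [Fintype ι] [Nonempty ι] (A : ι → Finset Γ) (hA : ∀ i, (A i).Nonempty) (K : ℝ)
    (hK : ∀ i j, ((A i + A j).card : ℝ) ≤ K * (A i).card) :
    ∃ H U : AddSubgroup Γ, Finite U ∧ H ≤ U ∧
      (∀ φ : Γ ≃+ Γ, Permutes A φ → H.map φ.toAddMonoidHom = H ∧ U.map φ.toAddMonoidHom = U) ∧
      (∀ W : AddSubgroup Γ, (∀ i, ∀ a ∈ A i, ∀ b ∈ A i, a - b ∈ W) → U ≤ W) ∧
      (Nat.card U : ℝ) ≤ (m : ℝ) ^ (30000 * Real.log (2 * K)) * Nat.card H ∧
      ∀ i, (((A i : Set Γ) + (H : Set Γ)).ncard : ℝ) ≤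
          (2 * K) ^ (30000 * (1 + Real.log (1 + Real.log (2 * K)))) * (A i).card ∧
        ∃ T : Finset Γ, (T.card : ℝ) ≤ (2 * K) ^ (30000 * (1 + Real.log (1 + Real.log (2 * K)))) ∧
          ∀ a ∈ A i, ∃ t ∈ T, a - t ∈ U := by
  obtain ⟨i₀⟩ := (inferInstance : Nonempty ι)
  have : Nonempty ι := ⟨i₀⟩
  have hApos : ∀ i, (0 : ℝ) < (A i).card := fun i => by exact_mod_cast (hA i).card_pos
  have hK1 : 1 ≤ K := by
    have h1 : ((A i₀).card : ℝ) ≤ (A i₀ + A i₀).card := by
      exact_mod_cast Finset.card_le_card_add_right (hA i₀)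
    have h2 := hK i₀ i₀
    have h3 := hApos i₀
    nlinarith
  have hK0 : 0 < K := by linarith
  have hlK : 0 ≤ Real.log K := Real.log_nonneg hK1
  have hmpos : (0 : ℝ) < m := by exact_mod_cast (by omega : 0 < m)
  have hlm : 0 < Real.log m := Real.log_pos (by exact_mod_cast (by omega : 1 < m))
  set Lg : ℝ := Real.log (2 * K) with hLg
  have hLgK : Real.log K ≤ Lg := Real.log_le_log hK0 (by linarith)
  have hLg0 : 0 < Lg := Real.log_pos (by linarith)
  set lam : ℝ := 1 + Real.log (1 + Lg) with hlam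
  have hlam1 : 1 ≤ lam := by
    have := Real.log_nonneg (by linarith : (1 : ℝ) ≤ 1 + Lg)
    linarith
  set l : ℝ := lam * Lg with hl
  have hLgl : Lg ≤ l := by nlinarith
  have hQ : (2 * K) ^ (30000 * lam) = Real.exp (30000 * l) := by
    rw [Real.rpow_def_of_pos (by linarith), ← hLg, hl]
    congr 1
    ring
  -- sizes
  have hsize' : ∀ i j, ((A i).card : ℝ) ≤ K * (A j).card := by
    intro i j
    have h1 : ((A i).card : ℝ) ≤ (A j + A i).card := by
      exact_mod_cast Finset.card_le_card_add_left (hA j)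
    exact h1.trans (hK j i)
  have hsize : ∀ i j, Real.log (A i).card ≤ Real.log (A j).card + Real.log K := by
    intro i j
    have h3 := Real.log_le_log (hApos i) (hsize' i j)
    rw [Real.log_mul hK0.ne' (hApos j).ne'] at h3
    linarith
  obtain ⟨H₀, U₀, hU₀fin, hH₀U₀, hcard₀, hentU₀, hentH₀⟩ :=
    near_sub m (by omega) htor (hA i₀) (hK i₀ i₀)
  rw [← hLg, ← hlam, ← hl] at hentU₀ hentH₀
  rw [← hLg] at hcard₀
  have hw : 0 < lam / Real.log m := by positivity
  obtain ⟨H, U, hUfin, hHU, hmin, hinv, hW⟩ := exists_can_pair A (lam / Real.log m) hw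
  have hHfin : Finite H := Finite.Set.subset (U : Set Γ) hHU
  have hHpos : (0 : ℝ) < Nat.card H := by exact_mod_cast Nat.card_pos
  have hUpos : (0 : ℝ) < Nat.card U := by exact_mod_cast Nat.card_pos
  have hmin0 := hmin H₀ U₀ hU₀fin hH₀U₀
  unfold gg at hmin0
  simp only at hmin0
  set n : ℝ := (Fintype.card ι : ℝ) with hn
  have hnpos : 0 < n := by
    have : 0 < Fintype.card ι := Fintype.card_pos
    rw [hn]
    exact_mod_cast this
  have hconst : ∀ c : ℝ, ∑ _i : ι, c = n * c := by
    intro c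
    rw [Finset.sum_const, Finset.card_univ, nsmul_eq_mul]
  set Λ : ℝ := ∑ i, Real.log (A i).card with hΛ
  have hΛ1 : n * Real.log (A i₀).card ≤ Λ + n * Real.log K := by
    have h1 : ∑ _i : ι, Real.log (A i₀).card ≤ ∑ i : ι, (Real.log (A i).card + Real.log K) :=
      Finset.sum_le_sum fun i _ => hsize i₀ i
    rw [Finset.sum_add_distrib, hconst, hconst] at h1
    exact h1
  have hS0 : ∑ i, ent (A i) U₀ ≤ n * (Real.log K + 13000 * l) := by
    rw [← hconst]
    exact Finset.sum_le_sum fun i _ => ent_transfer (hA i₀) (hA i) hK1 (hK i₀ i) U₀ _ hentU₀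
  have hS1 : ∑ i, ent (A i) H₀ ≤
      n * (Real.log K + (13000 * l + Real.log (A i₀).card - Real.log (Nat.card H₀))) := by
    rw [← hconst]
    exact Finset.sum_le_sum fun i _ => ent_transfer (hA i₀) (hA i) hK1 (hK i₀ i) H₀ _
      (by linarith)
  have hw0 : lam / Real.log m * (Real.log (Nat.card U₀) - Real.log (Nat.card H₀)) ≤ 300 * l := by
    calc lam / Real.log m * (Real.log (Nat.card U₀) - Real.log (Nat.card H₀)) ≤
        lam / Real.log m * (300 * Lg * Real.log m) := mul_le_mul_of_nonneg_left hcard₀ hw.le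
      _ = 300 * l := by rw [hl]; field_simp
  have hw0' := mul_le_mul_of_nonneg_left hw0 hnpos.le
  have hlKn := mul_le_mul_of_nonneg_left (hLgK.trans hLgl) hnpos.le
  -- the value at the minimizer
  have hlow : Λ ≤ ∑ i, ent (A i) H + n * Real.log (Nat.card H) := by
    have h1 : ∑ i, (Real.log (A i).card - Real.log (Nat.card H)) ≤ ∑ i, ent (A i) H :=
      Finset.sum_le_sum fun i _ => log_card_le_ent (hA i) H
    rw [Finset.sum_sub_distrib, hconst] at h1
    linarith
  have hent_nn : 0 ≤ ∑ i, ent (A i) U := Finset.sum_nonneg fun i _ => ent_nonneg _ _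
  have hHUlog : Real.log (Nat.card H) ≤ Real.log (Nat.card U) := by
    apply Real.log_le_log hHpos
    exact_mod_cast Nat.card_mono (Set.toFinite _) hHU
  have hwnn : 0 ≤ n * (lam / Real.log m * (Real.log (Nat.card U) - Real.log (Nat.card H))) :=
    mul_nonneg hnpos.le (mul_nonneg hw.le (by linarith))
  have htot : ∑ i, ent (A i) U +
      n * (lam / Real.log m * (Real.log (Nat.card U) - Real.log (Nat.card H))) +
      (∑ i, ent (A i) H + n * Real.log (Nat.card H) - Λ) ≤ n * (26303 * l) := by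
    have e1 : n * (Real.log K + 13000 * l) = n * Real.log K + 13000 * (n * l) := by ring
    have e2 : n * (Real.log K + (13000 * l + Real.log (A i₀).card - Real.log (Nat.card H₀))) =
        n * Real.log K + 13000 * (n * l) + n * Real.log (A i₀).card -
          n * Real.log (Nat.card H₀) := by ring
    have e3 : n * (lam / Real.log m * (Real.log (Nat.card U₀) - Real.log (Nat.card H₀)) +
        Real.log (Nat.card H₀)) =
        n * (lam / Real.log m * (Real.log (Nat.card U₀) - Real.log (Nat.card H₀))) +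
          n * Real.log (Nat.card H₀) := by ring
    have e4 : n * (lam / Real.log m * (Real.log (Nat.card U) - Real.log (Nat.card H)) +
        Real.log (Nat.card H)) =
        n * (lam / Real.log m * (Real.log (Nat.card U) - Real.log (Nat.card H))) +
          n * Real.log (Nat.card H) := by ring
    have e5 : n * (300 * l) = 300 * (n * l) := by ring
    have e6 : n * (26303 * l) = 26303 * (n * l) := by ring
    rw [e1] at hS0
    rw [e2] at hS1
    rw [e3, e4] at hmin0
    rw [e5] at hw0'
    rw [e6]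
    linarith
  have hU1 : ∑ i, ent (A i) U ≤ n * (26303 * l) := by linarith
  have hU2 : n * (lam / Real.log m * (Real.log (Nat.card U) - Real.log (Nat.card H))) ≤
      n * (26303 * l) := by linarith
  have hU3 : ∑ i, (ent (A i) H + (Real.log (Nat.card H) - Real.log (A i).card)) ≤
      n * (26303 * l) := by
    rw [Finset.sum_add_distrib, Finset.sum_sub_distrib, hconst]
    linarith
  obtain ⟨i₁, -, hi₁⟩ : ∃ i ∈ (Finset.univ : Finset ι), ent (A i) U ≤ 26303 * l := by
    apply Finset.exists_le_of_sum_le Finset.univ_nonempty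
    rw [hconst]
    exact hU1
  obtain ⟨i₂, -, hi₂⟩ : ∃ i ∈ (Finset.univ : Finset ι),
      ent (A i) H + (Real.log (Nat.card H) - Real.log (A i).card) ≤ 26303 * l := by
    apply Finset.exists_le_of_sum_le Finset.univ_nonempty
    rw [hconst]
    exact hU3
  have hKe : K = Real.exp (Real.log K) := (Real.exp_log hK0).symm
  refine ⟨H, U, hUfin, hHU, hinv, hW, ?_, fun i => ⟨?_, ?_⟩⟩
  · have h1 := le_of_mul_le_mul_left hU2 hnpos
    have h2 : Real.log (Nat.card U) - Real.log (Nat.card H) ≤ 26303 * Lg * Real.log m := by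
      have h3 : lam / Real.log m * (Real.log (Nat.card U) - Real.log (Nat.card H)) ≤
          lam / Real.log m * (26303 * Lg * Real.log m) := by
        refine h1.trans (le_of_eq ?_)
        rw [hl]
        field_simp
      exact le_of_mul_le_mul_left h3 hw
    have h3 : Real.log (Nat.card U) ≤
        Real.log ((m : ℝ) ^ (30000 * Lg) * Nat.card H) := by
      rw [Real.log_mul (by positivity) hHpos.ne', Real.log_rpow hmpos]
      have h5 := mul_pos hLg0 hlm
      have e1 : 26303 * Lg * Real.log m = 26303 * (Lg * Real.log m) := by ring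
      have e2 : 30000 * Lg * Real.log m = 30000 * (Lg * Real.log m) := by ring
      rw [e1] at h2
      rw [e2]
      linarith
    exact (Real.log_le_log_iff hUpos (by positivity)).1 h3
  · rw [hQ]
    have h1 := period (hA i₂) (hA i) hK1 (hK i₂ i₂) (hK i₂ i) (hsize' i₂ i) H (26303 * l)
      (by linarith)
    refine h1.trans (mul_le_mul_of_nonneg_right ?_ (Nat.cast_nonneg _))
    have h2 : K ^ 6 ≤ Real.exp (6 * l) := by
      have h3 : K ^ 6 = Real.exp (6 * Real.log K) := by
        rw [show (6 : ℝ) * Real.log K = Real.log (K ^ 6) by rw [Real.log_pow]; push_cast; ring,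
          Real.exp_log (by positivity)]
      rw [h3]
      apply Real.exp_le_exp.2
      linarith
    calc Real.exp (26303 * l) * K ^ 6 ≤ Real.exp (26303 * l) * Real.exp (6 * l) :=
          mul_le_mul_of_nonneg_left h2 (Real.exp_pos _).le
      _ = Real.exp (26309 * l) := by rw [← Real.exp_add]; congr 1; ring
      _ ≤ Real.exp (30000 * l) := Real.exp_le_exp.2 (by linarith)
  · rw [hQ]
    obtain ⟨T, hT, hTcov⟩ := cover_of_ent (hA i₁) hK1 (hK i₁ i) U (26303 * l) hi₁
    refine ⟨T, hT.trans ?_, hTcov⟩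
    calc K * Real.exp (26303 * l) ≤ Real.exp l * Real.exp (26303 * l) := by
          apply mul_le_mul_of_nonneg_right _ (Real.exp_pos _).le
          rw [hKe]
          exact Real.exp_le_exp.2 (hLgK.trans hLgl)
      _ = Real.exp (26304 * l) := by rw [← Real.exp_add]; congr 1; ring
      _ ≤ Real.exp (30000 * l) := Real.exp_le_exp.2 (by linarith)

end Run7.h933.CAN
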