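import Pool.Agent.Run7.h933.CAN.Pairs
import Pool.Agent.N112.WM.Main
set_option autoImplicit false

/-! Canonical pairs: polynomial bounds, uniformly in the exponent. -/

open scoped Classical Pointwise
open Finset Filter

namespace Run7.h933.CAN

/-- The family `A` has a canonical pair `H ≤ U` of finite subgroups: `H` and `U` are invariant under
all the automorphisms which permute the sets of the family up to translation, `U` is contained in
every subgroup which contains the differences of elements of the same set, `|U| ≤ δ |H|`, each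
`A i + H` has at most `a |A i|` elements, and each `A i` is covered by at most `b` cosets of `U`. -/
def Canonical {ι Γ : Type*} [AddCommGroup Γ] (A : ι → Finset Γ) (a b δ : ℝ) : Prop :=
  ∃ H U : AddSubgroup Γ, Finite U ∧ H ≤ U ∧
    (∀ φ : Γ ≃+ Γ, Permutes A φ → H.map φ.toAddMonoidHom = H ∧ U.map φ.toAddMonoidHom = U) ∧
    (∀ W : AddSubgroup Γ, (∀ i, ∀ x ∈ A i, ∀ y ∈ A i, x - y ∈ W) → U ≤ W) ∧
    (Nat.card U : ℝ) ≤ δ * Nat.card H ∧
    ∀ i, (((A i : Set Γ) + (H : Set Γ)).ncard : ℝ) ≤ a * (A i).card ∧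
      ∃ T : Finset Γ, (T.card : ℝ) ≤ b ∧ ∀ x ∈ A i, ∃ t ∈ T, x - t ∈ U

theorem Canonical.mono {ι Γ : Type*} [AddCommGroup Γ] {A : ι → Finset Γ} {a b δ a' b' δ' : ℝ}
    (h : Canonical A a b δ) (ha : a ≤ a') (hb : b ≤ b') (hδ : δ ≤ δ') : Canonical A a' b' δ' := by
  obtain ⟨H, U, h1, h2, h3, h4, h5, h6⟩ := h
  refine ⟨H, U, h1, h2, h3, h4, h5.trans (mul_le_mul_of_nonneg_right hδ (Nat.cast_nonneg _)),
    fun i => ⟨(h6 i).1.trans (mul_le_mul_of_nonneg_right ha (Nat.cast_nonneg _)), ?_⟩⟩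
  obtain ⟨T, hT, hcov⟩ := (h6 i).2
  exact ⟨T, hT.trans hb, hcov⟩

variable {Γ : Type*} [AddCommGroup Γ]

theorem closure_card (m : ℕ) (hm : 0 < m) (htor : ∀ x : Γ, m • x = 0) (S : Finset Γ) :
    Finite (AddSubgroup.closure (S : Set Γ)) ∧
      Nat.card (AddSubgroup.closure (S : Set Γ)) ≤ m ^ S.card := by
  induction S using Finset.induction_on with
  | empty =>
    rw [Finset.coe_empty, AddSubgroup.closure_empty]
    refine ⟨inferInstance, ?_⟩
    simp
  | insert g S hg ih =>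
    have heq : AddSubgroup.closure ((insert g S : Finset Γ) : Set Γ) =
        AddSubgroup.closure (S : Set Γ) ⊔ AddSubgroup.zmultiples g := by
      rw [Finset.coe_insert, Set.insert_eq, AddSubgroup.closure_union, sup_comm,
        AddSubgroup.zmultiples_eq_closure]
    have hfin := ih.1
    obtain ⟨h1, h2⟩ := Pool.Agent.TH404.Tor.sup_card (AddSubgroup.closure (S : Set Γ)) g hm
      (by rw [htor g]; exact AddSubgroup.zero_mem _)
    rw [heq, Finset.card_insert_of_notMem hg, pow_succ]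
    refine ⟨h1, h2.trans ?_⟩
    rw [mul_comm]
    exact Nat.mul_le_mul_right _ ih.2

/-- **Theorem 3.** Polynomial bounds, uniformly in the exponent. -/
theorem canonical_window (η : ℝ) (hη0 : 0 < η) (hη1 : η ≤ 1) (p₀ m : ℕ) (hp₀ : 2 ≤ p₀)
    (hm : 0 < m) (hpm : ∀ p : ℕ, p.Prime → p ∣ m → p₀ ≤ p) (htor : ∀ x : Γ, m • x = 0)
    {ι : Type*} [Fintype ι] [Nonempty ι] (A : ι → Finset Γ) (hA : ∀ i, (A i).Nonempty) (K : ℝ)
    (hK : ∀ i j, ((A i + A j).card : ℝ) ≤ K * (A i).card) :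
    Canonical A ((2 * K) ^ (2 * 10 ^ 12 / η)) ((2 * K) ^ (2 * 10 ^ 12 / η))
      (Real.exp (4 * 10 ^ 11 / η * (Real.log (2 * K) + Real.log (2 * K) ^ (1 + η) / Real.log p₀) *
        Real.log m)) := by
  obtain ⟨i₀⟩ := (inferInstance : Nonempty ι)
  have hApos : ∀ i, (0 : ℝ) < (A i).card := fun i => by exact_mod_cast (hA i).card_pos
  have hK1 : 1 ≤ K := by
    have h1 : ((A i₀).card : ℝ) ≤ (A i₀ + A i₀).card := by
      exact_mod_cast Finset.card_le_card_add_right (hA i₀)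
    have h2 := hK i₀ i₀
    have h3 := hApos i₀
    nlinarith
  have hK0 : 0 < K := by linarith
  have h2K : 1 ≤ 2 * K := by linarith
  have hlm : 0 ≤ Real.log m := Real.log_nonneg (by exact_mod_cast hm)
  have hLg : 0 ≤ Real.log (2 * K) := Real.log_nonneg h2K
  have hlp : 0 < Real.log p₀ := Real.log_pos (by exact_mod_cast (by omega : 1 < p₀))
  obtain ⟨H₀, S, T, hH₀, hper, hS, hT, hcov⟩ :=
    Pool.Agent.N112.WM.weak_w Γ K (A i₀) η p₀ (hA i₀) (hK i₀ i₀) hη0 hη1 hp₀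
  obtain ⟨hSfin, hSc⟩ := closure_card m hm htor S
  have hU₀fin : Finite (H₀ ⊔ AddSubgroup.closure (S : Set Γ) : AddSubgroup Γ) := finite_sup hH₀ hSfin
  have hH₀pos : (0 : ℝ) < Nat.card H₀ := by exact_mod_cast Nat.card_pos
  have hmpos : (0 : ℝ) < m := by exact_mod_cast hm
  have hzero : ∀ o ∈ Pool.Agent.N112.WM.pPart (fun p => p < p₀) Γ, o = 0 := by
    rintro o ⟨k, hk, hkp, hko⟩
    have h1 : Nat.Coprime k m := by
      rw [Nat.coprime_iff_isRelPrime]
      by_contra hcon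
      rw [← Nat.coprime_iff_isRelPrime, Nat.Prime.not_coprime_iff_dvd] at hcon
      obtain ⟨p, hp, hpk, hpm'⟩ := hcon
      have h2 := hkp p hp hpk
      have h3 := hpm p hp hpm'
      omega
    have h2 : addOrderOf o ∣ k := addOrderOf_dvd_of_nsmul_eq_zero hko
    have h3 : addOrderOf o ∣ m := addOrderOf_dvd_of_nsmul_eq_zero (htor o)
    have h4 := Nat.dvd_gcd h2 h3
    rw [h1] at h4
    exact AddMonoid.addOrderOf_eq_one_iff.1 (Nat.dvd_one.1 h4)
  set D : ℝ := 10 ^ 11 / η * (Real.log (2 * K) + Real.log (2 * K) ^ (1 + η) / Real.log p₀) *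
    Real.log m with hD
  have hD0 : 0 ≤ D := by positivity
  have hcard₀ : (Nat.card (H₀ ⊔ AddSubgroup.closure (S : Set Γ) : AddSubgroup Γ) : ℝ) ≤
      Real.exp D * Nat.card H₀ := by
    have h1 : Nat.card (H₀ ⊔ AddSubgroup.closure (S : Set Γ) : AddSubgroup Γ) ≤
        Nat.card H₀ * m ^ S.card := by
      have h2 := card_inf_mul_card_sup H₀ (AddSubgroup.closure (S : Set Γ))
      have h3 : 0 < Nat.card (H₀ ⊓ AddSubgroup.closure (S : Set Γ) : AddSubgroup Γ) := by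
        have : Finite (H₀ ⊓ AddSubgroup.closure (S : Set Γ) : AddSubgroup Γ) :=
          Finite.Set.subset (H₀ : Set Γ) (inf_le_left : H₀ ⊓ AddSubgroup.closure (S : Set Γ) ≤ H₀)
        exact Nat.card_pos
      calc Nat.card (H₀ ⊔ AddSubgroup.closure (S : Set Γ) : AddSubgroup Γ) ≤
          Nat.card (H₀ ⊓ AddSubgroup.closure (S : Set Γ) : AddSubgroup Γ) *
          Nat.card (H₀ ⊔ AddSubgroup.closure (S : Set Γ) : AddSubgroup Γ) :=
            Nat.le_mul_of_pos_left _ h3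
        _ = Nat.card H₀ * Nat.card (AddSubgroup.closure (S : Set Γ)) := h2
        _ ≤ Nat.card H₀ * m ^ S.card := Nat.mul_le_mul_left _ hSc
    have h2 : (Nat.card (H₀ ⊔ AddSubgroup.closure (S : Set Γ) : AddSubgroup Γ) : ℝ) ≤
        Nat.card H₀ * (m : ℝ) ^ S.card := by exact_mod_cast h1
    have h3 : (m : ℝ) ^ S.card ≤ Real.exp D := by
      have h4 : (m : ℝ) ^ S.card = Real.exp (S.card * Real.log m) := by
        rw [← Real.log_pow, Real.exp_log (by positivity)]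
      rw [h4]
      apply Real.exp_le_exp.2
      rw [hD]
      exact mul_le_mul_of_nonneg_right hS hlm
    calc _ ≤ (Nat.card H₀ : ℝ) * (m : ℝ) ^ S.card := h2
      _ ≤ Nat.card H₀ * Real.exp D := mul_le_mul_of_nonneg_left h3 hH₀pos.le
      _ = _ := mul_comm _ _
  have hη' : 1 ≤ 1 / η := by rw [le_div_iff₀ hη0]; linarith
  have hT' : (T.card : ℝ) ≤ (2 * K) ^ ((10 : ℝ) ^ 11 / η) := by
    refine hT.trans (Real.rpow_le_rpow_of_exponent_le h2K ?_)
    apply div_le_div_of_nonneg_right _ hη0.le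
    norm_num
  obtain ⟨H, U, hU, hHU, hinv, hW, hc, hrest⟩ := canonical_pair A hA K
    ((2 * K) ^ ((10 : ℝ) ^ 11 / η)) D hK hD0 i₀ H₀
    (H₀ ⊔ AddSubgroup.closure (S : Set Γ)) hU₀fin le_sup_left hcard₀ hper T hT'
    (fun a ha => by
      obtain ⟨t, ht, o, ho, hmem⟩ := hcov a ha
      rw [hzero o ho, sub_zero] at hmem
      exact ⟨t, ht, hmem⟩)
  have hLe : 2 * K * (2 * K) ^ ((10 : ℝ) ^ 11 / η) = (2 * K) ^ (1 + (10 : ℝ) ^ 11 / η) := by
    rw [Real.rpow_add (by linarith), Real.rpow_one]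
  have hb10 : (2 * K * (2 * K) ^ ((10 : ℝ) ^ 11 / η)) ^ 10 ≤ (2 * K) ^ (2 * (10 : ℝ) ^ 12 / η) := by
    rw [hLe, ← Real.rpow_natCast, ← Real.rpow_mul (by linarith)]
    apply Real.rpow_le_rpow_of_exponent_le h2K
    have e1 : (2 : ℝ) * 10 ^ 12 / η = 2 * 10 ^ 12 * (1 / η) := by ring
    have e2 : (10 : ℝ) ^ 11 / η = 10 ^ 11 * (1 / η) := by ring
    rw [e1, e2]
    push_cast
    linarith
  refine Canonical.mono (a := (2 * K * (2 * K) ^ ((10 : ℝ) ^ 11 / η)) ^ 10)
    (b := (2 * K * (2 * K) ^ ((10 : ℝ) ^ 11 / η)) ^ 5) (δ := Real.exp (4 * D))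
    ⟨H, U, hU, hHU, hinv, hW, hc, hrest⟩ hb10 ?_ ?_
  · refine le_trans ?_ hb10
    apply pow_le_pow_right₀ _ (by norm_num)
    rw [hLe]
    exact Real.one_le_rpow h2K (by positivity)
  · apply Real.exp_le_exp.2
    rw [hD]
    apply le_of_eq
    ring

end Run7.h933.CAN
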